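import Pool.Agent.Work.MP_8e9dbb.Z.IfaceZ
import Pool.Agent.Work.MP_8e9dbb.C.DataR

/-!
# MP_8e9dbb_gt, `c0`: the data block ZD
-/

namespace Pool.MP8e.Zero

/-- ZD: for `t → 0` the data of phase R' satisfy `ZData` with constants tending to `1`.
`S = sl D p + R p` for `p ≥ pf`, `B = R (β 0) = rB t = (19/20)√t`, `τ = t`, `y = √t / 2`;
`B² + y² = 0.9025 t + 0.25 t < 1 - xt² = R pf²` (`xt = 1 - .95 t`). Radial part: `|A - r'|`-estimates: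
`0 ≤ 1 - gg ≤ t`, `0 ≤ cap ≤ 8 dt`, `0 ≤ hR ≤ .182 t²`, hence `|sl p - r p| ≤ C t (r p)` on the north
half and `|S - sl p - r (ptot - p)| ≤ C t r (ptot - p)` on the south half, `S = π + O(t)`,
`R = sin r` resp. `sin (r (ptot - p))`. -/
def Stmt_ZD : Prop := ∀ ε > 0, ∃ t₀ > 0, ∀ (t : ℝ) (h : 0 < t) (h1 : t ≤ 1), t < t₀ →
  ∃ S B τ y Λ : ℝ, ZData (C.CR t h h1).toQD S B τ y Λ ∧ 2 * Real.log Λ ≤ ε

end Pool.MP8e.Zero
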