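import Pool.Agent.Work.MP_8e9dbb.Z.IfaceZ
import Pool.Agent.Work.MP_8e9dbb.B.Str

/-!
# MP_8e9dbb_gt, `c0`: assembly (block ZA, helper30)
-/

open MeasureTheory Filter Topology Metric Set
open scoped ContDiff

namespace Pool.MP8e.Zero

/-- the special points -/
def spc (D : QD) {X : Type} (Pr : ℝ × ℝ → X) : Set X :=
  {Pr (0, 0), Pr (D.β 0, 0), Pr (D.β 0, Real.pi), Pr (D.fl (Real.pi / 2))}

theorem spc_finite (D : QD) {X : Type} (Pr : ℝ × ℝ → X) : (spc D Pr).Finite := by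
  unfold spc
  exact (((finite_singleton _).insert _).insert _).insert _

/-- classification of the points -/
theorem classify (D : QD) {X : Type} [MetricSpace X] (Pr : ℝ × ℝ → X) (hF : Facts D X Pr)
    (x : X) (hx : x ∉ spc D Pr) :
    (∃ q, D.InS q ∧ q.1 ≤ D.pf ∧ x = Pr q) ∨ (∃ q, D.InS q ∧ D.pf < q.1 ∧ x = Pr q) ∨
      ∃ θ₀ c₀, D.IsFoot θ₀ c₀ ∧ x = Pr (D.fl θ₀) := by
  have hpi := Real.pi_pos
  obtain ⟨p, θ, h0, h1, hpt⟩ := hF.surj x
  rcases h0.eq_or_lt with h0 | h0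
  · exfalso
    apply hx
    left
    rw [← hpt, ← h0, hF.pole]
  rcases h1.eq_or_lt with h1 | h1
  · right; right
    -- floor point
    set j := ⌊θ / Real.pi⌋ with hj
    have hj1 : (j : ℝ) * Real.pi ≤ θ := by
      have := Int.floor_le (θ / Real.pi)
      rwa [le_div_iff₀ hpi] at this
    have hj2 : θ < (j + 1) * Real.pi := by
      have := Int.lt_floor_add_one (θ / Real.pi)
      rwa [div_lt_iff₀ hpi] at this
    have hfl : x = Pr (D.fl θ) := by rw [← hpt, h1]; rfl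
    rcases hj1.eq_or_lt with h2 | h2
    · exfalso
      apply hx
      rw [hfl, ← h2]
      rcases str_corner D X Pr hF j with h | h
      · right; left; exact h
      · right; right; left; exact h
    rcases lt_trichotomy θ (j * Real.pi + Real.pi / 2) with h3 | h3 | h3
    · exact ⟨θ, D.θf + j * Real.pi, ⟨j, Or.inl ⟨rfl, h2, h3⟩⟩, hfl⟩
    · exfalso
      apply hx
      rw [hfl, h3, add_comm]
      right; right; right
      exact str_Q D X Pr hF j
    · refine ⟨θ, -D.θf + (j + 1 : ℤ) * Real.pi, ⟨j + 1, Or.inr (Or.inl ⟨rfl, ?_, ?_⟩)⟩, hfl⟩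
      · push_cast; linarith
      · push_cast; linarith
  · rcases le_or_gt p D.pf with h2 | h2
    · left; exact ⟨(p, θ), ⟨h0, h1⟩, h2, hpt.symm⟩
    · right; left; exact ⟨(p, θ), ⟨h0, h1⟩, h2, hpt.symm⟩

theorem za_proof (hG : Stmt_ZG) (hB : Stmt_ZB) (hH : Stmt_ZH) (h1 : Stmt_ZL1) (h2 : Stmt_ZL2)
    (h3 : Stmt_ZL3) : Stmt_ZA := by
  intro D S B τ y Λ hZ h Pr hF g hg
  obtain ⟨f, hf⟩ := hg
  obtain ⟨_, _, hc, hs, hfib⟩ := hB D S B τ y Λ hZ
  obtain ⟨F, hFF⟩ := hH D h.X S2 Pr hF (Fh D S B τ y) hc hs (fun q hq q' hq' =>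
    hfib h.X Pr hF q hq q' hq')
  have hΛ : 0 < Λ := one_pos.trans_le hZ.Λ_ge
  have hexp : Real.exp (2 * Real.log Λ) = Λ ^ 2 := by
    rw [show 2 * Real.log Λ = Real.log Λ + Real.log Λ by ring, Real.exp_add, Real.exp_log hΛ]
    ring
  -- local estimates
  have hloc : ∀ x ∉ spc D Pr, LocEst F Λ x := by
    intro x hx
    rcases classify D Pr hF x hx with ⟨q, a1, a2, rfl⟩ | ⟨q, a1, a2, rfl⟩ | ⟨θ₀, c₀, a1, rfl⟩
    · exact h1 D S B τ y Λ hZ h.X Pr hF F hFF q a1 a2
    · exact h2 D S B τ y Λ hZ h.X Pr hF F hFF q a1 a2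
    · exact h3 D S B τ y Λ hZ h.X Pr hF F hFF θ₀ c₀ a1
  -- continuity of `f` and its inverse
  have hfc : Continuous f := by
    refine (LipschitzWith.of_dist_le' (K := 1) fun x y => ?_).continuous
    rw [one_mul, hf, Subtype.dist_eq]
    exact Sph1.chord_le _ _
  have hfc' : Continuous f.symm := by
    refine (LipschitzWith.of_dist_le' (K := Real.pi / 2) fun x y => ?_).continuous
    rw [hf, Equiv.apply_symm_apply, Equiv.apply_symm_apply]
    exact Sph1.le_chord _ _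
  have hd : ∀ x y : h.X, dist (f.symm (F x)) (f.symm (F y)) =
      InnerProductGeometry.angle (F x : E3) (F y : E3) := by
    intro x y
    rw [hf, Equiv.apply_symm_apply, Equiv.apply_symm_apply]
  have d1 : ∀ x y : h.X, dist (f.symm (F x)) (f.symm (F y)) ≤ Λ ^ 2 * dist x y := by
    refine hG h.X g.X h.length (fun x => f.symm (F x)) (spc D Pr) (Λ ^ 2) (by positivity)
      (hfc'.comp F.continuous) (spc_finite D Pr) ?_
    intro q hq ε hε
    obtain ⟨r, hr, H⟩ := hloc q hq ε hε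
    refine ⟨r, hr, fun x hx y hy => ?_⟩
    rw [hd]
    exact (H x hx y hy).1
  have d2 : ∀ x y : g.X, dist (F.symm (f x)) (F.symm (f y)) ≤ Λ ^ 2 * dist x y := by
    refine hG g.X h.X g.length (fun x => F.symm (f x)) ((fun x => f.symm (F x)) '' spc D Pr)
      (Λ ^ 2) (by positivity) (F.symm.continuous.comp hfc) ((spc_finite D Pr).image _) ?_
    intro q hq ε hε
    have hq' : F.symm (f q) ∉ spc D Pr := by
      intro hmem
      exact hq ⟨_, hmem, by simp⟩
    obtain ⟨r, hr, H⟩ := hloc _ hq' ε hε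
    have hcont : Continuous fun x => F.symm (f x) := F.symm.continuous.comp hfc
    obtain ⟨δ, hδ, hball⟩ := Metric.continuous_iff.mp hcont q r hr
    refine ⟨δ, hδ, fun x hx y hy => ?_⟩
    have h4 := (H _ (hball x hx) _ (hball y hy)).2
    rw [F.apply_symm_apply, F.apply_symm_apply] at h4
    rw [hf x y]
    exact h4
  refine ⟨f.trans F.symm.toEquiv, fun x y => ?_⟩
  rw [hexp]
  refine ⟨d2 x y, ?_⟩
  have h4 := d1 (F.symm (f x)) (F.symm (f y))
  rw [F.apply_symm_apply, F.apply_symm_apply, Equiv.symm_apply_apply, Equiv.symm_apply_apply] at h4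
  exact h4

end Pool.MP8e.Zero
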