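import Pool.Agent.Work.MP_8e9dbb.Z.IfaceZ
import Pool.Agent.Work.MP_8e9dbb.B.Crr

/-!
# MP_8e9dbb_gt, `c0`: fibres of the comparison map (block ZB, helper30)
-/

open MeasureTheory Filter Topology Metric Set
open scoped ContDiff

namespace Pool.MP8e.Zero

theorem cos_fold (θ : ℝ) : Real.cos (fold θ) = |Real.cos θ| := by
  unfold fold
  exact Real.cos_arccos (by linarith [abs_nonneg (Real.cos θ)]) (Real.abs_cos_le_one θ)

theorem sin_fold (θ : ℝ) : Real.sin (fold θ) = |Real.sin θ| := by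
  unfold fold
  rw [Real.sin_arccos, sq_abs, ← Real.abs_sin_eq_sqrt_one_sub_cos_sq]

theorem polar_eq' {ρ θ ρ' θ' : ℝ} (h : 0 < ρ) (h' : 0 < ρ')
    (hc : ρ * Real.cos θ = ρ' * Real.cos θ') (hs : ρ * Real.sin θ = ρ' * Real.sin θ') :
    ρ = ρ' ∧ ∃ n : ℤ, θ' = θ + n * (2 * Real.pi) := by
  have h1 : ρ ^ 2 = ρ' ^ 2 := by
    have e1 := Real.sin_sq_add_cos_sq θ
    have e2 := Real.sin_sq_add_cos_sq θ'
    have : (ρ * Real.cos θ) ^ 2 + (ρ * Real.sin θ) ^ 2 =
        (ρ' * Real.cos θ') ^ 2 + (ρ' * Real.sin θ') ^ 2 := by rw [hc, hs]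
    nlinarith
  have h2 : ρ = ρ' := by
    rcases mul_eq_zero.1 (show (ρ - ρ') * (ρ + ρ') = 0 by nlinarith) with h3 | h3 <;> linarith
  refine ⟨h2, ?_⟩
  subst h2
  have c1 := mul_left_cancel₀ h.ne' hc
  have c2 := mul_left_cancel₀ h.ne' hs
  obtain ⟨k, hk⟩ := Real.Angle.angle_eq_iff_two_pi_dvd_sub.1 (Real.Angle.cos_sin_inj c1 c2)
  refine ⟨-k, ?_⟩
  push_cast
  linarith

theorem pol_re (D : QD) (S : ℝ) (q : ℝ × ℝ) : (pol D S q).re = (S - sl D q.1) * Real.cos q.2 := by
  rw [pol, Complex.re_ofReal_mul, Complex.exp_ofReal_mul_I_re]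

theorem pol_im (D : QD) (S : ℝ) (q : ℝ × ℝ) : (pol D S q).im = (S - sl D q.1) * Real.sin q.2 := by
  rw [pol, Complex.im_ofReal_mul, Complex.exp_ofReal_mul_I_im]

theorem norm_pol (D : QD) (S : ℝ) (q : ℝ × ℝ) : ‖pol D S q‖ = |S - sl D q.1| := by
  rw [pol, norm_mul, Complex.norm_exp_ofReal_mul_I, mul_one, Complex.norm_real, Real.norm_eq_abs]

theorem hasDerivAt_sl (D : QD) (p : ℝ) : HasDerivAt (sl D) (D.A p) p :=
  intervalIntegral.integral_hasDerivAt_right (D.contA.intervalIntegrable _ _)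
    D.contA.stronglyMeasurable.stronglyMeasurableAtFilter D.contA.continuousAt

theorem cont_sl (D : QD) : Continuous (sl D) :=
  continuous_iff_continuousAt.2 fun p => (hasDerivAt_sl D p).continuousAt

theorem sl_zero (D : QD) : sl D 0 = 0 := intervalIntegral.integral_same

theorem sl_strictMonoOn (D : QD) : StrictMonoOn (sl D) (Icc 0 D.ℓ) := by
  refine strictMonoOn_of_deriv_pos (convex_Icc _ _) (cont_sl D).continuousOn fun x hx => ?_
  rw [interior_Icc] at hx
  rw [(hasDerivAt_sl D x).deriv]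
  exact D.posA x ⟨hx.1.le, hx.2.le⟩

theorem cont_pol (D : QD) (S : ℝ) : Continuous (pol D S) := by
  have := cont_sl D
  unfold pol
  fun_prop

section
variable {D : QD} {S B τ y Λ : ℝ}

theorem mem_Icc_of_K {q : ℝ × ℝ} (hq : q ∈ Kst D) : q.1 ∈ Icc 0 D.ℓ :=
  ⟨hq.1, hq.2.trans (D.βh_memB q.2).2⟩

theorem ZData.rad_βh (h : ZData D S B τ y Λ) (θ : ℝ) : D.R (D.βh θ) = S - sl D (D.βh θ) :=
  h.hS _ ⟨(D.βh_memB θ).1.le, (D.βh_memB θ).2⟩

theorem ZData.rad_pos (h : ZData D S B τ y Λ) {p : ℝ} (hp : p ∈ Icc 0 D.ℓ) : 0 < S - sl D p := by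
  have hℓ : 0 < D.ℓ := D.pf_posB.trans D.pf_lt_ℓB
  have h1 := h.hS D.ℓ ⟨D.pf_lt_ℓB.le, le_refl _⟩
  have h2 := D.posR D.ℓ ⟨hℓ, le_refl _⟩
  have h3 := (sl_strictMonoOn D).monotoneOn hp ⟨hℓ.le, le_refl _⟩ hp.2
  linarith

theorem ZData.θf_lt (h : ZData D S B τ y Λ) : D.θf < Real.pi / 2 := by
  rcases D.cls with ⟨_, _, _, h4⟩ | ⟨h1, _, _⟩
  · exact h4
  · rw [h.κ_eq] at h1; linarith

theorem ZData.cosf_pos (h : ZData D S B τ y Λ) : 0 < Real.cos D.θf :=
  Real.cos_pos_of_mem_Ioo ⟨by have := D.θf_geB; have := Real.pi_pos; linarith, h.θf_lt⟩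

theorem ZData.sinf_pos (h : ZData D S B τ y Λ) : 0 < Real.sin D.θf :=
  Real.sin_pos_of_pos_of_lt_pi (by have := D.θf_geB; have := Real.pi_pos; linarith)
    (by have := h.θf_lt; have := Real.pi_pos; linarith)

theorem ZData.τf (h : ZData D S B τ y Λ) : Real.cos D.θf = τ * Real.sin D.θf := by
  rw [h.hτ, div_mul_cancel₀ _ h.sinf_pos.ne']

theorem ZData.floor' (h : ZData D S B τ y Λ) (θ : ℝ) :
    D.R (D.βh θ) * (τ * |Real.cos θ| + |Real.sin θ|) = B * τ := by
  have hs := h.sinf_pos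
  have e1 := D.floor (fold θ) (fold_memB θ)
  rw [h.κ_eq, neg_one_mul, Real.cos_neg, Real.cos_sub, cos_fold, sin_fold, h.τf] at e1
  have e2 := D.floor 0 ⟨le_refl _, by have := Real.pi_pos; linarith⟩
  rw [h.κ_eq, zero_sub, neg_mul_neg, one_mul, ← h.hB, h.τf] at e2
  have e3 : D.R (D.βh θ) * (τ * |Real.cos θ| + |Real.sin θ|) * Real.sin D.θf =
      B * τ * Real.sin D.θf := by
    rw [show B * τ * Real.sin D.θf = B * (τ * Real.sin D.θf) by ring, e2, ← e1]
    unfold QD.βh
    ring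
  exact mul_right_cancel₀ hs.ne' e3

theorem ZData.G_pos (h : ZData D S B τ y Λ) (θ : ℝ) : 0 < τ * |Real.cos θ| + |Real.sin θ| := by
  have h1 := h.floor' θ
  have h2 : 0 < D.R (D.βh θ) := D.posR _ ⟨D.βh_posB θ, (D.βh_memB θ).2⟩
  have h3 : 0 < B * τ := mul_pos h.B_pos h.τ_pos
  rw [← h1] at h3
  exact (pos_iff_pos_of_mul_pos h3).mp h2

/-- membership in `Out` of a point in polar coordinates -/
theorem ZData.out_iff (h : ZData D S B τ y Λ) {ρ θ : ℝ} (hρ : 0 < ρ) {z : ℂ}
    (hre : z.re = ρ * Real.cos θ) (him : z.im = ρ * Real.sin θ) :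
    (z ∈ Out B τ ↔ D.R (D.βh θ) ≤ ρ) ∧
    ((|z.im| = fr B τ z.re ∧ |z.re| ≤ B) ↔ D.R (D.βh θ) = ρ) := by
  have hG := h.G_pos θ
  have hf := h.floor' θ
  have ar : |z.re| = ρ * |Real.cos θ| := by rw [hre, abs_mul, abs_of_pos hρ]
  have ai : |z.im| = ρ * |Real.sin θ| := by rw [him, abs_mul, abs_of_pos hρ]
  have hR : 0 < D.R (D.βh θ) := D.posR _ ⟨D.βh_posB θ, (D.βh_memB θ).2⟩
  constructor
  · unfold Out fr
    rw [mem_ofPred_eq, ar, ai, max_le_iff]
    constructor
    · rintro ⟨_, h2⟩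
      by_contra h3
      rw [not_le] at h3
      nlinarith [mul_lt_mul_of_pos_right h3 hG]
    · intro h2
      refine ⟨by positivity, ?_⟩
      nlinarith [mul_le_mul_of_nonneg_right h2 hG.le]
  · unfold fr
    rw [ar, ai]
    constructor
    · rintro ⟨h2, h3⟩
      rw [max_eq_right (mul_nonneg (by linarith) h.τ_pos.le)] at h2
      have h4 : D.R (D.βh θ) * (τ * |Real.cos θ| + |Real.sin θ|) =
          ρ * (τ * |Real.cos θ| + |Real.sin θ|) := by rw [hf]; linarith
      exact mul_right_cancel₀ hG.ne' h4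
    · intro h2
      rw [h2] at hf
      have h3 : ρ * |Real.sin θ| = (B - ρ * |Real.cos θ|) * τ := by linarith
      have h4 : 0 ≤ (B - ρ * |Real.cos θ|) * τ := by rw [← h3]; positivity
      have h5 : 0 ≤ B - ρ * |Real.cos θ| := by
        by_contra h6
        rw [not_le] at h6
        nlinarith [mul_neg_of_neg_of_pos h6 h.τ_pos]
      exact ⟨by rw [max_eq_right h4, h3], by linarith⟩

theorem ZData.pol_out (h : ZData D S B τ y Λ) {q : ℝ × ℝ} (hq : q ∈ Kst D) :
    pol D S q ∈ Out B τ := by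
  have hp := mem_Icc_of_K hq
  refine (h.out_iff (h.rad_pos hp) (pol_re D S q) (pol_im D S q)).1.mpr ?_
  rw [h.rad_βh]
  have := (sl_strictMonoOn D).monotoneOn hp ⟨(D.βh_posB q.2).le, (D.βh_memB q.2).2⟩ hq.2
  linarith

theorem ZData.pol_floor (h : ZData D S B τ y Λ) {q : ℝ × ℝ} (hq : q ∈ Kst D) :
    q.1 = D.βh q.2 ↔ |(pol D S q).im| = fr B τ (pol D S q).re ∧ |(pol D S q).re| ≤ B := by
  have hp := mem_Icc_of_K hq
  rw [(h.out_iff (h.rad_pos hp) (pol_re D S q) (pol_im D S q)).2, h.rad_βh]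
  constructor
  · intro h1; rw [← h1]
  · intro h1
    have h2 : sl D q.1 = sl D (D.βh q.2) := by linarith
    exact (sl_strictMonoOn D).injOn hp ⟨(D.βh_posB q.2).le, (D.βh_memB q.2).2⟩ h2

theorem ZData.norm_pol' (h : ZData D S B τ y Λ) {q : ℝ × ℝ} (hq : q ∈ Kst D) :
    ‖pol D S q‖ = S - sl D q.1 := by
  rw [norm_pol, abs_of_pos (h.rad_pos (mem_Icc_of_K hq))]

theorem sl_nonneg {p : ℝ} (hp : p ∈ Icc 0 D.ℓ) : 0 ≤ sl D p := by
  rw [← sl_zero D]
  exact (sl_strictMonoOn D).monotoneOn ⟨le_refl _, hp.1.trans hp.2⟩ hp hp.1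

theorem ZData.norm_le (h : ZData D S B τ y Λ) {q : ℝ × ℝ} (hq : q ∈ Kst D) :
    ‖pol D S q‖ ≤ S := by
  rw [h.norm_pol' hq]
  linarith [sl_nonneg (mem_Icc_of_K hq)]

theorem ZData.y_pos (h : ZData D S B τ y Λ) : 0 < y :=
  (mul_pos h.B_pos h.τ_pos).trans h.y_gt

theorem norm_sq' (z : ℂ) : ‖z‖ ^ 2 = z.re ^ 2 + z.im ^ 2 := by
  rw [← Complex.normSq_eq_norm_sq, Complex.normSq_apply]; ring

/-- far out the squeeze is the identity -/
theorem ZData.far (h : ZData D S B τ y Λ) (hS : Stmt_ZS) {z : ℂ} (hz : D.R D.pf ≤ ‖z‖) :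
    Sq B τ y z = z := by
  refine (hS B τ y h.B_pos h.τ_pos h.y_gt).2.2.2.1 z ?_
  by_contra h1
  rw [not_or, not_le, not_le] at h1
  have h2 := norm_sq' z
  have h3 : z.re ^ 2 < B ^ 2 := by rw [← sq_abs]; exact pow_lt_pow_left₀ h1.1 (abs_nonneg _) two_ne_zero
  have h4 : z.im ^ 2 < y ^ 2 := by rw [← sq_abs]; exact pow_lt_pow_left₀ h1.2 (abs_nonneg _) two_ne_zero
  have h5 : D.R D.pf ^ 2 ≤ ‖z‖ ^ 2 :=
    pow_le_pow_left₀ (D.posR _ ⟨D.pf_posB, D.pf_lt_ℓB.le⟩).le hz 2
  linarith [h.y_lt]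

theorem ZData.Rpf_le (h : ZData D S B τ y Λ) : D.R D.pf ≤ S := by
  rw [h.hS D.pf ⟨le_refl _, D.pf_lt_ℓB.le⟩]
  linarith [sl_nonneg (D := D) (p := D.pf) ⟨D.pf_posB.le, D.pf_lt_ℓB.le⟩]

theorem norm_Sq_le (h : ZData D S B τ y Λ) (hS : Stmt_ZS) {z : ℂ} (hz : z ∈ Out B τ) :
    ‖Sq B τ y z‖ ≤ ‖z‖ := by
  obtain ⟨_, _, h3, _, h5, _⟩ := hS B τ y h.B_pos h.τ_pos h.y_gt
  have e1 := norm_sq' z
  have e2 := norm_sq' (Sq B τ y z)
  rw [h3] at e2
  have e3 := (h5 z hz).2.2.2
  have e4 : (Sq B τ y z).im ^ 2 ≤ z.im ^ 2 := sq_le_sq.mpr e3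
  refine (pow_le_pow_iff_left₀ (norm_nonneg _) (norm_nonneg _) two_ne_zero).mp ?_
  rw [e1, e2]
  linarith

end

theorem zb_proof (hE : Stmt_ZE2) (hS : Stmt_ZS) : Stmt_ZB := by
  intro D S B τ y Λ h
  have hpi := Real.pi_pos
  obtain ⟨s1, s2, s3, s4, s5, s6, s7, s8⟩ := hS B τ y h.B_pos h.τ_pos h.y_gt
  obtain ⟨e1, e2, e3, e4⟩ := hE (Real.pi / S) (div_pos hpi h.S_pos)
  have hle : ∀ z : ℂ, Real.pi / S * ‖z‖ ≤ Real.pi ↔ ‖z‖ ≤ S := by
    intro z
    rw [div_mul_eq_mul_div, div_le_iff₀ h.S_pos]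
    exact ⟨fun h1 => le_of_mul_le_mul_left h1 hpi, fun h1 => mul_le_mul_of_nonneg_left h1 hpi.le⟩
  have heq : ∀ z : ℂ, Real.pi / S * ‖z‖ = Real.pi ↔ ‖z‖ = S := by
    intro z
    rw [div_mul_eq_mul_div, div_eq_iff h.S_pos.ne']
    exact ⟨fun h1 => mul_left_cancel₀ hpi.ne' h1, fun h1 => by rw [h1]⟩
  refine ⟨fun q hq => ⟨h.pol_out hq, h.norm_le hq⟩, fun q hq => h.pol_floor hq, ?_, ?_, ?_⟩
  · exact e1.comp_continuousOn (s8.comp (cont_pol D S).continuousOn fun q hq => h.pol_out hq)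
  · intro s
    obtain ⟨z, hz, rfl⟩ := e2 s
    rw [hle] at hz
    obtain ⟨w, hw, rfl⟩ := s6 z
    have hwS : ‖w‖ ≤ S := by
      by_contra h1
      rw [not_le] at h1
      rw [h.far hS (h.Rpf_le.trans h1.le)] at hz
      linarith
    have hre : w.re = ‖w‖ * Real.cos (Complex.arg w) := by rw [Complex.norm_mul_cos_arg]
    have him : w.im = ‖w‖ * Real.sin (Complex.arg w) := by rw [Complex.norm_mul_sin_arg]
    have hw0 : 0 < ‖w‖ := by
      rw [norm_pos_iff]
      rintro rfl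
      have : fr B τ (0:ℂ).re ≤ |(0:ℂ).im| := hw
      unfold fr at this
      rw [Complex.zero_re, abs_zero, Complex.zero_im, abs_zero, sub_zero, max_le_iff] at this
      linarith [this.2, mul_pos h.B_pos h.τ_pos]
    have h2 := (h.out_iff hw0 hre him).1.mp hw
    rw [h.rad_βh] at h2
    have hβ := D.βh_posB (Complex.arg w)
    obtain ⟨p, hp, hp'⟩ := intermediate_value_Icc' hβ.le
      (f := fun p => S - sl D p) (continuous_const.sub (cont_sl D)).continuousOn
      (show ‖w‖ ∈ Icc _ _ from ⟨h2, by rw [sl_zero, sub_zero]; exact hwS⟩)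
    refine ⟨(p, Complex.arg w), ⟨hp.1, hp.2⟩, ?_⟩
    have h3 : pol D S (p, Complex.arg w) = w := by
      apply Complex.ext
      · rw [pol_re, hre]; simp only at hp' ⊢; rw [hp']
      · rw [pol_im, him]; simp only at hp' ⊢; rw [hp']
    rw [Fh, h3]
  · intro X _ Pr hF q hq q' hq'
    have hp := mem_Icc_of_K hq
    have hp' := mem_Icc_of_K hq'
    have r1 := h.rad_pos hp
    have r2 := h.rad_pos hp'
    -- equal norms give equal heights
    have hinj : S - sl D q.1 = S - sl D q'.1 → q.1 = q'.1 := fun h1 =>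
      (sl_strictMonoOn D).injOn hp hp' (by linarith)
    have hzero : ∀ x ∈ Kst D, S - sl D x.1 = S → x.1 = 0 := by
      intro x hx h1
      refine (sl_strictMonoOn D).injOn (mem_Icc_of_K hx) ⟨le_refl _, hx.1.trans (mem_Icc_of_K hx).2⟩ ?_
      rw [sl_zero]; linarith
    have same : ∀ n : ℤ, q.1 = q'.1 → q'.2 = q.2 + n * (2 * Real.pi) → Pr q = Pr q' := by
      intro n h1 h2
      have h3 : q' = (q.1, q.2 + n * (2 * Real.pi)) := Prod.ext h1.symm h2
      rw [h3, hF.per_int]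
    constructor
    · intro hEq
      have n1 := norm_Sq_le h hS (h.pol_out hq)
      have n2 := norm_Sq_le h hS (h.pol_out hq')
      have m1 := h.norm_le hq
      have m2 := h.norm_le hq'
      rcases e3 _ _ ((hle _).mpr (n1.trans m1)) ((hle _).mpr (n2.trans m2)) hEq with h1 | ⟨h1, h2⟩
      · rcases s7 _ (h.pol_out hq) _ (h.pol_out hq') h1 with h3 | ⟨h3, h4⟩
        · have c1 := congrArg Complex.re h3
          have c2 := congrArg Complex.im h3
          rw [pol_re, pol_re] at c1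
          rw [pol_im, pol_im] at c2
          obtain ⟨c3, n, c4⟩ := polar_eq' r1 r2 c1 c2
          exact same n (hinj c3) c4
        · have c1 := congrArg Complex.re h3
          have c2 := congrArg Complex.im h3
          rw [Complex.conj_re, pol_re, pol_re] at c1
          rw [Complex.conj_im, pol_im, pol_im] at c2
          obtain ⟨c3, n, c4⟩ := polar_eq' (θ := -q.2) (ρ := S - sl D q.1) (θ' := q'.2) r1 r2
            (by rw [Real.cos_neg]; exact c1.symm) (by rw [Real.sin_neg]; linarith)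
          have c5 := hinj c3
          by_cases c6 : |(pol D S q).re| ≤ B
          · have c7 := (h.pol_floor hq).mpr ⟨h4, c6⟩
            have h5 : q' = (q.1, -q.2 + n * (2 * Real.pi)) := Prod.ext c5.symm c4
            rw [h5, hF.per_int, c7, hF.flr]
            conv_lhs => rw [show q = (q.1, q.2) from rfl, c7]
          · rw [not_le] at c6
            have c7 : fr B τ (pol D S q).re = 0 := by
              unfold fr
              exact max_eq_left (mul_nonpos_of_nonpos_of_nonneg (by linarith) h.τ_pos.le)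
            rw [c7, abs_eq_zero] at h4
            have h5 : pol D S q' = pol D S q := by
              rw [h3]
              apply Complex.ext
              · rw [Complex.conj_re]
              · rw [Complex.conj_im, h4, neg_zero]
            have c1 := congrArg Complex.re h5
            have c2 := congrArg Complex.im h5
            rw [pol_re, pol_re] at c1
            rw [pol_im, pol_im] at c2
            obtain ⟨c8, n', c9⟩ := polar_eq' r1 r2 c1.symm c2.symm
            exact same n' (hinj c8) c9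
      · rw [heq] at h1 h2
        have k1 : q.1 = 0 := hzero q hq (by
          have := h.norm_pol' hq
          linarith)
        have k2 : q'.1 = 0 := hzero q' hq' (by
          have := h.norm_pol' hq'
          linarith)
        rw [show q = (q.1, q.2) from rfl, show q' = (q'.1, q'.2) from rfl, k1, k2, hF.pole,
          hF.pole q'.2]
    · -- the other direction
      have back : ∀ x ∈ Kst D, ∀ x' ∈ Kst D, Pr x = Pr x' → 0 < x.1 →
          Fh D S B τ y x = Fh D S B τ y x' := by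
        intro x hx x' hx' he hx0
        have hx1 : Pr (x.1, x.2) = Pr (x'.1, x'.2) := he
        rcases hx.2.lt_or_eq with h1 | h1
        · obtain ⟨a1, n, a2⟩ := hF.inj x.1 x.2 x'.1 x'.2 hx0 h1 hx'.1 hx'.2 hx1
          have : pol D S x' = pol D S x := by
            apply Complex.ext
            · rw [pol_re, pol_re, a1, a2, Real.cos_add_int_mul_two_pi]
            · rw [pol_im, pol_im, a1, a2, Real.sin_add_int_mul_two_pi]
          rw [Fh, Fh, this]
        · rw [h1] at hx1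
          obtain ⟨a1, n, a2⟩ := hF.injF x.2 x'.1 x'.2 hx'.1 hx'.2 hx1
          rw [← h1] at a1
          rcases a2 with a2 | a2
          · have : pol D S x' = pol D S x := by
              apply Complex.ext
              · rw [pol_re, pol_re, a1, a2, Real.cos_add_int_mul_two_pi]
              · rw [pol_im, pol_im, a1, a2, Real.sin_add_int_mul_two_pi]
            rw [Fh, Fh, this]
          · have h2 : pol D S x' = (starRingEnd ℂ) (pol D S x) := by
              apply Complex.ext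
              · rw [Complex.conj_re, pol_re, pol_re, a1, a2, Real.cos_add_int_mul_two_pi,
                  Real.cos_neg]
              · rw [Complex.conj_im, pol_im, pol_im, a1, a2, Real.sin_add_int_mul_two_pi,
                  Real.sin_neg]
                ring
            have h3 := h.pol_out hx
            have h4 := ((h.pol_floor hx).mp h1).1
            have h5 := ((s5 _ h3).2.2.1).mpr h4
            rw [Fh, Fh, h2, s2 _ h3]
            congr 1
            apply Complex.ext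
            · rw [Complex.conj_re]
            · rw [Complex.conj_im, h5, neg_zero]
      intro he
      rcases hq.1.lt_or_eq with h0 | h0
      · exact back q hq q' hq' he h0
      · rcases hq'.1.lt_or_eq with h0' | h0'
        · exact (back q' hq' q hq he.symm h0').symm
        · have far : ∀ x ∈ Kst D, x.1 = 0 → Real.pi / S * ‖Sq B τ y (pol D S x)‖ = Real.pi := by
            intro x hx hx0
            have a1 : ‖pol D S x‖ = S := by rw [h.norm_pol' hx, hx0, sl_zero, sub_zero]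
            rw [h.far hS (by rw [a1]; exact h.Rpf_le), a1]
            exact div_mul_cancel₀ _ h.S_pos.ne'
          exact e4 _ _ (far q hq h0.symm) (far q' hq' h0'.symm)

end Pool.MP8e.Zero
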