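import Pool.Agent.Work.MP_8e9dbb.Z.IfaceZD

/-!
# MP_8e9dbb_gt, `c0`: block ZD (the data of phase R' tend to the round sphere)
-/

open Real Set intervalIntegral
open scoped ContDiff

namespace Pool.MP8e.Zero.ZDAux

open Pool.MP8e.C

variable {t : ℝ}

/-- the speed of phase R' -/
noncomputable def At (t : ℝ) : ℝ → ℝ := AI (FN t) (gg t) (hR t)

theorem At_cont (t : ℝ) : Continuous (At t) :=
  (AI_contDiff (FN_contDiff t) (gg_contDiff t) (hR t)).continuous

theorem int_one_sub_w (p : ℝ) : ∫ u in (0:ℝ)..p, (1 - w u) = r p := by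
  have h := int_comp_r (f := fun _ => (1:ℝ)) continuous_const 0 p
  simp only [one_mul, integral_const, smul_eq_mul, mul_one] at h
  rw [h, Pool.MP8e.C.r_zero, sub_zero]

theorem int_w' (p : ℝ) : ∫ u in (0:ℝ)..p, w u = p - r p := by
  have h := int_one_sub_w p
  rw [integral_sub (by simp) (w_continuous.intervalIntegrable _ _)] at h
  simp only [integral_const, smul_eq_mul, mul_one, sub_zero] at h
  linarith

theorem cos_le_one' (x : ℝ) : cos x ≤ 1 := cos_le_one x

theorem FN_le (h : 0 < t) (h1 : t ≤ 1) {x : ℝ} (hx : x ≤ 1) : FN t x ≤ 1 + 27 / 25 * t := by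
  unfold FN
  have h2 := gg_sub_le h hx
  have h3 := cap_le h h1 hx
  unfold bt dt at h3
  linarith

theorem gg_ge' (h : 0 < t) {x : ℝ} (hx : x ≤ 1) : 1 - t ≤ gg t x := by
  linarith [gg_sub_le h hx]

theorem At_north_le (h : 0 < t) (h1 : t ≤ 1) {p : ℝ} (hp : p ≤ ptot - pa) :
    At t p ≤ (1 + 27 / 25 * t) * (1 - w p) + hR t * w p := by
  unfold At AI
  rw [w_south hp]
  have h2 := mul_le_mul_of_nonneg_right (FN_le h h1 (cos_le_one' (r p)))
    (sub_nonneg.2 (w_le_one p))
  linarith

theorem At_north_ge (h : 0 < t) (h1 : t ≤ 1) {p : ℝ} (hp : p ≤ ptot - pa) :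
    1 - w p ≤ At t p := by
  unfold At AI
  rw [w_south hp]
  have h2 := mul_le_mul_of_nonneg_right (FN_ge_one h h1 (cos_le_one' (r p)))
    (sub_nonneg.2 (w_le_one p))
  have h3 := mul_nonneg (hR_pos h h1).le (w_nonneg p)
  linarith

theorem At_south_le (_h : 0 < t) (_h1 : t ≤ 1) {p : ℝ} (hp : pa ≤ p) :
    At t p ≤ (1 - w (ptot - p)) + hR t * w (ptot - p) := by
  unfold At AI
  rw [w_one hp]
  have h2 := mul_le_mul_of_nonneg_right (gg_le_one (t := t) (cos_le_one' (r (ptot - p))))
    (sub_nonneg.2 (w_le_one (ptot - p)))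
  linarith

theorem At_south_ge (h : 0 < t) (h1 : t ≤ 1) {p : ℝ} (hp : pa ≤ p) :
    (1 - t) * (1 - w (ptot - p)) ≤ At t p := by
  unfold At AI
  rw [w_one hp]
  have h2 := mul_le_mul_of_nonneg_right (gg_ge' h (cos_le_one' (r (ptot - p))))
    (sub_nonneg.2 (w_le_one (ptot - p)))
  have h3 := mul_nonneg (hR_pos h h1).le (w_nonneg (ptot - p))
  linarith

/-- `h (p - r p)` is small -/
theorem hW_le (h : 0 < t) (h1 : t ≤ 1) {p : ℝ} (h0 : 0 ≤ p) (hp : p ≤ ptot - pa) :
    hR t * (p - r p) ≤ 1 / 5 * t * r p := by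
  have hh := hR_le h h1
  have hh0 := hR_pos h h1
  rcases le_total p q0 with h2 | h2
  · rw [r_small h2, sub_self, mul_zero]
    positivity
  · have h3 := r_ge h2
    have h4 : p - r p ≤ 21 / 20 := by
      unfold ptot pa at hp
      unfold q0 at h3
      linarith
    have h5 : 0 ≤ p - r p := by linarith [r_le_self p]
    have h6 : (3 / 2 : ℝ) ≤ r p := by
      unfold q0 at h3
      linarith [pi_gt_d2]
    have h7 : hR t * (p - r p) ≤ (91 / 500 * t ^ 2) * (21 / 20) :=
      mul_le_mul hh h4 h5 (by positivity)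
    have h8 : t ^ 2 ≤ t := by nlinarith
    have h9 : 1 / 5 * t * (3 / 2) ≤ 1 / 5 * t * r p :=
      mul_le_mul_of_nonneg_left h6 (by positivity)
    nlinarith

/-- north: the arc length -/
theorem sl_north (h : 0 < t) (h1 : t ≤ 1) {p : ℝ} (h0 : 0 ≤ p) (hp : p ≤ ptot - pa) :
    r p ≤ ∫ u in (0:ℝ)..p, At t u ∧ ∫ u in (0:ℝ)..p, At t u ≤ (1 + 13 / 10 * t) * r p := by
  have c1 : Continuous fun u => 1 - w u := continuous_const.sub w_continuous
  have hr := r_nonneg h0
  constructor
  · rw [← int_one_sub_w p]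
    apply integral_mono_on h0 (c1.intervalIntegrable _ _) ((At_cont t).intervalIntegrable _ _)
    intro u hu
    exact At_north_ge h h1 (hu.2.trans hp)
  · have h2 : ∫ u in (0:ℝ)..p, At t u ≤
        ∫ u in (0:ℝ)..p, ((1 + 27 / 25 * t) * (1 - w u) + hR t * w u) := by
      apply integral_mono_on h0 ((At_cont t).intervalIntegrable _ _)
        (((c1.const_mul _).add (w_continuous.const_mul _)).intervalIntegrable _ _)
      intro u hu
      exact At_north_le h h1 (hu.2.trans hp)
    rw [integral_add ((c1.const_mul _).intervalIntegrable _ _)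
      ((w_continuous.const_mul _).intervalIntegrable _ _), integral_const_mul,
      integral_const_mul, int_one_sub_w, int_w'] at h2
    have h3 := hW_le h h1 h0 hp
    have h4 : 0 ≤ t * r p := by positivity
    nlinarith

theorem int_south (f : ℝ → ℝ) (p : ℝ) :
    ∫ u in p..ptot, f (ptot - u) = ∫ u in (0:ℝ)..(ptot - p), f u := by
  rw [integral_comp_sub_left, sub_self]

/-- south: the arc length -/
theorem sl_south (h : 0 < t) (h1 : t ≤ 1) {p : ℝ} (h0 : pa ≤ p) (hp : p ≤ ptot) :
    (1 - t) * r (ptot - p) ≤ ∫ u in p..ptot, At t u ∧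
      ∫ u in p..ptot, At t u ≤ (1 + 1 / 5 * t) * r (ptot - p) := by
  have c0 : Continuous fun u : ℝ => w (ptot - u) :=
    w_continuous.comp (continuous_const.sub continuous_id)
  have c1 : Continuous fun u : ℝ => 1 - w (ptot - u) := continuous_const.sub c0
  constructor
  · have h2 : ∫ u in p..ptot, (1 - t) * (1 - w (ptot - u)) ≤ ∫ u in p..ptot, At t u := by
      apply integral_mono_on hp ((c1.const_mul _).intervalIntegrable _ _)
        ((At_cont t).intervalIntegrable _ _)
      intro u hu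
      exact At_south_ge h h1 (h0.trans hu.1)
    rw [integral_const_mul, int_south (fun u => 1 - w u), int_one_sub_w] at h2
    exact h2
  · have h2 : ∫ u in p..ptot, At t u ≤
        ∫ u in p..ptot, ((1 - w (ptot - u)) + hR t * w (ptot - u)) := by
      apply integral_mono_on hp ((At_cont t).intervalIntegrable _ _)
        ((c1.add (c0.const_mul _)).intervalIntegrable _ _)
      intro u hu
      exact At_south_le h h1 (h0.trans hu.1)
    rw [integral_add (c1.intervalIntegrable _ _) ((c0.const_mul _).intervalIntegrable _ _),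
      integral_const_mul, int_south (fun u => 1 - w u), int_south w, int_one_sub_w, int_w'] at h2
    have h3 := hW_le h h1 (p := ptot - p) (by linarith) (by linarith)
    linarith

/-- the total length -/
noncomputable def St (t : ℝ) : ℝ := ∫ u in (0:ℝ)..ptot, At t u

theorem St_split (t p : ℝ) :
    (∫ u in (0:ℝ)..p, At t u) + ∫ u in p..ptot, At t u = St t :=
  integral_add_adjacent_intervals ((At_cont t).intervalIntegrable _ _)
    ((At_cont t).intervalIntegrable _ _)

theorem St_bounds (h : 0 < t) (h1 : t ≤ 1) :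
    π * (1 - 13 / 10 * t) ≤ St t ∧ St t ≤ π * (1 + 13 / 10 * t) := by
  have hpi := pi_pos
  obtain ⟨a1, a2⟩ := sl_north h h1 (p := pa) pa_pos.le pa_lt.le
  obtain ⟨b1, b2⟩ := sl_south h h1 (p := pa) le_rfl (by linarith [pa_lt, pa_pos])
  rw [r_large le_rfl] at a1 a2
  rw [r_south pa_lt.le] at b1 b2
  have h2 := St_split t pa
  have h3 : 0 < π * t := by positivity
  constructor
  · nlinarith
  · nlinarith

/-- the sine estimate -/
theorem sin_est {x u δ : ℝ} (h0 : 0 < x) (h1 : x ≤ π / 2) (hu : |u - x| ≤ δ * x) :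
    |sin u - sin x| ≤ δ * (π / 2) * sin x := by
  have hpi := pi_pos
  have h2 : |sin u - sin x| ≤ |u - x| := by
    have h3 := sin_sub_sin u x
    rw [h3, abs_mul, abs_mul]
    have h4 : |cos ((u + x) / 2)| ≤ 1 := abs_cos_le_one _
    have h5 : |sin ((u - x) / 2)| ≤ |(u - x) / 2| := abs_sin_le_abs
    rw [abs_div, abs_two] at h5
    rw [abs_two]
    have h6 : 2 * |sin ((u - x) / 2)| * |cos ((u + x) / 2)| ≤
        2 * |sin ((u - x) / 2)| * 1 := mul_le_mul_of_nonneg_left h4 (by positivity)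
    linarith
  have hδ : 0 ≤ δ := by
    by_contra hcon
    push Not at hcon
    have h3 : δ * x < 0 := mul_neg_of_neg_of_pos hcon h0
    linarith [abs_nonneg (u - x)]
  have h3 : 2 / π * x ≤ sin x := mul_le_sin h0.le h1
  have h4 : x ≤ π / 2 * sin x := by
    have h5 : π / 2 * (2 / π * x) ≤ π / 2 * sin x := mul_le_mul_of_nonneg_left h3 (by positivity)
    have h6 : π / 2 * (2 / π * x) = x := by field_simp
    linarith
  calc |sin u - sin x| ≤ δ * x := h2.trans hu
    _ ≤ δ * (π / 2 * sin x) := mul_le_mul_of_nonneg_left h4 hδ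
    _ = _ := by ring

theorem scale_est (h : 0 < t) (h1 : t ≤ 1 / 20) {x s : ℝ} (hx : 0 < x)
    (hs1 : (1 - 13 / 10 * t) * x ≤ s) (hs2 : s ≤ (1 + 13 / 10 * t) * x) :
    |π / St t * s - x| ≤ 3 * t * x := by
  have hpi := pi_pos
  obtain ⟨a1, a2⟩ := St_bounds h (by linarith)
  have hS : 0 < St t := lt_of_lt_of_le (by nlinarith) a1
  have hs0 : 0 < s := lt_of_lt_of_le (mul_pos (by linarith) hx) hs1
  have e : π / St t * s = π * s / St t := by ring
  rw [e, abs_le]
  have ht2 : 0 < t * x := by positivity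
  have ht3 : t * t * x ≤ 1 / 20 * t * x := by nlinarith
  constructor
  · have h3 : (1 - 3 * t) * x ≤ π * s / St t := by
      rw [le_div_iff₀ hS]
      have h4 : (1 - 3 * t) * x * St t ≤ (1 - 3 * t) * x * (π * (1 + 13 / 10 * t)) :=
        mul_le_mul_of_nonneg_left a2 (mul_nonneg (by linarith) hx.le)
      have h5 : π * ((1 - 13 / 10 * t) * x) ≤ π * s := mul_le_mul_of_nonneg_left hs1 hpi.le
      have h6 : (1 - 3 * t) * x * (π * (1 + 13 / 10 * t)) ≤ π * ((1 - 13 / 10 * t) * x) := by
        have h7 : (1 - 3 * t) * x * (π * (1 + 13 / 10 * t)) =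
          π * ((1 - 3 * t) * (1 + 13 / 10 * t) * x) := by ring
        rw [h7]
        apply mul_le_mul_of_nonneg_left _ hpi.le
        nlinarith
      linarith
    linarith
  · have h3 : π * s / St t ≤ (1 + 3 * t) * x := by
      rw [div_le_iff₀ hS]
      have h4 : (1 + 3 * t) * x * (π * (1 - 13 / 10 * t)) ≤ (1 + 3 * t) * x * St t :=
        mul_le_mul_of_nonneg_left a1 (mul_nonneg (by linarith) hx.le)
      have h5 : π * s ≤ π * ((1 + 13 / 10 * t) * x) := mul_le_mul_of_nonneg_left hs2 hpi.le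
      have h6 : π * ((1 + 13 / 10 * t) * x) ≤ (1 + 3 * t) * x * (π * (1 - 13 / 10 * t)) := by
        have h7 : (1 + 3 * t) * x * (π * (1 - 13 / 10 * t)) =
          π * ((1 + 3 * t) * (1 - 13 / 10 * t) * x) := by ring
        rw [h7]
        apply mul_le_mul_of_nonneg_left _ hpi.le
        nlinarith
      linarith
    linarith

theorem both (h : 0 < t) (h1 : t ≤ 1 / 20) {x s : ℝ} (hx : 0 < x) (hx2 : x ≤ π / 2)
    (hs1 : (1 - 13 / 10 * t) * x ≤ s) (hs2 : s ≤ (1 + 13 / 10 * t) * x) :
    sin (π / St t * s) ≤ (1 + 10 * t) * sin x ∧ sin x ≤ (1 + 10 * t) * sin (π / St t * s) := by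
  have hpi := pi_lt_d2
  have h2 := sin_est hx hx2 (scale_est h h1 hx hs1 hs2)
  have hsx : 0 < sin x := sin_pos_of_pos_of_lt_pi hx (by linarith [pi_pos])
  have h3 : 3 * t * (π / 2) * sin x ≤ 5 * t * sin x := by
    apply mul_le_mul_of_nonneg_right _ hsx.le
    nlinarith
  rw [abs_le] at h2
  have ht : 0 < t * sin x := by positivity
  constructor
  · nlinarith
  · have h4 : (1 - 5 * t) * sin x ≤ sin (π / St t * s) := by nlinarith
    have h5 : (1 + 10 * t) * ((1 - 5 * t) * sin x) ≤ (1 + 10 * t) * sin (π / St t * s) :=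
      mul_le_mul_of_nonneg_left h4 (by linarith)
    have h6 : t * (t * sin x) ≤ 1 / 20 * (t * sin x) := mul_le_mul_of_nonneg_right h1 ht.le
    nlinarith

end Pool.MP8e.Zero.ZDAux

namespace Pool.MP8e.Zero

open Pool.MP8e.C ZDAux

theorem zd_data {t : ℝ} (h : 0 < t) (h1 : t ≤ 1) (h20 : t ≤ 1 / 20) :
    ZData (CR t h h1).toQD (St t) (rB t) t (√t / 2) (1 + 10 * t) := by
  have hpi := pi_pos
  obtain ⟨s1, s2⟩ := St_bounds h h1
  have hS : 0 < St t := lt_of_lt_of_le (by nlinarith) s1
  set C := CR t h h1 with hC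
  have ek : C.k = 1 := rfl
  have eA : C.toQD.A = At t := rfl
  have eR : C.toQD.R = RI 1 := rfl
  have eℓ : C.toQD.ℓ = C.ℓ := rfl
  have epf : C.toQD.pf = C.pf := rfl
  have exf : C.xf = xt t := rfl
  have hsl : ∀ p, sl C.toQD p = ∫ u in (0:ℝ)..p, At t u := fun p => rfl
  have hst : 0 < √t := sqrt_pos.2 h
  have hsq : √t * √t = t := mul_self_sqrt h.le
  have hc : 0 < cos (arctan t) := cos_arctan_pos t
  have hs : 0 < sin (arctan t) := sin_arctan_pos h
  have htan : sin (arctan t) = t * cos (arctan t) := by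
    have := tan_arctan t
    rw [tan_eq_sin_div_cos, div_eq_iff hc.ne'] at this
    exact this
  have hℓ : C.ℓ < ptot := C.ℓ_lt
  have hpfa : pa < C.pf := C.pf_ge
  -- the squeeze constant
  have hden : (0.9 / 2 : ℝ) * √t ≤ √t / 2 - rB t * t := by
    unfold rB
    have : 19 / 20 * √t * t ≤ 19 / 20 * √t * (1 / 20) :=
      mul_le_mul_of_nonneg_left h20 (by positivity)
    linarith
  have hden0 : 0 < √t / 2 - rB t * t := lt_of_lt_of_le (by positivity) hden
  have he : rB t * t / (√t / 2 - rB t * t) ≤ 2.2 * t := by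
    rw [div_le_iff₀ hden0]
    have h2 : 2.2 * t * (0.9 / 2 * √t) ≤ 2.2 * t * (√t / 2 - rB t * t) :=
      mul_le_mul_of_nonneg_left hden (by positivity)
    have h3 : rB t * t = 19 / 20 * (√t * t) := by unfold rB; ring
    have h4 : 0 < √t * t := by positivity
    nlinarith
  -- both estimates of the radius
  have hr : ∀ p ∈ Ioc 0 C.toQD.ℓ, sin (π / St t * sl C.toQD p) ≤ (1 + 10 * t) * C.toQD.R p ∧
      C.toQD.R p ≤ (1 + 10 * t) * sin (π / St t * sl C.toQD p) := by
    intro p hp
    rw [eℓ] at hp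
    rw [hsl, eR]
    rcases le_total p (ptot - pa) with h2 | h2
    · obtain ⟨a1, a2⟩ := sl_north h h1 hp.1.le h2
      rw [RI_north h2]
      have hx := r_pos hp.1
      refine both h h20 hx (r_le p) ?_ a2
      have : 0 < t * r p := by positivity
      linarith
    · have h3 : pa ≤ p := pa_lt.le.trans h2
      obtain ⟨a1, a2⟩ := sl_south h h1 h3 (hp.2.trans hℓ.le)
      have hx : 0 < r (ptot - p) := r_pos (by linarith [hp.2])
      have hsp := St_split t p
      rw [RI_south h3]
      have e1 : sin (π / St t * ∫ u in (0:ℝ)..p, At t u) =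
          sin (π / St t * ∫ u in p..ptot, At t u) := by
        rw [← sin_pi_sub]
        congr 1
        have e2 : ∫ u in (0:ℝ)..p, At t u = St t - ∫ u in p..ptot, At t u := by linarith
        rw [e2]
        field_simp
        ring
      rw [e1]
      have hx' : 0 < t * r (ptot - p) := by positivity
      have h5 := both h h20 hx (r_le (ptot - p)) (s := ∫ u in p..ptot, At t u) (by linarith)
        (by linarith)
      have e3 : 1 - 1 * (1 - sin (r (ptot - p))) = sin (r (ptot - p)) := by ring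
      rw [e3]
      exact h5
  refine
    { κ_eq := ?_
      S_pos := hS
      B_pos := rB_pos h
      τ_pos := h
      hB := ?_
      hτ := ?_
      y_gt := by linarith
      y_lt := ?_
      hS := ?_
      Λ_ge := by linarith
      r1 := ?_
      r2 := ?_
      r3 := fun p hp => (hr p hp).1
      r4 := fun p hp => (hr p hp).2
      sq := ?_ }
  · show -C.k = -1
    rw [ek]
  · -- the radius of `B`
    have h2 := C.R_floor (θ := 0) ⟨le_rfl, by positivity⟩
    show rB t = RI 1 (βI C.k C.θf C.uB 0)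
    rw [ek] at h2 ⊢
    rw [h2]
    have e1 : C.ρf = rB t * sin (arctan t) := by
      unfold CI.ρf
      change (1 - 1 * (1 - rB t)) * cos (1 * tfR t) = _
      rw [one_mul, one_mul, cos_tfR]; ring
    have e2 : cos (1 * (0 - C.θf)) = sin (arctan t) := by
      change cos (1 * (0 - tfR t)) = _
      rw [one_mul, zero_sub, cos_neg, cos_tfR]
    rw [e1, e2]
    field_simp
  · show t = cos (tfR t) / sin (tfR t)
    rw [cos_tfR, sin_tfR, htan]
    field_simp
  · -- the squeeze stays in the flat disc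
    show rB t ^ 2 + (√t / 2) ^ 2 < RI 1 C.pf ^ 2
    have h2 : RI 1 C.pf = √(1 - xt t ^ 2) := by
      rw [RI_south hpfa.le]
      have e1 : ptot - C.pf = arccos (xt t) := by
        unfold CI.pf
        rw [exf]; ring
      rw [e1, r_small (arccos_le_q0 (xt_ge h1)), sin_arccos]
      ring
    have h3 : 0 ≤ 1 - xt t ^ 2 := by unfold xt x0; nlinarith
    rw [h2, sq_sqrt h3, rB_sq h, div_pow, sq_sqrt h.le]
    unfold xt x0
    nlinarith
  · intro p hp
    rw [hsl]
    have hp' : p ∈ Icc C.pf ptot := ⟨hp.1, (show p ≤ C.ℓ from hp.2).trans hℓ.le⟩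
    have h2 : ∫ u in p..ptot, At t u = (-RI 1 ptot) - (-RI 1 p) := by
      apply integral_eq_sub_of_hasDerivAt (f := fun u => -RI 1 u)
      · intro u hu
        rw [uIcc_of_le hp'.2] at hu
        have h4 := C.flat' (p := u) ⟨hp'.1.trans hu.1, hu.2⟩
        have h5 := h4.neg
        refine h5.congr_deriv ?_
        rw [ek]
        show -(-1 * At t u) = At t u
        ring
      · exact (At_cont t).intervalIntegrable _ _
    rw [RI_ptot] at h2
    have h3 := St_split t p
    show RI 1 p = St t - ∫ u in (0:ℝ)..p, At t u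
    linarith
  · rw [div_le_iff₀ hS]
    have h2 : (1 + 10 * t) * (π * (1 - 13 / 10 * t)) ≤ (1 + 10 * t) * St t :=
      mul_le_mul_of_nonneg_left s1 (by linarith)
    have h3 : π * 1 ≤ π * ((1 + 10 * t) * (1 - 13 / 10 * t)) := by
      apply mul_le_mul_of_nonneg_left _ hpi.le
      nlinarith
    have h4 : (1 + 10 * t) * (π * (1 - 13 / 10 * t)) =
      π * ((1 + 10 * t) * (1 - 13 / 10 * t)) := by ring
    linarith
  · have e : (1 + 10 * t) * (π / St t) = (1 + 10 * t) * π / St t := by ring
    rw [e, le_div_iff₀ hS, one_mul]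
    have h3 : 0 < π * t := by positivity
    nlinarith
  · -- the constant of the squeeze
    obtain ⟨e, he'⟩ : ∃ e, e = rB t * t / (√t / 2 - rB t * t) := ⟨_, rfl⟩
    rw [← he'] at he ⊢
    have he0 : 0 ≤ e := by
      rw [he']
      exact div_nonneg (mul_nonneg (rB_pos h).le h.le) hden0.le
    have h3 : 1 - 1 / (1 + 10 * t) = 10 * t / (1 + 10 * t) := by field_simp; ring
    rw [h3, le_div_iff₀ (by linarith)]
    have h4 : e + (1 + e) * t ≤ 3.5 * t := by nlinarith
    have h5 : (e + (1 + e) * t) * (1 + 10 * t) ≤ 3.5 * t * (1 + 10 * t) :=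
      mul_le_mul_of_nonneg_right h4 (by linarith)
    nlinarith

theorem zd_proof : Stmt_ZD := by
  intro ε hε
  refine ⟨min (1 / 20) (ε / 20), lt_min (by norm_num) (by positivity), fun t h h1 ht => ?_⟩
  have h20 : t ≤ 1 / 20 := ht.le.trans (min_le_left _ _)
  refine ⟨St t, rB t, t, √t / 2, 1 + 10 * t, zd_data h h1 h20, ?_⟩
  have h2 : Real.log (1 + 10 * t) ≤ 10 * t := by
    have := Real.log_le_sub_one_of_pos (show (0:ℝ) < 1 + 10 * t by linarith)
    linarith
  have h3 : t < ε / 20 := ht.trans_le (min_le_right _ _)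
  linarith

end Pool.MP8e.Zero
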