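import Pool.Agent.Work.MP_8e9dbb.Z.IfaceZ

/-!
# MP_8e9dbb_gt, block ZE1: infinitesimal distance of the sphere chart (helper41)
-/

open MeasureTheory Filter Topology Metric Set
open scoped ContDiff

namespace Pool.MP8e.Zero

namespace ZE1

/-- strict derivative of the norm -/
theorem norm_strict {z : ℂ} (hz : z ≠ 0) :
    HasStrictFDerivAt (fun w : ℂ => ‖w‖) (‖z‖⁻¹ • innerSL ℝ z) z := by
  have h1 : HasStrictFDerivAt (fun w : ℂ => ‖w‖ ^ 2) (2 • (innerSL ℝ z)) z :=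
    hasStrictFDerivAt_norm_sq z
  have hn : (0 : ℝ) < ‖z‖ := norm_pos_iff.2 hz
  have h2 := h1.sqrt (by positivity)
  have h3 : (fun w : ℂ => √(‖w‖ ^ 2)) = fun w : ℂ => ‖w‖ := by
    funext w
    exact Real.sqrt_sq (norm_nonneg w)
  rw [h3] at h2
  refine h2.congr_fderiv ?_
  rw [Real.sqrt_sq hn.le]
  ext v
  simp only [smul_apply, smul_eq_mul, nsmul_eq_mul]
  field_simp
  norm_num

/-- radial component of `v` -/
noncomputable def al (z v : ℂ) : ℝ := (v * (starRingEnd ℂ) z / ‖z‖).re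

/-- tangential component of `v` -/
noncomputable def be (z v : ℂ) : ℝ := (v * (starRingEnd ℂ) z / ‖z‖).im

theorem al_eq (z v : ℂ) : al z v = (v.re * z.re + v.im * z.im) / ‖z‖ := by
  unfold al
  rw [Complex.div_ofReal_re, Complex.mul_re, Complex.conj_re, Complex.conj_im]
  ring

theorem be_eq (z v : ℂ) : be z v = (v.im * z.re - v.re * z.im) / ‖z‖ := by
  unfold be
  rw [Complex.div_ofReal_im, Complex.mul_im, Complex.conj_re, Complex.conj_im]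
  ring

theorem nsq (z : ℂ) : ‖z‖ ^ 2 = z.re ^ 2 + z.im ^ 2 := by
  rw [← Complex.normSq_eq_norm_sq, Complex.normSq_apply]; ring

theorem al_be {z : ℂ} (hz : z ≠ 0) (v : ℂ) : al z v ^ 2 + be z v ^ 2 = v.re ^ 2 + v.im ^ 2 := by
  have hn : ‖z‖ ≠ 0 := norm_ne_zero_iff.2 hz
  rw [al_eq, be_eq]
  field_simp
  rw [nsq]
  ring

theorem inner_eq {z : ℂ} (v : ℂ) : (‖z‖⁻¹ • innerSL ℝ z) v = al z v := by
  rw [smul_apply, smul_eq_mul, innerSL_apply_apply, Complex.inner, al_eq]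
  simp only [Complex.mul_re, Complex.conj_re, Complex.conj_im]
  ring

variable (a : ℝ)

/-- `sin (a r) / r` -/
noncomputable def Sf (r : ℝ) : ℝ := Real.sin (a * r) / r

theorem Sf_strict {r : ℝ} (hr : r ≠ 0) : HasStrictDerivAt (Sf a)
    ((a * Real.cos (a * r) * r - Real.sin (a * r)) / r ^ 2) r := by
  have h1 : HasStrictDerivAt (fun r : ℝ => a * r) a r := by
    simpa using (hasStrictDerivAt_id r).const_mul a
  have h2 := h1.sin
  have h3 := h2.div (hasStrictDerivAt_id r) hr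
  refine (h3.congr_deriv ?_)
  simp only [id, mul_one]
  ring

theorem sinc_eq {w : ℂ} (ha : 0 < a) (hw : w ≠ 0) : a * Real.sinc (a * ‖w‖) = Sf a ‖w‖ := by
  have hn : ‖w‖ ≠ 0 := norm_ne_zero_iff.2 hw
  unfold Sf
  rw [Real.sinc_of_ne_zero (mul_ne_zero ha.ne' hn)]
  field_simp

/-- the three components -/
noncomputable def f0 (w : ℂ) : ℝ := Sf a ‖w‖ * w.re
noncomputable def f1 (w : ℂ) : ℝ := Sf a ‖w‖ * w.im
noncomputable def f2 (w : ℂ) : ℝ := -Real.cos (a * ‖w‖)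

/-- derivative coefficients -/
noncomputable def S' (r : ℝ) : ℝ := (a * Real.cos (a * r) * r - Real.sin (a * r)) / r ^ 2

theorem f0_strict {z : ℂ} (hz : z ≠ 0) : HasStrictFDerivAt (f0 a)
    (Sf a ‖z‖ • Complex.reCLM + z.re • (S' a ‖z‖ • (‖z‖⁻¹ • innerSL ℝ z))) z := by
  have hn : ‖z‖ ≠ 0 := norm_ne_zero_iff.2 hz
  have h1 := (Sf_strict a hn).comp_hasStrictFDerivAt z (norm_strict hz)
  exact h1.mul (Complex.reCLM.hasStrictFDerivAt (x := z))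

theorem f1_strict {z : ℂ} (hz : z ≠ 0) : HasStrictFDerivAt (f1 a)
    (Sf a ‖z‖ • Complex.imCLM + z.im • (S' a ‖z‖ • (‖z‖⁻¹ • innerSL ℝ z))) z := by
  have hn : ‖z‖ ≠ 0 := norm_ne_zero_iff.2 hz
  have h1 := (Sf_strict a hn).comp_hasStrictFDerivAt z (norm_strict hz)
  exact h1.mul (Complex.imCLM.hasStrictFDerivAt (x := z))

theorem f2_strict {z : ℂ} (hz : z ≠ 0) : HasStrictFDerivAt (f2 a)
    ((a * Real.sin (a * ‖z‖)) • (‖z‖⁻¹ • innerSL ℝ z)) z := by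
  have h1 : HasStrictDerivAt (fun r : ℝ => -Real.cos (a * r)) (a * Real.sin (a * ‖z‖)) ‖z‖ := by
    have h2 : HasStrictDerivAt (fun r : ℝ => a * r) a ‖z‖ := by
      simpa using (hasStrictDerivAt_id ‖z‖).const_mul a
    refine (h2.cos.neg).congr_deriv ?_
    ring
  exact h1.comp_hasStrictFDerivAt z (norm_strict hz)

/-- values of the derivatives -/
noncomputable def d0 (z v : ℂ) : ℝ := Sf a ‖z‖ * v.re + z.re * (S' a ‖z‖ * al z v)
noncomputable def d1 (z v : ℂ) : ℝ := Sf a ‖z‖ * v.im + z.im * (S' a ‖z‖ * al z v)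
noncomputable def d2 (z v : ℂ) : ℝ := a * Real.sin (a * ‖z‖) * al z v

theorem d_sq {z : ℂ} (hz : z ≠ 0) (v : ℂ) :
    d0 a z v ^ 2 + d1 a z v ^ 2 + d2 a z v ^ 2 =
      (a * al z v) ^ 2 + (Sf a ‖z‖ * be z v) ^ 2 := by
  have hn : ‖z‖ ≠ 0 := norm_ne_zero_iff.2 hz
  have e1 : z.re * v.re + z.im * v.im = ‖z‖ * al z v := by
    rw [al_eq]
    field_simp
  have e2 : ‖z‖ * S' a ‖z‖ + Sf a ‖z‖ = a * Real.cos (a * ‖z‖) := by
    unfold S' Sf
    field_simp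
    ring
  have e3 := al_be hz v
  have e4 := nsq z
  have e5 := Real.sin_sq_add_cos_sq (a * ‖z‖)
  have h1 : d0 a z v ^ 2 + d1 a z v ^ 2 =
      (al z v) ^ 2 * (‖z‖ * S' a ‖z‖ + Sf a ‖z‖) ^ 2 + (Sf a ‖z‖ * be z v) ^ 2 := by
    unfold d0 d1
    linear_combination (Sf a ‖z‖) ^ 2 * (-e3) + 2 * Sf a ‖z‖ * S' a ‖z‖ * al z v * e1 -
      (S' a ‖z‖ * al z v) ^ 2 * e4
  rw [h1, e2]
  unfold d2
  linear_combination (a * al z v) ^ 2 * e5

theorem En_eq {z : ℂ} (hz : z ≠ 0) (v : ℂ) :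
    En a z v = √(d0 a z v ^ 2 + d1 a z v ^ 2 + d2 a z v ^ 2) := by
  rw [d_sq a hz]
  rfl

theorem strict_ball {f : ℂ → ℝ} {f' : ℂ →L[ℝ] ℝ} {z : ℂ} (h : HasStrictFDerivAt f f' z) {ε : ℝ}
    (hε : 0 < ε) : ∃ δ > 0, ∀ z₁ ∈ ball z δ, ∀ z₂ ∈ ball z δ,
      |f z₁ - f z₂ - f' (z₁ - z₂)| ≤ ε * ‖z₁ - z₂‖ := by
  have h1 := (hasStrictFDerivAt_iff_isLittleO.1 h).def hε
  rw [Metric.eventually_nhds_iff] at h1
  obtain ⟨δ, hδ, h2⟩ := h1
  refine ⟨δ, hδ, fun z₁ hz₁ z₂ hz₂ => ?_⟩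
  have h3 := @h2 (z₁, z₂) (by
    rw [Prod.dist_eq]
    exact max_lt hz₁ hz₂)
  exact h3

theorem Ev_eq {w : ℂ} (ha : 0 < a) (hw : w ≠ 0) : Ev a w = !₂[f0 a w, f1 a w, f2 a w] := by
  unfold Ev f0 f1 f2
  rw [sinc_eq a ha hw]

/-- chord estimate -/
theorem chord_est {z : ℂ} (ha : 0 < a) (hz : z ≠ 0) {ε : ℝ} (hε : 0 < ε) :
    ∃ δ > 0, ∀ z₁ ∈ ball z δ, ∀ z₂ ∈ ball z δ,
      |dist (E a z₁ : E3) (E a z₂ : E3) - En a z (z₁ - z₂)| ≤ ε * ‖z₁ - z₂‖ := by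
  obtain ⟨δ0, hδ0, h0⟩ := strict_ball (f0_strict a hz) (show 0 < ε / 2 by positivity)
  obtain ⟨δ1, hδ1, h1⟩ := strict_ball (f1_strict a hz) (show 0 < ε / 2 by positivity)
  obtain ⟨δ2, hδ2, h2⟩ := strict_ball (f2_strict a hz) (show 0 < ε / 2 by positivity)
  have hn : 0 < ‖z‖ := norm_pos_iff.2 hz
  refine ⟨min (min δ0 δ1) (min δ2 ‖z‖), by positivity, fun z₁ hz₁ z₂ hz₂ => ?_⟩
  have sub0 : ∀ w ∈ ball z (min (min δ0 δ1) (min δ2 ‖z‖)), w ∈ ball z δ0 := fun w hw =>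
    ball_subset_ball ((min_le_left _ _).trans (min_le_left _ _)) hw
  have sub1 : ∀ w ∈ ball z (min (min δ0 δ1) (min δ2 ‖z‖)), w ∈ ball z δ1 := fun w hw =>
    ball_subset_ball ((min_le_left _ _).trans (min_le_right _ _)) hw
  have sub2 : ∀ w ∈ ball z (min (min δ0 δ1) (min δ2 ‖z‖)), w ∈ ball z δ2 := fun w hw =>
    ball_subset_ball ((min_le_right _ _).trans (min_le_left _ _)) hw
  have sub3 : ∀ w ∈ ball z (min (min δ0 δ1) (min δ2 ‖z‖)), w ≠ 0 := fun w hw h => by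
    have h3 := ball_subset_ball ((min_le_right _ _).trans (min_le_right _ _)) hw
    rw [h, mem_ball, dist_eq_norm, zero_sub, norm_neg] at h3
    exact lt_irrefl _ h3
  set v := z₁ - z₂ with hv
  have k0 : |f0 a z₁ - f0 a z₂ - d0 a z v| ≤ ε / 2 * ‖v‖ := by
    have := h0 z₁ (sub0 _ hz₁) z₂ (sub0 _ hz₂)
    rw [← hv] at this
    refine le_of_eq_of_le ?_ this
    congr 2
    unfold d0
    rw [add_apply, smul_apply, smul_apply, smul_apply, inner_eq]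
    rfl
  have k1 : |f1 a z₁ - f1 a z₂ - d1 a z v| ≤ ε / 2 * ‖v‖ := by
    have := h1 z₁ (sub1 _ hz₁) z₂ (sub1 _ hz₂)
    rw [← hv] at this
    refine le_of_eq_of_le ?_ this
    congr 2
    unfold d1
    rw [add_apply, smul_apply, smul_apply, smul_apply, inner_eq]
    rfl
  have k2 : |f2 a z₁ - f2 a z₂ - d2 a z v| ≤ ε / 2 * ‖v‖ := by
    have := h2 z₁ (sub2 _ hz₁) z₂ (sub2 _ hz₂)
    rw [← hv] at this
    refine le_of_eq_of_le ?_ this
    congr 2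
    unfold d2
    rw [smul_apply, inner_eq]
    rfl
  have e1 : dist (E a z₁ : E3) (E a z₂ : E3) = ‖Ev a z₁ - Ev a z₂‖ := dist_eq_norm _ _
  have e2 : En a z v = ‖(!₂[d0 a z v, d1 a z v, d2 a z v] : E3)‖ := by
    rw [En_eq a hz, EuclideanSpace.norm_eq]
    congr 1
    simp [Fin.sum_univ_three, Real.norm_eq_abs, sq_abs]
  rw [e1, e2]
  refine (abs_norm_sub_norm_le _ _).trans ?_
  rw [Ev_eq a ha (sub3 _ hz₁), Ev_eq a ha (sub3 _ hz₂), EuclideanSpace.norm_eq]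
  have hεv : 0 ≤ ε * ‖v‖ := by positivity
  refine Real.sqrt_le_iff.2 ⟨hεv, ?_⟩
  simp only [Fin.sum_univ_three, Real.norm_eq_abs, sq_abs]
  have s0 : (f0 a z₁ - f0 a z₂ - d0 a z v) ^ 2 ≤ (ε / 2 * ‖v‖) ^ 2 := by
    rw [← sq_abs]
    exact pow_le_pow_left₀ (abs_nonneg _) k0 2
  have s1 : (f1 a z₁ - f1 a z₂ - d1 a z v) ^ 2 ≤ (ε / 2 * ‖v‖) ^ 2 := by
    rw [← sq_abs]
    exact pow_le_pow_left₀ (abs_nonneg _) k1 2
  have s2 : (f2 a z₁ - f2 a z₂ - d2 a z v) ^ 2 ≤ (ε / 2 * ‖v‖) ^ 2 := by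
    rw [← sq_abs]
    exact pow_le_pow_left₀ (abs_nonneg _) k2 2
  have t : (f0 a z₁ - f0 a z₂ - d0 a z v) ^ 2 + (f1 a z₁ - f1 a z₂ - d1 a z v) ^ 2 +
      (f2 a z₁ - f2 a z₂ - d2 a z v) ^ 2 ≤ (ε * ‖v‖) ^ 2 := by
    nlinarith [sq_nonneg (ε * ‖v‖)]
  refine le_of_eq_of_le ?_ t
  simp

theorem En_le {z : ℂ} (ha : 0 < a) (hz : z ≠ 0) (v : ℂ) : En a z v ≤ a * ‖v‖ := by
  have hn : 0 < ‖z‖ := norm_pos_iff.2 hz
  have h1 : Sf a ‖z‖ ^ 2 ≤ a ^ 2 := by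
    have h2 : |Sf a ‖z‖| ≤ a := by
      unfold Sf
      rw [abs_div, abs_of_pos hn, div_le_iff₀ hn]
      exact (Real.abs_sin_le_abs (x := a * ‖z‖)).trans (by rw [abs_of_pos (by positivity)])
    rw [← sq_abs]
    exact pow_le_pow_left₀ (abs_nonneg _) h2 2
  have h3 := al_be hz v
  rw [← nsq] at h3
  rw [En_eq a hz, d_sq a hz]
  refine Real.sqrt_le_iff.2 ⟨by positivity, ?_⟩
  nlinarith [sq_nonneg (be z v)]

end ZE1

open ZE1 in
theorem ze1_proof : Stmt_ZE1 := by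
  intro a z ha hz _ ε hε
  obtain ⟨δ, hδ, h⟩ := chord_est a ha hz (show 0 < min (ε / 2) 1 by positivity)
  set K := a + 1 with hK
  have hK0 : 0 < K := by positivity
  -- choose η with K³ (2η)² ≤ ε / 2
  set η := min 1 (ε / (8 * K ^ 3)) with hη
  have hη0 : 0 < η := by positivity
  refine ⟨min δ η, by positivity, fun z₁ hz₁ z₂ hz₂ => ?_⟩
  have h1 := h z₁ (ball_subset_ball (min_le_left _ _) hz₁) z₂
    (ball_subset_ball (min_le_left _ _) hz₂)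
  have hv : ‖z₁ - z₂‖ ≤ 2 * η := by
    have k1 : dist z₁ z < η := lt_of_lt_of_le hz₁ (min_le_right _ _)
    have k2 : dist z₂ z < η := lt_of_lt_of_le hz₂ (min_le_right _ _)
    have k3 := dist_triangle_right z₁ z₂ z
    rw [← dist_eq_norm]
    linarith
  set v := z₁ - z₂ with hvd
  set C := dist (E a z₁ : E3) (E a z₂ : E3) with hC
  have hE : En a z v ≤ a * ‖v‖ := En_le a ha hz v
  have hC0 : 0 ≤ C := dist_nonneg
  have hCK : C ≤ K * ‖v‖ := by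
    have k1 := (abs_le.1 h1).2
    have k2 : min (ε / 2) 1 * ‖v‖ ≤ 1 * ‖v‖ :=
      mul_le_mul_of_nonneg_right (min_le_right _ _) (norm_nonneg _)
    rw [hK]
    linarith
  have hA0 := Sph1.ang_nonneg (E a z₁) (E a z₂)
  have hA1 := Sph1.chord_le (E a z₁) (E a z₂)
  have hA2 := Sph1.le_chord (E a z₁) (E a z₂)
  have hA3 := Sph1.chord_cube (E a z₁) (E a z₂)
  change |Sph1.ang (E a z₁) (E a z₂) - En a z v| ≤ ε * ‖v‖
  rw [← hC] at hA1 hA2 hA3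
  set A := Sph1.ang (E a z₁) (E a z₂) with hA
  have hA4 : A ≤ 2 * C := by
    have := Real.pi_le_four
    nlinarith
  have hA5 : A ^ 3 / 24 ≤ C ^ 3 := by
    have := pow_le_pow_left₀ hA0 hA4 3
    nlinarith [pow_nonneg hC0 3]
  have hC3 : C ^ 3 ≤ ε / 2 * ‖v‖ := by
    have k1 : C ^ 3 ≤ (K * ‖v‖) ^ 3 := pow_le_pow_left₀ hC0 hCK 3
    have k2 : (K * ‖v‖) ^ 3 = K ^ 3 * (‖v‖ * ‖v‖) * ‖v‖ := by ring
    have k3 : ‖v‖ * ‖v‖ ≤ 2 * η * (2 * 1) :=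
      mul_le_mul hv (hv.trans (mul_le_mul_of_nonneg_left (min_le_left _ _) (by norm_num)))
        (norm_nonneg _) (by positivity)
    have k4 : η ≤ ε / (8 * K ^ 3) := min_le_right _ _
    have k5 : K ^ 3 * (‖v‖ * ‖v‖) ≤ ε / 2 := by
      calc K ^ 3 * (‖v‖ * ‖v‖) ≤ K ^ 3 * (2 * η * (2 * 1)) :=
            mul_le_mul_of_nonneg_left k3 (by positivity)
        _ ≤ K ^ 3 * (2 * (ε / (8 * K ^ 3)) * (2 * 1)) := by
            refine mul_le_mul_of_nonneg_left ?_ (by positivity)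
            linarith
        _ = ε / 2 := by field_simp; ring
    rw [k2] at k1
    exact k1.trans (mul_le_mul_of_nonneg_right k5 (norm_nonneg _))
  have h2 : |C - En a z v| ≤ ε / 2 * ‖v‖ :=
    h1.trans (mul_le_mul_of_nonneg_right (min_le_left _ _) (norm_nonneg _))
  have h3 := abs_le.1 h2
  rw [abs_le]
  constructor <;> linarith [h3.1, h3.2]

end Pool.MP8e.Zero
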