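import Pool.Agent.Work.MP_8e9dbb.Z.IfaceZ

/-!
# Block ZE2: the sphere chart is a bijection of the disc with collapsed boundary
-/

open MeasureTheory Filter Topology Metric Set
open scoped ContDiff

namespace Pool.MP8e.Zero

lemma ze2_val (a : ℝ) (z : ℂ) : ((E a z : S2) : E3) = Ev a z := rfl

lemma ze2_cont (a : ℝ) : Continuous (E a) := by
  refine Continuous.subtype_mk ?_ _
  have hs := Real.continuous_sinc
  have h1 : Continuous fun z : ℂ => a * Real.sinc (a * ‖z‖) :=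
    continuous_const.mul (hs.comp (by fun_prop))
  have h3 : Continuous fun z : ℂ => (![a * Real.sinc (a * ‖z‖) * z.re,
      a * Real.sinc (a * ‖z‖) * z.im, -Real.cos (a * ‖z‖)] : Fin 3 → ℝ) := by
    refine continuous_pi fun i => ?_
    fin_cases i
    · exact h1.mul Complex.continuous_re
    · exact h1.mul Complex.continuous_im
    · show Continuous fun z : ℂ => -Real.cos (a * ‖z‖)
      fun_prop
  exact (PiLp.continuous_toLp 2 _).comp h3

lemma ze2_mul_sinc (x : ℝ) : x * Real.sinc x = Real.sin x := by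
  rcases eq_or_ne x 0 with h | h
  · rw [h]; simp
  · rw [Real.sinc_of_ne_zero h, ← mul_div_assoc, mul_div_cancel_left₀ _ h]

lemma ze2_surj {a : ℝ} (ha : 0 < a) (s : S2) : ∃ z : ℂ, a * ‖z‖ ≤ Real.pi ∧ E a z = s := by
  obtain ⟨s, hs⟩ := s
  have hs1 : ‖s‖ = 1 := by simpa using hs
  have hs2 : s 0 ^ 2 + s 1 ^ 2 + s 2 ^ 2 = 1 := by
    have := EuclideanSpace.norm_sq_eq s
    rw [hs1] at this
    simp only [Fin.sum_univ_three, Real.norm_eq_abs, sq_abs] at this
    linarith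
  set φ : ℝ := Real.arccos (-s 2) with hφ
  have hφ0 : 0 ≤ φ := Real.arccos_nonneg _
  have hφ1 : φ ≤ Real.pi := Real.arccos_le_pi _
  have hcos : Real.cos φ = -s 2 := Real.cos_arccos (by nlinarith [sq_nonneg (s 0), sq_nonneg (s 1)])
    (by nlinarith [sq_nonneg (s 0), sq_nonneg (s 1)])
  have hsin : Real.sin φ = √(1 - s 2 ^ 2) := by
    rw [hφ, Real.sin_arccos, neg_sq]
  set w : ℂ := ⟨s 0, s 1⟩ with hw
  have hwn : ‖w‖ = Real.sin φ := by
    rw [hsin, Complex.norm_def, Complex.normSq_apply]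
    congr 1
    simp only [hw]
    nlinarith
  have hc : Real.sin φ * Real.cos w.arg = s 0 := by
    rw [← hwn]; exact Complex.norm_mul_cos_arg w
  have hd : Real.sin φ * Real.sin w.arg = s 1 := by
    rw [← hwn]; exact Complex.norm_mul_sin_arg w
  set z : ℂ := ⟨φ / a * Real.cos w.arg, φ / a * Real.sin w.arg⟩ with hz
  have hzn : ‖z‖ = φ / a := by
    have h0 : 0 ≤ φ / a := by positivity
    rw [Complex.norm_def, Complex.normSq_apply, Real.sqrt_eq_iff_mul_self_eq (by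
      simp only [hz]; nlinarith [sq_nonneg (φ / a * Real.cos w.arg), sq_nonneg (φ / a * Real.sin w.arg)]) h0]
    simp only [hz]
    have := Real.sin_sq_add_cos_sq w.arg
    linear_combination (φ / a) ^ 2 * this
  have haz : a * ‖z‖ = φ := by rw [hzn]; field_simp
  refine ⟨z, haz.le.trans hφ1, ?_⟩
  apply Subtype.ext
  rw [ze2_val]
  have hms := ze2_mul_sinc φ
  ext i
  fin_cases i
  · show a * Real.sinc (a * ‖z‖) * z.re = s 0
    rw [haz, ← hc, ← hms]
    simp only [hz]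
    field_simp
  · show a * Real.sinc (a * ‖z‖) * z.im = s 1
    rw [haz, ← hd, ← hms]
    simp only [hz]
    field_simp
  · show -Real.cos (a * ‖z‖) = s 2
    rw [haz, hcos, neg_neg]

lemma ze2_sinc_pos {x : ℝ} (h0 : 0 ≤ x) (h1 : x < Real.pi) : 0 < Real.sinc x := by
  rcases h0.eq_or_lt with h | h
  · rw [← h, Real.sinc_zero]; exact one_pos
  · rw [Real.sinc_of_ne_zero h.ne']
    exact div_pos (Real.sin_pos_of_pos_of_lt_pi h h1) h

lemma ze2_inj {a : ℝ} (ha : 0 < a) {z z' : ℂ} (h1 : a * ‖z‖ ≤ Real.pi) (h2 : a * ‖z'‖ ≤ Real.pi)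
    (he : E a z = E a z') : z = z' ∨ (a * ‖z‖ = Real.pi ∧ a * ‖z'‖ = Real.pi) := by
  have hv : Ev a z = Ev a z' := congrArg Subtype.val he
  have e0 : a * Real.sinc (a * ‖z‖) * z.re = a * Real.sinc (a * ‖z'‖) * z'.re :=
    congrArg (fun v : E3 => v 0) hv
  have e1 : a * Real.sinc (a * ‖z‖) * z.im = a * Real.sinc (a * ‖z'‖) * z'.im :=
    congrArg (fun v : E3 => v 1) hv
  have e2 : -Real.cos (a * ‖z‖) = -Real.cos (a * ‖z'‖) := congrArg (fun v : E3 => v 2) hv
  have h3 : 0 ≤ a * ‖z‖ := by positivity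
  have h4 : 0 ≤ a * ‖z'‖ := by positivity
  have e3 : a * ‖z‖ = a * ‖z'‖ := Real.injOn_cos ⟨h3, h1⟩ ⟨h4, h2⟩ (neg_injective e2)
  rcases h1.lt_or_eq with h | h
  · left
    rw [← e3] at e0 e1
    have hp := mul_pos ha (ze2_sinc_pos h3 h)
    exact Complex.ext (mul_left_cancel₀ hp.ne' e0) (mul_left_cancel₀ hp.ne' e1)
  · right
    exact ⟨h, by rw [← e3, h]⟩

lemma ze2_bdry {a : ℝ} {z : ℂ} (h1 : a * ‖z‖ = Real.pi) : Ev a z = !₂[0, 0, 1] := by
  have hs : Real.sinc Real.pi = 0 := by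
    rw [Real.sinc_of_ne_zero Real.pi_pos.ne', Real.sin_pi, zero_div]
  unfold Ev
  rw [h1, hs, Real.cos_pi]
  norm_num

/-- **Block ZE2** -/
theorem ze2_proof : Stmt_ZE2 := by
  intro a ha
  refine ⟨ze2_cont a, ze2_surj ha, fun z z' h1 h2 he => ze2_inj ha h1 h2 he,
    fun z z' h1 h2 => ?_⟩
  apply Subtype.ext
  rw [ze2_val, ze2_val, ze2_bdry h1, ze2_bdry h2]

end Pool.MP8e.Zero
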