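import Pool.Agent.Work.MP_8e9dbb.Z.IfaceZ

/-!
# MP_8e9dbb_gt, block ZE3 (helper79): the shortest arc crosses the real axis
-/

open MeasureTheory Filter Topology Metric Set
open scoped ContDiff NNReal

namespace Pool.MP8e.Zero

namespace ZE3Aux

theorem sinc_pos {x : ℝ} (h0 : 0 ≤ x) (h1 : x < Real.pi) : 0 < Real.sinc x := by
  rcases h0.eq_or_lt with h | h
  · rw [← h]; simp
  · rw [Real.sinc_of_ne_zero h.ne']
    exact div_pos (Real.sin_pos_of_pos_of_lt_pi h h1) h

theorem mul_sinc (x : ℝ) : x * Real.sinc x = Real.sin x := by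
  rcases eq_or_ne x 0 with h | h
  · rw [h]; simp
  · rw [Real.sinc_of_ne_zero h]
    field_simp

theorem sinc_abs (x : ℝ) : Real.sinc |x| = Real.sinc x := by
  rcases abs_choice x with h | h
  · rw [h]
  · rw [h, Real.sinc_neg]

/-- the complex coordinate in the plane of the real axis -/
noncomputable def zt (a : ℝ) (z : ℂ) : ℂ :=
  (Real.cos (a * ‖z‖) : ℂ) + ((a * Real.sinc (a * ‖z‖) * z.re : ℝ) : ℂ) * Complex.I

theorem zt_re (a : ℝ) (z : ℂ) : (zt a z).re = Real.cos (a * ‖z‖) := by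
  rw [zt, Complex.add_re, Complex.ofReal_re, Complex.re_ofReal_mul, Complex.I_re, mul_zero,
    add_zero]

theorem zt_im (a : ℝ) (z : ℂ) : (zt a z).im = a * Real.sinc (a * ‖z‖) * z.re := by
  rw [zt, Complex.add_im, Complex.ofReal_im, Complex.im_ofReal_mul, Complex.I_im, mul_one,
    zero_add]

theorem zt_cont (a : ℝ) : Continuous (zt a) := by
  unfold zt
  have h1 : Continuous fun z : ℂ => a * ‖z‖ := continuous_const.mul continuous_norm
  refine (Complex.continuous_ofReal.comp (Real.continuous_cos.comp h1)).add ?_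
  refine (Complex.continuous_ofReal.comp ?_).mul continuous_const
  exact (continuous_const.mul (Real.continuous_sinc.comp h1)).mul Complex.continuous_re

theorem zt_real {a : ℝ} (ha : 0 < a) (x : ℝ) :
    zt a (x : ℂ) = (Real.cos (a * x) : ℂ) + ((Real.sin (a * x) : ℝ) : ℂ) * Complex.I := by
  have h1 : a * ‖(x : ℂ)‖ = |a * x| := by
    rw [Complex.norm_real, Real.norm_eq_abs, abs_mul, abs_of_pos ha]
  rw [zt, h1, Real.cos_abs, sinc_abs, Complex.ofReal_re, ← mul_sinc (a * x)]
  congr 3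
  ring

theorem Ev_real {a : ℝ} (ha : 0 < a) (φ : ℝ) :
    Ev a ((φ / a : ℝ) : ℂ) = !₂[Real.sin φ, 0, -Real.cos φ] := by
  have h1 : a * ‖((φ / a : ℝ) : ℂ)‖ = |φ| := by
    rw [Complex.norm_real, Real.norm_eq_abs, abs_div, abs_of_pos ha]
    field_simp
  have h2 : a * Real.sinc φ * (φ / a) = Real.sin φ := by
    rw [← mul_sinc φ]
    field_simp
  rw [Ev, h1, Real.cos_abs, sinc_abs, Complex.ofReal_re, Complex.ofReal_im, mul_zero, h2]

end ZE3Aux

open ZE3Aux

theorem ze3_proof : Stmt_ZE3 := by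
  intro a x₀ ha hx₀ hx₀' η hη
  have hpi := Real.pi_pos
  have hax : |a * x₀| < Real.pi := by rw [abs_mul, abs_of_pos ha]; exact hx₀'
  have hax' := abs_lt.1 hax
  set ζ₀ : ℂ := zt a (x₀ : ℂ) with hζ₀
  have hζ : ζ₀ = (Real.cos (a * x₀) : ℂ) + ((Real.sin (a * x₀) : ℝ) : ℂ) * Complex.I :=
    zt_real ha x₀
  have harg : Complex.arg ζ₀ = a * x₀ := by
    rw [hζ, Complex.ofReal_cos, Complex.ofReal_sin]
    exact Complex.arg_cos_add_sin_mul_I ⟨hax'.1, hax'.2.le⟩
  have hslit : ζ₀ ∈ Complex.slitPlane := by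
    rw [Complex.mem_slitPlane_iff_arg]
    refine ⟨by rw [harg]; exact hax'.2.ne, ?_⟩
    intro h
    have h1 := congrArg Complex.re h
    have h2 := congrArg Complex.im h
    rw [hζ₀, zt_real ha] at h1 h2
    simp only [Complex.add_re, Complex.ofReal_re, Complex.re_ofReal_mul, Complex.I_re, mul_zero,
      add_zero, Complex.zero_re, Complex.add_im, Complex.ofReal_im, Complex.im_ofReal_mul,
      Complex.I_im, mul_one, zero_add, Complex.zero_im] at h1 h2
    have h3 := Real.sin_sq_add_cos_sq (a * x₀)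
    rw [h1, h2] at h3
    norm_num at h3
  -- continuity of the argument
  obtain ⟨ρ₁, hρ₁, H1⟩ := Metric.continuousAt_iff.1 (Complex.continuousAt_arg hslit) (a * η)
    (by positivity)
  have hζn : 0 < ‖ζ₀‖ := norm_pos_iff.2 (Complex.slitPlane_ne_zero hslit)
  set ρ := min ρ₁ ‖ζ₀‖ with hρ
  have hρ0 : 0 < ρ := lt_min hρ₁ hζn
  obtain ⟨δ₁, hδ₁, H2⟩ := Metric.continuousAt_iff.1 ((zt_cont a).continuousAt (x := (x₀ : ℂ))) ρ hρ0
  have hgap : 0 < Real.pi / a - |x₀| := by
    rw [sub_pos, lt_div_iff₀ ha, mul_comm]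
    exact hx₀'
  refine ⟨min δ₁ (min η (Real.pi / a - |x₀|)), lt_min hδ₁ (lt_min hη hgap), ?_⟩
  intro z₁ hz₁ z₂ hz₂ hi₁ hi₂
  rw [mem_ball, lt_min_iff, lt_min_iff] at hz₁ hz₂
  have hS : ∀ z : ℂ, dist z (x₀ : ℂ) < Real.pi / a - |x₀| → 0 < a * Real.sinc (a * ‖z‖) := by
    intro z hz
    refine mul_pos ha (sinc_pos (by positivity) ?_)
    have h1 : ‖z‖ ≤ dist z (x₀ : ℂ) + |x₀| := by
      have h2 := norm_sub_norm_le z (x₀ : ℂ)
      rw [Complex.norm_real, Real.norm_eq_abs] at h2
      rw [dist_eq_norm]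
      linarith
    have h3 : ‖z‖ < Real.pi / a := by linarith
    rw [lt_div_iff₀ ha] at h3
    linarith
  have hS₁ := hS z₁ hz₁.2.2
  have hS₂ := hS z₂ hz₂.2.2
  set Q := a * Real.sinc (a * ‖z₁‖) * z₁.im with hQ
  set P := -(a * Real.sinc (a * ‖z₂‖) * z₂.im) with hP
  have hQ0 : 0 ≤ Q := mul_nonneg hS₁.le hi₁
  have hP0 : 0 ≤ P := by
    rw [hP, neg_nonneg]
    exact mul_nonpos_of_nonneg_of_nonpos hS₂.le hi₂
  rcases (add_nonneg hP0 hQ0).eq_or_lt with h0 | h0
  · -- both on the real axis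
    have hQz : Q = 0 := by linarith
    have him : z₁.im = 0 := by
      rcases mul_eq_zero.1 hQz with h | h
      · exact absurd h hS₁.ne'
      · exact h
    have hz : z₁ = ((z₁.re : ℝ) : ℂ) := by
      apply Complex.ext
      · simp
      · simp [him]
    refine ⟨z₁.re, ?_, ?_⟩
    · have h1 := hz₁.2.1
      rw [hz, dist_eq_norm, ← Complex.ofReal_sub, Complex.norm_real, Real.norm_eq_abs] at h1
      exact h1
    · rw [← hz, InnerProductGeometry.angle_self, zero_add]
      intro h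
      have h1 := norm_Ev a z₁
      rw [show Ev a z₁ = 0 from h, norm_zero] at h1
      exact zero_ne_one h1
  · set om : ℂ := (P : ℂ) * zt a z₁ + (Q : ℂ) * zt a z₂ with hom
    have hre : om.re = P * Real.cos (a * ‖z₁‖) + Q * Real.cos (a * ‖z₂‖) := by
      rw [hom, Complex.add_re, Complex.re_ofReal_mul, Complex.re_ofReal_mul, zt_re, zt_re]
    have him : om.im = P * (a * Real.sinc (a * ‖z₁‖) * z₁.re) +
        Q * (a * Real.sinc (a * ‖z₂‖) * z₂.re) := by
      rw [hom, Complex.add_im, Complex.im_ofReal_mul, Complex.im_ofReal_mul, zt_im, zt_im]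
    -- the normalised point
    set om' : ℂ := ((P + Q)⁻¹ : ℝ) * om with hom'
    have hball : om' ∈ ball ζ₀ ρ := by
      have h1 : zt a z₁ ∈ ball ζ₀ ρ := H2 hz₁.1
      have h2 : zt a z₂ ∈ ball ζ₀ ρ := H2 hz₂.1
      have h3 := (convex_ball ζ₀ ρ) h1 h2 (a := P / (P + Q)) (b := Q / (P + Q))
        (div_nonneg hP0 h0.le) (div_nonneg hQ0 h0.le) (by field_simp)
      have h4 : (P / (P + Q)) • zt a z₁ + (Q / (P + Q)) • zt a z₂ = om' := by
        rw [hom', hom, Complex.real_smul, Complex.real_smul]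
        push_cast
        ring
      rwa [h4] at h3
    have hom0 : om ≠ 0 := by
      intro h
      rw [hom', h, mul_zero, mem_ball, dist_zero_left] at hball
      exact absurd hball (not_lt.2 (min_le_right _ _))
    have hN : 0 < ‖om‖ := norm_pos_iff.2 hom0
    have hargom : Complex.arg om' = Complex.arg om := by
      rw [hom']
      exact Complex.arg_real_mul om (inv_pos.2 h0)
    have hnear : |Complex.arg om - a * x₀| < a * η := by
      have h1 := H1 (lt_of_lt_of_le hball (min_le_left _ _))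
      rwa [hargom, harg, Real.dist_eq] at h1
    refine ⟨Complex.arg om / a, ?_, ?_⟩
    · have h1 : Complex.arg om / a - x₀ = (Complex.arg om - a * x₀) / a := by field_simp
      rw [h1, abs_div, abs_of_pos ha, div_lt_iff₀ ha]
      linarith
    · have hw : Ev a ((Complex.arg om / a : ℝ) : ℂ) =
          (P / ‖om‖) • Ev a z₁ + (Q / ‖om‖) • Ev a z₂ := by
        rw [Ev_real ha, Complex.sin_arg, Complex.cos_arg hom0, hre, him]
        ext i
        fin_cases i
        · simp [Ev]
          field_simp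
        · simp [Ev]
          rw [show a * Real.sinc (a * ‖z₁‖) * z₁.im = Q from rfl,
            show a * Real.sinc (a * ‖z₂‖) * z₂.im = -P by rw [hP]; ring]
          field_simp
          ring
        · simp [Ev]
          field_simp
          ring
      refine InnerProductGeometry.angle_eq_angle_add_add_angle_add_of_mem_span ?_ ?_
      · intro h
        have h1 := norm_Ev a ((Complex.arg om / a : ℝ) : ℂ)
        rw [show Ev a ((Complex.arg om / a : ℝ) : ℂ) = 0 from h, norm_zero] at h1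
        exact zero_ne_one h1
      · rw [Submodule.mem_span_pair]
        refine ⟨⟨P / ‖om‖, by positivity⟩, ⟨Q / ‖om‖, by positivity⟩, ?_⟩
        rw [NNReal.smul_def, NNReal.smul_def]
        exact hw.symm

end Pool.MP8e.Zero
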