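import Pool.Agent.Work.MP_8e9dbb.Z.IfaceZ
import Pool.Agent.Work.MP_8e9dbb.A.OffAux

/-!
# Block ZG (helper81): Lipschitz off a finite set
-/

open MeasureTheory Filter Topology Metric Set
open scoped ContDiff

namespace Pool.MP8e.Zero

theorem zg_proof : Stmt_ZG := by
  intro Y Z _ _ _ mid F T Λ hΛ hF hT hloc x y
  classical
  refine lip_off_finset (Y := Y) (Z := Z) mid F hΛ hF hT.toFinset ?_ x y
  intro q hq
  refine hloc q ?_
  intro hqT
  have := hq q (hT.mem_toFinset.2 hqT)
  rw [dist_self] at this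
  exact lt_irrefl _ this

end Pool.MP8e.Zero
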