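import Pool.Agent.Work.MP_8e9dbb.Z.IfaceZ
import Pool.Agent.Work.MP_8e9dbb.A.Homeo

/-!
# Block ZH: homeomorphism from equal fibres
-/

open MeasureTheory Filter Topology Metric Set
open scoped ContDiff

namespace Pool.MP8e.Zero

open HomeoBlk

/-- the parametrisation of the closed strip by `Dom` -/
noncomputable def par (D : QD) (q : Dom) : ℝ × ℝ := ((q.1 : ℝ) * D.βh q.2, (q.2 : ℝ))

lemma par_mem (D : QD) (q : Dom) : par D q ∈ Kst D := by
  have h1 := q.1.2.1
  have h3 := q.1.2.2
  have h4 := beta_pos D (q.2 : ℝ)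
  exact ⟨mul_nonneg h1 h4.le, mul_le_of_le_one_left h4.le h3⟩

lemma cont_par (D : QD) : Continuous (par D) := by
  have hb := cont_bh D
  unfold par
  fun_prop

/-- **Block ZH** -/
theorem zh_proof : Stmt_ZH := by
  intro D X Y _ _ Pr hF H hH hsurj hfib
  have hc1 := cont_P1 D hF
  have hs1 := surj_P1 D hF
  have hP1 : ∀ q, P1 D Pr q = Pr (par D q) := fun q => rfl
  have hq : IsQuotientMap (P1 D Pr) := by
    haveI : CompactSpace Dom := inferInstance
    exact hc1.isClosedMap.isQuotientMap hc1 hs1
  set Q : Dom → Y := fun q => H (par D q) with hQ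
  have hQc : Continuous Q := hH.comp_continuous (cont_par D) (par_mem D)
  have hfib' : ∀ a b : Dom, Q a = Q b ↔ P1 D Pr a = P1 D Pr b := fun a b =>
    hfib _ (par_mem D a) _ (par_mem D b)
  -- the induced map
  set g : X → Dom := Function.surjInv hs1 with hg
  have hg1 : ∀ x, P1 D Pr (g x) = x := Function.surjInv_eq hs1
  set f : X → Y := fun x => Q (g x) with hf
  have hfPr : ∀ q ∈ Kst D, f (Pr q) = H q := by
    intro q hq
    refine (hfib _ (par_mem D _) q hq).2 ?_
    rw [← hP1, hg1]
  have hfc : f ∘ P1 D Pr = Q := by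
    funext a
    simp only [hf, Function.comp]
    exact (hfib' _ _).2 (hg1 _)
  have hfcont : Continuous f := by
    rw [hq.continuous_iff, hfc]
    exact hQc
  have hfi : Function.Injective f := by
    intro x y hxy
    have := (hfib' (g x) (g y)).1 hxy
    rw [hg1, hg1] at this
    exact this
  have hfs : Function.Surjective f := by
    intro s
    obtain ⟨q, hq, rfl⟩ := hsurj s
    exact ⟨Pr q, hfPr q hq⟩
  haveI : CompactSpace X := by
    have : IsCompact (Set.range (P1 D Pr)) := isCompact_range hc1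
    rw [hs1.range_eq] at this
    exact ⟨this⟩
  refine ⟨(show Continuous (Equiv.ofBijective f ⟨hfi, hfs⟩) from hfcont).homeoOfEquivCompactToT2,
    fun q hq => ?_⟩
  exact hfPr q hq

end Pool.MP8e.Zero
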