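import Pool.Agent.Work.MP_8e9dbb.Z.IfaceZ
import Pool.Agent.Work.MP_8e9dbb.B.Beta

/-!
# MP_8e9dbb_gt, `c0`: local estimate in the strip (block ZL1, helper64)
-/

open MeasureTheory Filter Topology Metric Set
open scoped ContDiff

namespace Pool.MP8e.Zero

namespace ZL1

/-! ### real lemma -/

/-- comparison of two distances with two norms -/
theorem real_cmp (Lam m η : ℝ) (hL : 1 ≤ Lam) (hm : 0 < m) (hη : 0 < η) :
    ∃ ε > 0, ∀ t d₁ d₂ N G : ℝ, 0 ≤ t → m * t ≤ N → G ≤ Lam * N → N ≤ Lam * G →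
      |d₁ - N| ≤ ε * t → |d₂ - G| ≤ ε * t →
      d₂ ≤ (Lam + η) * d₁ ∧ d₁ ≤ (Lam + η) * d₂ := by
  have hL0 : 0 < Lam := by linarith
  refine ⟨min (m / (2 * Lam)) (η * m / (2 * Lam * (Lam + 1))), by positivity, ?_⟩
  intro t d₁ d₂ N G ht hmN hG hN h1 h2
  set ε := min (m / (2 * Lam)) (η * m / (2 * Lam * (Lam + 1))) with hε
  have e0 : 0 < ε := by positivity
  have e1 : ε * (2 * Lam) ≤ m := by
    have := min_le_left (m / (2 * Lam)) (η * m / (2 * Lam * (Lam + 1)))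
    rw [← hε, le_div_iff₀ (by positivity)] at this
    exact this
  have e2 : ε * (2 * Lam * (Lam + 1)) ≤ η * m := by
    have := min_le_right (m / (2 * Lam)) (η * m / (2 * Lam * (Lam + 1)))
    rw [← hε, le_div_iff₀ (by positivity)] at this
    exact this
  obtain ⟨a1, a2⟩ := abs_le.mp h1
  obtain ⟨b1, b2⟩ := abs_le.mp h2
  have e1t : ε * (2 * Lam) * t ≤ m * t := mul_le_mul_of_nonneg_right e1 ht
  have e2t : ε * (2 * Lam * (Lam + 1)) * t ≤ η * m * t := mul_le_mul_of_nonneg_right e2 ht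
  have et : 0 ≤ ε * t := by positivity
  have hLet : ε * t ≤ Lam * (ε * t) := by nlinarith
  -- t ≤ 2 d₁ / m
  have c1 : m * t ≤ 2 * d₁ := by nlinarith
  -- m t ≤ Lam G
  have c2 : m * t ≤ 2 * (Lam * d₂) := by
    have : m * t ≤ Lam * G := by linarith
    have h3 : Lam * G ≤ Lam * (d₂ + ε * t) := mul_le_mul_of_nonneg_left (by linarith) hL0.le
    nlinarith
  have d1n : 0 ≤ d₁ := by
    have : 0 ≤ m * t := by positivity
    linarith
  constructor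
  · have h3 : d₂ ≤ Lam * d₁ + (Lam + 1) * (ε * t) := by
      have : Lam * N ≤ Lam * (d₁ + ε * t) := mul_le_mul_of_nonneg_left (by linarith) hL0.le
      nlinarith
    have h4 : (Lam + 1) * (ε * t) ≤ η * d₁ := by
      have h5 : Lam * ((Lam + 1) * (ε * t)) * 2 ≤ η * (2 * d₁) := by
        calc Lam * ((Lam + 1) * (ε * t)) * 2 = ε * (2 * Lam * (Lam + 1)) * t := by ring
          _ ≤ η * m * t := e2t
          _ = η * (m * t) := by ring
          _ ≤ η * (2 * d₁) := mul_le_mul_of_nonneg_left c1 hη.le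
      have h6 : (Lam + 1) * (ε * t) ≤ Lam * ((Lam + 1) * (ε * t)) :=
        le_mul_of_one_le_left (by positivity) hL
      linarith
    linarith
  · have h3 : d₁ ≤ Lam * d₂ + (Lam + 1) * (ε * t) := by
      have : Lam * G ≤ Lam * (d₂ + ε * t) := mul_le_mul_of_nonneg_left (by linarith) hL0.le
      nlinarith
    have h4 : (Lam + 1) * (ε * t) ≤ η * d₂ := by
      have h5 : Lam * ((Lam + 1) * (ε * t)) * 2 ≤ Lam * (η * (2 * d₂)) := by
        calc Lam * ((Lam + 1) * (ε * t)) * 2 = ε * (2 * Lam * (Lam + 1)) * t := by ring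
          _ ≤ η * m * t := e2t
          _ = η * (m * t) := by ring
          _ ≤ η * (2 * (Lam * d₂)) := mul_le_mul_of_nonneg_left c2 hη.le
          _ = Lam * (η * (2 * d₂)) := by ring
      have h6 : Lam * ((Lam + 1) * (ε * t) * 2) ≤ Lam * (η * (2 * d₂)) := by
        linarith [h5]
      have h7 := le_of_mul_le_mul_left h6 hL0
      linarith
    linarith

/-! ### the norm `En` -/

theorem sqrt_eq_norm (x y : ℝ) : √(x ^ 2 + y ^ 2) = ‖(⟨x, y⟩ : ℂ)‖ :=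
  (Complex.norm_eq_sqrt_sq_add_sq ⟨x, y⟩).symm

theorem En_eq (a : ℝ) (z v : ℂ) : En a z v =
    ‖(⟨a * (v * (starRingEnd ℂ) z / ‖z‖).re,
      Real.sin (a * ‖z‖) / ‖z‖ * (v * (starRingEnd ℂ) z / ‖z‖).im⟩ : ℂ)‖ := by
  unfold En
  exact sqrt_eq_norm _ _

/-- `En` is Lipschitz -/
theorem En_lip (a : ℝ) (z : ℂ) (ha : 0 < a) (hz : z ≠ 0) (v v' : ℂ) :
    |En a z v - En a z v'| ≤ (a + |Real.sin (a * ‖z‖) / ‖z‖|) * ‖v - v'‖ := by
  rw [En_eq, En_eq]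
  refine (abs_norm_sub_norm_le _ _).trans ?_
  set c := Real.sin (a * ‖z‖) / ‖z‖ with hc
  set w := (v - v') * (starRingEnd ℂ) z / ‖z‖ with hw
  have hzn : (‖z‖ : ℂ) ≠ 0 := by
    rw [Ne, Complex.ofReal_eq_zero, norm_eq_zero]; exact hz
  have hwn : ‖w‖ = ‖v - v'‖ := by
    rw [hw, norm_div, norm_mul, Complex.norm_real, norm_norm, RCLike.norm_conj,
      mul_div_assoc, div_self (norm_ne_zero_iff.mpr hz), mul_one]
  have h1 : ((⟨a * (v * (starRingEnd ℂ) z / ‖z‖).re, c * (v * (starRingEnd ℂ) z / ‖z‖).im⟩ : ℂ) -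
      ⟨a * (v' * (starRingEnd ℂ) z / ‖z‖).re, c * (v' * (starRingEnd ℂ) z / ‖z‖).im⟩) =
      ⟨a * w.re, c * w.im⟩ := by
    have h2 : w = v * (starRingEnd ℂ) z / ‖z‖ - v' * (starRingEnd ℂ) z / ‖z‖ := by
      rw [hw]; ring
    rw [h2]
    apply Complex.ext
    · simp only [Complex.sub_re]; ring
    · simp only [Complex.sub_im]; ring
  rw [h1]
  have h3 := Complex.norm_le_abs_re_add_abs_im (⟨a * w.re, c * w.im⟩ : ℂ)
  refine h3.trans ?_
  have h4 : |a * w.re| ≤ a * ‖w‖ := by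
    rw [abs_mul, abs_of_pos ha]
    exact mul_le_mul_of_nonneg_left (Complex.abs_re_le_norm w) ha.le
  have h5 : |c * w.im| ≤ |c| * ‖w‖ := by
    rw [abs_mul]
    exact mul_le_mul_of_nonneg_left (Complex.abs_im_le_norm w) (abs_nonneg _)
  calc |a * w.re| + |c * w.im| ≤ a * ‖w‖ + |c| * ‖w‖ := add_le_add h4 h5
    _ = (a + |c|) * ‖v - v'‖ := by rw [← hwn]; ring

/-! ### the derivative of `pol` -/

theorem sl_strict (D : QD) (p : ℝ) : HasStrictDerivAt (sl D) (D.A p) p :=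
  D.smA.continuous.integral_hasStrictDerivAt 0 p

theorem pol_strict (D : QD) (S : ℝ) (q : ℝ × ℝ) : ∃ L : ℝ × ℝ →L[ℝ] ℂ,
    HasStrictFDerivAt (pol D S) L q ∧ ∀ u : ℝ × ℝ, L u =
      (((-(D.A q.1 * u.1) : ℝ) : ℂ) + (((S - sl D q.1) * u.2 : ℝ) : ℂ) * Complex.I) *
        Complex.exp ((q.2 : ℝ) * Complex.I) := by
  have h1 : HasStrictFDerivAt (fun x : ℝ × ℝ => sl D x.1)
      (D.A q.1 • ContinuousLinearMap.fst ℝ ℝ ℝ) q :=
    (sl_strict D q.1).comp_hasStrictFDerivAt q hasStrictFDerivAt_fst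
  have h2 : HasStrictFDerivAt (fun x : ℝ × ℝ => S - sl D x.1)
      (-(D.A q.1 • ContinuousLinearMap.fst ℝ ℝ ℝ)) q := h1.const_sub S
  have h3 : HasStrictFDerivAt (fun x : ℝ × ℝ => ((S - sl D x.1 : ℝ) : ℂ))
      (Complex.ofRealCLM.comp (-(D.A q.1 • ContinuousLinearMap.fst ℝ ℝ ℝ))) q :=
    (Complex.ofRealCLM.hasStrictFDerivAt).comp q h2
  have h4 : HasStrictFDerivAt (fun x : ℝ × ℝ => ((x.2 : ℝ) : ℂ))
      (Complex.ofRealCLM.comp (ContinuousLinearMap.snd ℝ ℝ ℝ)) q :=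
    (Complex.ofRealCLM.hasStrictFDerivAt).comp q hasStrictFDerivAt_snd
  have h5 := (h4.mul_const Complex.I).cexp
  have h6 := h3.mul h5
  refine ⟨_, h6, fun u => ?_⟩
  simp
  ring

theorem strict_eps {f : ℝ × ℝ → ℂ} {f' : ℝ × ℝ →L[ℝ] ℂ} {q : ℝ × ℝ}
    (h : HasStrictFDerivAt f f' q) (ε : ℝ) (hε : 0 < ε) : ∃ δ > 0, ∀ x y : ℝ × ℝ,
      dist x q < δ → dist y q < δ → ‖f x - f y - f' (x - y)‖ ≤ ε * ‖x - y‖ := by
  have h1 := h.isLittleO.def hε
  rw [Metric.eventually_nhds_iff] at h1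
  obtain ⟨δ, hδ, h2⟩ := h1
  refine ⟨δ, hδ, fun x y hx hy => ?_⟩
  have h3 := h2 (y := (x, y)) (by rw [Prod.dist_eq]; exact max_lt hx hy)
  exact h3

/-- chart estimate composed with a strictly differentiable map -/
theorem chart_comp (hZE1 : Stmt_ZE1) {f : ℝ × ℝ → ℂ} {L : ℝ × ℝ →L[ℝ] ℂ} {q : ℝ × ℝ}
    (h : HasStrictFDerivAt f L q) (a : ℝ) (ha : 0 < a) (hz : f q ≠ 0)
    (hpi : a * ‖f q‖ < Real.pi) (ε : ℝ) (hε : 0 < ε) : ∃ δ > 0, ∀ x y : ℝ × ℝ,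
      dist x q < δ → dist y q < δ →
      |InnerProductGeometry.angle (E a (f x) : E3) (E a (f y) : E3) - En a (f q) (L (x - y))| ≤
        ε * ‖x - y‖ := by
  set C := a + |Real.sin (a * ‖f q‖) / ‖f q‖| with hC
  have hC0 : 0 < C := by
    have := abs_nonneg (Real.sin (a * ‖f q‖) / ‖f q‖)
    linarith
  have hK : 0 < ‖L‖ + 1 := by positivity
  obtain ⟨δ₀, hδ₀, h0⟩ := hZE1 a (f q) ha hz hpi (ε / (2 * (‖L‖ + 1))) (by positivity)
  obtain ⟨δ₁, hδ₁, h1⟩ := strict_eps h (min 1 (ε / (2 * C))) (by positivity)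
  have hcont : ContinuousAt f q := h.hasFDerivAt.continuousAt
  obtain ⟨δ₂, hδ₂, h2⟩ := Metric.continuousAt_iff.mp hcont δ₀ hδ₀
  refine ⟨min δ₁ δ₂, by positivity, fun x y hx hy => ?_⟩
  have k0 := h0 (f x) (h2 (hx.trans_le (min_le_right _ _))) (f y)
    (h2 (hy.trans_le (min_le_right _ _)))
  have k1 := h1 x y (hx.trans_le (min_le_left _ _)) (hy.trans_le (min_le_left _ _))
  have k2 := En_lip a (f q) ha hz (f x - f y) (L (x - y))
  rw [← hC] at k2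
  have n1 : ‖f x - f y - L (x - y)‖ ≤ 1 * ‖x - y‖ :=
    k1.trans (mul_le_mul_of_nonneg_right (min_le_left _ _) (norm_nonneg _))
  have n2 : ‖f x - f y - L (x - y)‖ ≤ ε / (2 * C) * ‖x - y‖ :=
    k1.trans (mul_le_mul_of_nonneg_right (min_le_right _ _) (norm_nonneg _))
  have n3 : ‖f x - f y‖ ≤ (‖L‖ + 1) * ‖x - y‖ := by
    calc ‖f x - f y‖ = ‖(f x - f y - L (x - y)) + L (x - y)‖ := by rw [sub_add_cancel]
      _ ≤ ‖f x - f y - L (x - y)‖ + ‖L (x - y)‖ := norm_add_le _ _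
      _ ≤ 1 * ‖x - y‖ + ‖L‖ * ‖x - y‖ := add_le_add n1 (L.le_opNorm _)
      _ = (‖L‖ + 1) * ‖x - y‖ := by ring
  have n4 : ε / (2 * (‖L‖ + 1)) * ‖f x - f y‖ ≤ ε / 2 * ‖x - y‖ := by
    calc ε / (2 * (‖L‖ + 1)) * ‖f x - f y‖
        ≤ ε / (2 * (‖L‖ + 1)) * ((‖L‖ + 1) * ‖x - y‖) :=
          mul_le_mul_of_nonneg_left n3 (by positivity)
      _ = ε / 2 * ‖x - y‖ := by field_simp
  have n5 : C * ‖f x - f y - L (x - y)‖ ≤ ε / 2 * ‖x - y‖ := by
    calc C * ‖f x - f y - L (x - y)‖ ≤ C * (ε / (2 * C) * ‖x - y‖) :=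
          mul_le_mul_of_nonneg_left n2 hC0.le
      _ = ε / 2 * ‖x - y‖ := by field_simp
  calc |InnerProductGeometry.angle (E a (f x) : E3) (E a (f y) : E3) - En a (f q) (L (x - y))|
      = |(InnerProductGeometry.angle (E a (f x) : E3) (E a (f y) : E3) -
          En a (f q) (f x - f y)) + (En a (f q) (f x - f y) - En a (f q) (L (x - y)))| := by
        congr 1; ring
    _ ≤ _ + _ := abs_add_le _ _
    _ ≤ ε / 2 * ‖x - y‖ + ε / 2 * ‖x - y‖ := add_le_add (k0.trans n4) (k2.trans n5)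
    _ = ε * ‖x - y‖ := by ring

/-- `En` of the derivative of `pol` -/
theorem En_pol (a A ρ θ : ℝ) (hρ : 0 < ρ) (u : ℝ × ℝ) :
    En a ((ρ : ℂ) * Complex.exp ((θ : ℝ) * Complex.I))
      ((((-(A * u.1) : ℝ) : ℂ) + ((ρ * u.2 : ℝ) : ℂ) * Complex.I) *
        Complex.exp ((θ : ℝ) * Complex.I)) =
      √((a * (A * u.1)) ^ 2 + (Real.sin (a * ρ) * u.2) ^ 2) := by
  have hn : ‖(ρ : ℂ) * Complex.exp ((θ : ℝ) * Complex.I)‖ = ρ := by
    rw [norm_mul, Complex.norm_real, Complex.norm_exp_ofReal_mul_I, mul_one, Real.norm_eq_abs,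
      abs_of_pos hρ]
  have hconj : Complex.exp ((θ : ℝ) * Complex.I) *
      (starRingEnd ℂ) (Complex.exp ((θ : ℝ) * Complex.I)) = 1 := by
    rw [Complex.mul_conj, Complex.normSq_eq_norm_sq, Complex.norm_exp_ofReal_mul_I]
    simp
  have hρc : (ρ : ℂ) ≠ 0 := by exact_mod_cast hρ.ne'
  have hv : ((((-(A * u.1) : ℝ) : ℂ) + ((ρ * u.2 : ℝ) : ℂ) * Complex.I) *
        Complex.exp ((θ : ℝ) * Complex.I)) *
      (starRingEnd ℂ) ((ρ : ℂ) * Complex.exp ((θ : ℝ) * Complex.I)) /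
        ((ρ : ℝ) : ℂ) = ((-(A * u.1) : ℝ) : ℂ) + ((ρ * u.2 : ℝ) : ℂ) * Complex.I := by
    rw [map_mul, Complex.conj_ofReal, div_eq_iff hρc]
    calc _ = (((-(A * u.1) : ℝ) : ℂ) + ((ρ * u.2 : ℝ) : ℂ) * Complex.I) * (ρ : ℂ) *
          (Complex.exp ((θ : ℝ) * Complex.I) *
            (starRingEnd ℂ) (Complex.exp ((θ : ℝ) * Complex.I))) := by ring
      _ = _ := by rw [hconj, mul_one]
  rw [En, hn, hv]
  have hre : (((-(A * u.1) : ℝ) : ℂ) + ((ρ * u.2 : ℝ) : ℂ) * Complex.I).re = -(A * u.1) := by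
    simp
  have him : (((-(A * u.1) : ℝ) : ℂ) + ((ρ * u.2 : ℝ) : ℂ) * Complex.I).im = ρ * u.2 := by
    simp
  rw [hre, him]
  congr 1
  have : Real.sin (a * ρ) / ρ * (ρ * u.2) = Real.sin (a * ρ) * u.2 := by
    field_simp
  rw [this]
  ring

theorem Sq_id (B τ y : ℝ) (z : ℂ) (h : B ^ 2 + y ^ 2 < ‖z‖ ^ 2) (hτ : 0 < τ) :
    Sq B τ y z = z := by
  have h1 : ‖z‖ ^ 2 = z.re ^ 2 + z.im ^ 2 := by
    rw [← Complex.normSq_eq_norm_sq, Complex.normSq_apply]; ring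
  rw [h1] at h
  have h2 : B ≤ |z.re| ∨ y ≤ |z.im| := by
    by_contra hcon
    push Not at hcon
    obtain ⟨c1, c2⟩ := hcon
    have : z.re ^ 2 < B ^ 2 := by
      rw [← sq_abs]; exact pow_lt_pow_left₀ c1 (abs_nonneg _) two_ne_zero
    have : z.im ^ 2 < y ^ 2 := by
      rw [← sq_abs z.im]; exact pow_lt_pow_left₀ c2 (abs_nonneg _) two_ne_zero
    linarith
  have key : ∀ Y : ℝ, (B ≤ |z.re| ∨ y ≤ Y) → sq1 B τ y z.re Y = Y := by
    intro Y hY
    rw [sq1]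
    rcases hY with hY | hY
    · have : fr B τ z.re = 0 := by
        rw [fr, max_eq_left]
        exact mul_nonpos_of_nonpos_of_nonneg (by linarith) hτ.le
      rw [this]; simp
    · rw [max_eq_left (by linarith)]
      simp
  rw [Sq]
  split_ifs with h3
  · rw [key z.im (by rw [abs_of_nonneg h3] at h2; exact h2)]
  · push Not at h3
    rw [key (-z.im) (by rw [abs_of_neg h3] at h2; exact h2), neg_neg]

/-! ### elementary facts about the data -/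

theorem fold_mem (θ : ℝ) : fold θ ∈ Icc 0 (Real.pi / 2) :=
  ⟨Real.arccos_nonneg _, Real.arccos_le_pi_div_two.mpr (abs_nonneg _)⟩

theorem pf_lt_ell (D : QD) : D.pf < D.ℓ := by
  have h := D.β_mem 0 ⟨le_refl _, by positivity⟩
  linarith [h.1, h.2]

theorem pf_pos (D : QD) : 0 < D.pf := D.e₀_pos.trans D.e₀_lt

theorem sl_mono (D : QD) {p p' : ℝ} (h0 : 0 ≤ p) (h : p ≤ p') (h1 : p' ≤ D.ℓ) :
    sl D p ≤ sl D p' := by
  have hi : ∀ a b : ℝ, IntervalIntegrable D.A volume a b := fun a b =>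
    D.smA.continuous.intervalIntegrable a b
  have h2 : sl D p' - sl D p = ∫ u in p..p', D.A u := by
    unfold sl
    exact intervalIntegral.integral_interval_sub_left (hi _ _) (hi _ _)
  have h3 : 0 ≤ ∫ u in p..p', D.A u := by
    apply intervalIntegral.integral_nonneg h
    intro u hu
    exact (D.posA u ⟨h0.trans hu.1, hu.2.trans h1⟩).le
  linarith

theorem sl_pos (D : QD) {p : ℝ} (h0 : 0 < p) (h1 : p ≤ D.ℓ) : 0 < sl D p := by
  unfold sl
  apply intervalIntegral.intervalIntegral_pos_of_pos_on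
    (D.smA.continuous.intervalIntegrable 0 p) _ h0
  intro u hu
  exact D.posA u ⟨hu.1.le, hu.2.le.trans h1⟩

theorem norm_pol (D : QD) (S : ℝ) (q : ℝ × ℝ) (h : 0 ≤ S - sl D q.1) :
    ‖pol D S q‖ = S - sl D q.1 := by
  rw [pol, norm_mul, Complex.norm_real, Complex.norm_exp_ofReal_mul_I, mul_one,
    Real.norm_eq_abs, abs_of_nonneg h]

theorem nm_lower (D : QD) (p : ℝ) (u : ℝ × ℝ) :
    min (D.A p) (D.R p) * ‖u‖ ≤ D.nm p u := by
  have h1 : D.A p * |u.1| ≤ D.nm p u := by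
    rw [QD.nm]
    apply Real.le_sqrt_of_sq_le
    have : (D.A p * |u.1|) ^ 2 = (D.A p * u.1) ^ 2 := by rw [mul_pow, sq_abs, mul_pow]
    rw [this]
    linarith [sq_nonneg (D.R p * u.2)]
  have h2 : D.R p * |u.2| ≤ D.nm p u := by
    rw [QD.nm]
    apply Real.le_sqrt_of_sq_le
    have : (D.R p * |u.2|) ^ 2 = (D.R p * u.2) ^ 2 := by rw [mul_pow, sq_abs, mul_pow]
    rw [this]
    linarith [sq_nonneg (D.A p * u.1)]
  rw [Prod.norm_def]
  rcases le_total ‖u.1‖ ‖u.2‖ with h | h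
  · rw [max_eq_right h]
    exact (mul_le_mul_of_nonneg_right (min_le_right _ _) (norm_nonneg _)).trans h2
  · rw [max_eq_left h]
    exact (mul_le_mul_of_nonneg_right (min_le_left _ _) (norm_nonneg _)).trans h1

/-- comparison of two diagonal norms -/
theorem diag_cmp (Lam a b c d : ℝ) (hL : 0 ≤ Lam) (u : ℝ × ℝ) (h1 : |a| ≤ Lam * |c|)
    (h2 : |b| ≤ Lam * |d|) :
    √((a * u.1) ^ 2 + (b * u.2) ^ 2) ≤ Lam * √((c * u.1) ^ 2 + (d * u.2) ^ 2) := by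
  rw [Real.sqrt_le_left (by positivity), mul_pow Lam, Real.sq_sqrt (by positivity)]
  have e1 : a ^ 2 ≤ (Lam * c) ^ 2 := by
    apply sq_le_sq.mpr
    rw [abs_mul, abs_of_nonneg hL]; exact h1
  have e2 : b ^ 2 ≤ (Lam * d) ^ 2 := by
    apply sq_le_sq.mpr
    rw [abs_mul, abs_of_nonneg hL]; exact h2
  have e3 := mul_le_mul_of_nonneg_right e1 (sq_nonneg u.1)
  have e4 := mul_le_mul_of_nonneg_right e2 (sq_nonneg u.2)
  calc (a * u.1) ^ 2 + (b * u.2) ^ 2 = a ^ 2 * u.1 ^ 2 + b ^ 2 * u.2 ^ 2 := by ring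
    _ ≤ (Lam * c) ^ 2 * u.1 ^ 2 + (Lam * d) ^ 2 * u.2 ^ 2 := add_le_add e3 e4
    _ = Lam ^ 2 * ((c * u.1) ^ 2 + (d * u.2) ^ 2) := by ring

end ZL1

open ZL1 in
/-- **Block ZL1** -/
theorem zl1_proof (hZE1 : Stmt_ZE1) : Stmt_ZL1 := by
  intro D S B τ y Lam hZ X _ Pr hF F hFP q hq hqp
  have hpi := Real.pi_pos
  have hS := hZ.S_pos
  have hL1 := hZ.Λ_ge
  have hL0 : 0 < Lam := by linarith
  obtain ⟨-, -, hβc, hβm, -, -⟩ := beta_proof D
  have hpl := pf_lt_ell D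
  have hp0 := pf_pos D
  have hq0 : 0 < q.1 := hq.1
  have hql : q.1 ≤ D.ℓ := hqp.trans hpl.le
  set a := Real.pi / S with ha
  have ha0 : 0 < a := by positivity
  have haS : a * S = Real.pi := by rw [ha]; field_simp
  -- the distance to the virtual pole
  have hsp : sl D q.1 ≤ sl D D.pf := sl_mono D hq0.le hqp hpl.le
  have hRp : D.R D.pf = S - sl D D.pf := hZ.hS _ ⟨le_refl _, hpl.le⟩
  have hRpos : 0 < D.R D.pf := D.posR _ ⟨hp0, hpl.le⟩
  set ρ := S - sl D q.1 with hρ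
  have hρp : D.R D.pf ≤ ρ := by linarith
  have hρ0 : 0 < ρ := by linarith
  have hslp : 0 < sl D q.1 := sl_pos D hq0 hql
  have hnz : ‖pol D S q‖ = ρ := norm_pol D S q hρ0.le
  have hz0 : pol D S q ≠ 0 := by
    rw [← norm_pos_iff, hnz]; exact hρ0
  have haz : a * ‖pol D S q‖ < Real.pi := by
    rw [hnz, hρ]
    have : a * (S - sl D q.1) = Real.pi - a * sl D q.1 := by rw [mul_sub, haS]
    rw [this]
    have : 0 < a * sl D q.1 := by positivity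
    linarith
  have hsin : Real.sin (a * ρ) = Real.sin (a * sl D q.1) := by
    rw [hρ, mul_sub, haS, Real.sin_pi_sub]
  have hA0 : 0 < D.A q.1 := D.posA _ ⟨hq0.le, hql⟩
  have hR0 : 0 < D.R q.1 := D.posR _ ⟨hq0, hql⟩
  have hs0 : 0 < Real.sin (a * sl D q.1) := by
    apply Real.sin_pos_of_pos_of_lt_pi (by positivity)
    rw [← haS]
    exact mul_lt_mul_of_pos_left (by linarith) ha0
  obtain ⟨L, hLd, hLe⟩ := pol_strict D S q
  -- the two norms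
  have hG : ∀ u : ℝ × ℝ, En a (pol D S q) (L u) =
      √((a * D.A q.1 * u.1) ^ 2 + (Real.sin (a * sl D q.1) * u.2) ^ 2) := by
    intro u
    rw [hLe, pol, ← hρ, En_pol a (D.A q.1) ρ q.2 hρ0 u, hsin, mul_assoc a]
  have hr3 := hZ.r3 q.1 ⟨hq0, hql⟩
  have hr4 := hZ.r4 q.1 ⟨hq0, hql⟩
  rw [← ha] at hr3 hr4
  have hr1 := hZ.r1
  have hr2 := hZ.r2
  rw [← ha] at hr1 hr2
  have hGN : ∀ u : ℝ × ℝ, En a (pol D S q) (L u) ≤ Lam * D.nm q.1 u := by
    intro u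
    rw [hG, QD.nm]
    apply diag_cmp _ _ _ _ _ hL0.le
    · rw [abs_mul, abs_of_pos ha0]
      exact mul_le_mul_of_nonneg_right hr1 (abs_nonneg _)
    · rw [abs_of_pos hs0, abs_of_pos hR0]; exact hr3
  have hNG : ∀ u : ℝ × ℝ, D.nm q.1 u ≤ Lam * En a (pol D S q) (L u) := by
    intro u
    rw [hG, QD.nm]
    apply diag_cmp _ _ _ _ _ hL0.le
    · rw [abs_mul, abs_of_pos ha0, ← mul_assoc]
      exact le_mul_of_one_le_left (abs_nonneg _) hr2
    · rw [abs_of_pos hs0, abs_of_pos hR0]; exact hr4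
  intro η hη
  obtain ⟨ε, hε, hcmp⟩ := real_cmp Lam (min (D.A q.1) (D.R q.1)) η hL1 (lt_min hA0 hR0) hη
  obtain ⟨δ₁, hδ₁, h1⟩ := hF.strip q hq.1 hq.2 ε hε
  obtain ⟨δ₂, hδ₂, h2⟩ := chart_comp hZE1 hLd a ha0 hz0 haz ε hε
  -- near `q` the squeeze is the identity
  have hev : ∀ᶠ x in 𝓝 q, B ^ 2 + y ^ 2 < ‖pol D S x‖ ^ 2 ∧ 0 < x.1 ∧ x.1 < D.βh x.2 := by
    have hc : ContinuousAt (pol D S) q := hLd.hasFDerivAt.continuousAt
    have hc1 : ContinuousAt (fun x => ‖pol D S x‖ ^ 2) q := (hc.norm).pow 2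
    have hc2 : ContinuousAt (fun x : ℝ × ℝ => D.βh x.2) q :=
      (hβc.comp continuous_snd).continuousAt
    have hv : B ^ 2 + y ^ 2 < ‖pol D S q‖ ^ 2 := by
      rw [hnz]
      refine hZ.y_lt.trans_le ?_
      exact pow_le_pow_left₀ hRpos.le hρp 2
    refine (hc1.eventually_const_lt hv).and ((continuousAt_fst.eventually_const_lt hq.1).and ?_)
    exact continuousAt_fst.eventually_lt hc2 hq.2
  obtain ⟨δ₃, hδ₃, h3⟩ := Metric.eventually_nhds_iff.mp hev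
  obtain ⟨r, hr, hopn⟩ := hF.opn q hq.1 hq.2 (min δ₁ (min δ₂ δ₃)) (by positivity)
  refine ⟨r, hr, fun x hx x' hx' => ?_⟩
  obtain ⟨w, hw, rfl⟩ := hopn hx
  obtain ⟨w', hw', rfl⟩ := hopn hx'
  rw [Metric.mem_ball] at hw hw'
  have hw1 := hw.trans_le (min_le_left _ _)
  have hw2 := (hw.trans_le (min_le_right _ _)).trans_le (min_le_left _ _)
  have hw3 := (hw.trans_le (min_le_right _ _)).trans_le (min_le_right _ _)
  have hw1' := hw'.trans_le (min_le_left _ _)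
  have hw2' := (hw'.trans_le (min_le_right _ _)).trans_le (min_le_left _ _)
  have hw3' := (hw'.trans_le (min_le_right _ _)).trans_le (min_le_right _ _)
  obtain ⟨k1, k2, k3⟩ := h3 hw3
  obtain ⟨k1', k2', k3'⟩ := h3 hw3'
  have hFw : F (Pr w) = E a (pol D S w) := by
    rw [hFP w ⟨k2.le, k3.le⟩, Fh, Sq_id B τ y _ k1 hZ.τ_pos]
  have hFw' : F (Pr w') = E a (pol D S w') := by
    rw [hFP w' ⟨k2'.le, k3'.le⟩, Fh, Sq_id B τ y _ k1' hZ.τ_pos]
  rw [hFw, hFw']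
  obtain ⟨c1, c2⟩ := hcmp ‖w - w'‖ (dist (Pr w) (Pr w'))
    (InnerProductGeometry.angle (E a (pol D S w) : E3) (E a (pol D S w') : E3))
    (D.nm q.1 (w - w')) (En a (pol D S q) (L (w - w'))) (norm_nonneg _)
    (nm_lower D q.1 _) (hGN _) (hNG _) (h1 w w' hw1 hw1') (h2 w w' hw2 hw2')
  have hLL : Lam + η ≤ Lam ^ 2 + η := by nlinarith
  exact ⟨c1.trans (mul_le_mul_of_nonneg_right hLL dist_nonneg),
    c2.trans (mul_le_mul_of_nonneg_right hLL (InnerProductGeometry.angle_nonneg _ _))⟩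

end Pool.MP8e.Zero
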