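import Pool.Agent.Work.MP_8e9dbb.Z.IfaceZ
import Pool.Agent.Work.MP_8e9dbb.B.Cal

/-! Block ZL2 of MP_8e9dbb (`c0`): local estimate in the flat part of the strip. -/

open MeasureTheory Filter Topology Metric Set
open scoped ContDiff

namespace Pool.MP8e.Zero

namespace L2

/-- choice of a small error -/
theorem consts {Λ m ε : ℝ} (hm : 0 < m) (hε : 0 < ε) : ∃ η > 0, η < m ∧ η * Λ < 1 ∧
    (Λ ^ 2 + η * Λ) * (1 + η / m) / (1 - η / m) ≤ Λ ^ 2 + ε ∧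
    (1 + η / m) / (1 - η / m) * Λ ^ 2 / (1 - η * Λ) ≤ Λ ^ 2 + ε := by
  have h1 : ContinuousAt (fun η : ℝ => (Λ ^ 2 + η * Λ) * (1 + η / m) / (1 - η / m)) 0 := by
    apply ContinuousAt.div
    · fun_prop
    · fun_prop
    · simp
  have h2 : ContinuousAt (fun η : ℝ => (1 + η / m) / (1 - η / m) * Λ ^ 2 / (1 - η * Λ)) 0 := by
    apply ContinuousAt.div
    · apply ContinuousAt.mul
      · apply ContinuousAt.div
        · fun_prop
        · fun_prop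
        · simp
      · fun_prop
    · fun_prop
    · simp
  have h3 : ContinuousAt (fun η : ℝ => η * Λ) 0 := by fun_prop
  have e1 : ∀ᶠ η in 𝓝 (0:ℝ), (Λ ^ 2 + η * Λ) * (1 + η / m) / (1 - η / m) < Λ ^ 2 + ε :=
    h1.eventually (gt_mem_nhds (by simp [hε]))
  have e2 : ∀ᶠ η in 𝓝 (0:ℝ), (1 + η / m) / (1 - η / m) * Λ ^ 2 / (1 - η * Λ) < Λ ^ 2 + ε :=
    h2.eventually (gt_mem_nhds (by simp [hε]))
  have e3 : ∀ᶠ η in 𝓝 (0:ℝ), η * Λ < 1 := h3.eventually (gt_mem_nhds (by simp))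
  have e4 : ∀ᶠ η in 𝓝 (0:ℝ), η < m := gt_mem_nhds hm
  have e5 : ∀ᶠ η in 𝓝[>] (0:ℝ), η ∈ Ioi (0:ℝ) := self_mem_nhdsWithin
  obtain ⟨η, h⟩ := (e5.and (((e1.and e2).and (e3.and e4)).filter_mono nhdsWithin_le_nhds)).exists
  exact ⟨η, h.1, h.2.2.2, h.2.2.1, h.2.1.1.le, h.2.1.2.le⟩

theorem key {q N : ℝ} (X : ℝ) (h : 1 - q ≠ 0) : X * N = X / (1 - q) * ((1 - q) * N) := by
  field_simp

/-- combination of the estimates -/
theorem combine {Λ m ε η d α N n D1 D2 e : ℝ} (hΛ : 1 ≤ Λ) (hm : 0 < m) (hη : 0 < η)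
    (hηm : η < m) (hηΛ : η * Λ < 1)
    (hc1 : (Λ ^ 2 + η * Λ) * (1 + η / m) / (1 - η / m) ≤ Λ ^ 2 + ε)
    (hc2 : (1 + η / m) / (1 - η / m) * Λ ^ 2 / (1 - η * Λ) ≤ Λ ^ 2 + ε)
    (hn : 0 ≤ n) (hd : |d - N| ≤ η * n) (hD1 : |D1 - N| ≤ η * n) (hN : m * n ≤ N)
    (hD2 : D1 ≤ Λ * D2) (hD2' : D2 ≤ Λ * D1) (hα : |α - e| ≤ η * D2) (he : D2 ≤ Λ * e)
    (he' : e ≤ Λ * D2) : α ≤ (Λ ^ 2 + ε) * d ∧ d ≤ (Λ ^ 2 + ε) * α := by
  have hN0 : 0 ≤ N := (mul_nonneg hm.le hn).trans hN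
  have hΛ0 : 0 < Λ := by linarith
  have hq : η * n ≤ η / m * N := by
    rw [div_mul_eq_mul_div, le_div_iff₀ hm]
    nlinarith
  have hq1 : η / m < 1 := (div_lt_one hm).2 hηm
  have hq0 : 0 < η / m := div_pos hη hm
  obtain ⟨d1, d2⟩ := abs_le.1 hd
  obtain ⟨D1a, D1b⟩ := abs_le.1 hD1
  obtain ⟨a1, a2⟩ := abs_le.1 hα
  have hdl : (1 - η / m) * N ≤ d := by nlinarith
  have hdu : d ≤ (1 + η / m) * N := by nlinarith
  have hDl : (1 - η / m) * N ≤ D1 := by nlinarith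
  have hDu : D1 ≤ (1 + η / m) * N := by nlinarith
  have hd0 : 0 ≤ d := le_trans (mul_nonneg (by linarith) hN0) hdl
  have hD20 : 0 ≤ D2 := by
    by_contra h
    push Not at h
    have : D1 < 0 := lt_of_le_of_lt hD2 (mul_neg_of_pos_of_neg hΛ0 h)
    have := mul_nonneg (by linarith : 0 ≤ 1 - η / m) hN0
    linarith
  constructor
  · -- upper bound of the angle
    have h1 : α ≤ (Λ + η) * D2 := by nlinarith
    have h2 : (Λ + η) * D2 ≤ (Λ + η) * (Λ * D1) :=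
      mul_le_mul_of_nonneg_left hD2' (by linarith)
    have h3 : (Λ + η) * (Λ * D1) ≤ (Λ ^ 2 + η * Λ) * ((1 + η / m) * N) := by
      have : (Λ + η) * (Λ * D1) = (Λ ^ 2 + η * Λ) * D1 := by ring
      rw [this]
      exact mul_le_mul_of_nonneg_left hDu (by positivity)
    have h4 : (Λ ^ 2 + η * Λ) * ((1 + η / m) * N) =
        (Λ ^ 2 + η * Λ) * (1 + η / m) / (1 - η / m) * ((1 - η / m) * N) := by
      have h0 : (1 - η / m) ≠ 0 := by linarith
      rw [← key _ h0]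
      ring
    have h5 : (Λ ^ 2 + η * Λ) * (1 + η / m) / (1 - η / m) * ((1 - η / m) * N) ≤
        (Λ ^ 2 + η * Λ) * (1 + η / m) / (1 - η / m) * d := by
      apply mul_le_mul_of_nonneg_left hdl
      apply div_nonneg (by positivity) (by linarith)
    have h6 : (Λ ^ 2 + η * Λ) * (1 + η / m) / (1 - η / m) * d ≤ (Λ ^ 2 + ε) * d :=
      mul_le_mul_of_nonneg_right hc1 hd0
    linarith
  · have h1 : (1 - η * Λ) * D2 ≤ Λ * α := by nlinarith
    have h2 : d ≤ (1 + η / m) / (1 - η / m) * D1 := by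
      have : (1 + η / m) * N = (1 + η / m) / (1 - η / m) * ((1 - η / m) * N) := by
        have h0 : (1 - η / m) ≠ 0 := by linarith
        exact key _ h0
      calc d ≤ (1 + η / m) * N := hdu
        _ = _ := this
        _ ≤ _ := mul_le_mul_of_nonneg_left hDl (div_nonneg (by linarith) (by linarith))
    have h3 : (1 + η / m) / (1 - η / m) * D1 ≤ (1 + η / m) / (1 - η / m) * (Λ * D2) :=
      mul_le_mul_of_nonneg_left hD2 (div_nonneg (by linarith) (by linarith))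
    have h4 : D2 ≤ Λ * α / (1 - η * Λ) := by
      rw [le_div_iff₀ (by linarith)]
      linarith
    have h5 : (1 + η / m) / (1 - η / m) * (Λ * D2) ≤
        (1 + η / m) / (1 - η / m) * (Λ * (Λ * α / (1 - η * Λ))) := by
      apply mul_le_mul_of_nonneg_left _ (div_nonneg (by linarith) (by linarith))
      exact mul_le_mul_of_nonneg_left h4 hΛ0.le
    have h6 : (1 + η / m) / (1 - η / m) * (Λ * (Λ * α / (1 - η * Λ))) =
        (1 + η / m) / (1 - η / m) * Λ ^ 2 / (1 - η * Λ) * α := by ring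
    have hα0 : 0 ≤ α := by
      by_contra h
      push Not at h
      have h7 : Λ * α < 0 := mul_neg_of_pos_of_neg hΛ0 h
      have h8 : 0 ≤ (1 - η * Λ) * D2 := mul_nonneg (by linarith) hD20
      linarith
    have h7 : (1 + η / m) / (1 - η / m) * Λ ^ 2 / (1 - η * Λ) * α ≤ (Λ ^ 2 + ε) * α :=
      mul_le_mul_of_nonneg_right hc2 hα0
    linarith

/-- the derivative of the polar coordinate is an isometry for the metric of the surface -/
theorem pol_deriv (D : QD) (S : ℝ) (q : ℝ × ℝ) (hR : D.R q.1 = S - sl D q.1) :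
    ∃ L : ℝ × ℝ →L[ℝ] ℂ, HasStrictFDerivAt (pol D S) L q ∧ ∀ u, ‖L u‖ = D.nm q.1 u := by
  have h1 : HasStrictDerivAt (fun p => S - sl D p) (-(D.A q.1)) q.1 :=
    (D.smA.continuous.integral_hasStrictDerivAt 0 q.1).const_sub S
  have h2 : HasStrictFDerivAt (fun x : ℝ × ℝ => S - sl D x.1) _ q :=
    h1.hasStrictFDerivAt.comp q hasStrictFDerivAt_fst
  have h3 : HasStrictFDerivAt (fun x : ℝ × ℝ => ((S - sl D x.1 : ℝ) : ℂ)) _ q :=
    Complex.ofRealCLM.hasStrictFDerivAt.comp q h2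
  have h4 : HasStrictFDerivAt (fun x : ℝ × ℝ => ((x.2 : ℝ) : ℂ)) _ q :=
    Complex.ofRealCLM.hasStrictFDerivAt.comp q hasStrictFDerivAt_snd
  have h5 := (h4.mul_const Complex.I).cexp
  have h6 := h3.mul h5
  refine ⟨_, h6, fun u => ?_⟩
  simp only [add_apply, smul_apply, ContinuousLinearMap.comp_apply, Complex.ofRealCLM_apply,
    ContinuousLinearMap.coe_fst', ContinuousLinearMap.coe_snd', smul_eq_mul,
    ContinuousLinearMap.toSpanSingleton_apply]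
  rw [← hR]
  have h7 : ((D.R q.1 : ℝ) : ℂ) * (Complex.exp ((q.2 : ℝ) * Complex.I) * (Complex.I * (u.2 : ℂ))) +
      Complex.exp ((q.2 : ℝ) * Complex.I) * ((u.1 * -(D.A q.1) : ℝ) : ℂ) =
      Complex.exp ((q.2 : ℝ) * Complex.I) * (((-(D.A q.1 * u.1) : ℝ) : ℂ) +
        ((D.R q.1 * u.2 : ℝ) : ℂ) * Complex.I) := by
    push_cast
    ring
  rw [h7, norm_mul, Complex.norm_exp_ofReal_mul_I, one_mul, Complex.norm_add_mul_I]
  unfold QD.nm
  congr 1
  ring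

/-- bounds of the norm of the sphere chart -/
theorem En_bounds {Λ a : ℝ} {z : ℂ} (hΛ : 1 ≤ Λ) (hz : z ≠ 0) (ha1 : a ≤ Λ) (ha2 : 1 ≤ Λ * a)
    (hb1 : Real.sin (a * ‖z‖) ≤ Λ * ‖z‖) (hb2 : ‖z‖ ≤ Λ * Real.sin (a * ‖z‖)) (v : ℂ) :
    ‖v‖ ≤ Λ * En a z v ∧ En a z v ≤ Λ * ‖v‖ := by
  have hr : 0 < ‖z‖ := norm_pos_iff.2 hz
  have hΛ0 : 0 < Λ := by linarith
  set w : ℂ := v * (starRingEnd ℂ) z / ‖z‖ with hw
  have hwn : ‖w‖ = ‖v‖ := by
    rw [hw, norm_div, norm_mul, Complex.norm_conj, Complex.norm_real, norm_norm,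
      mul_div_cancel_right₀ _ hr.ne']
  have hw2 : w.re ^ 2 + w.im ^ 2 = ‖v‖ ^ 2 := by
    rw [← hwn, ← Complex.normSq_eq_norm_sq, Complex.normSq_apply]; ring
  set b : ℝ := Real.sin (a * ‖z‖) / ‖z‖ with hb
  have hb1' : b ≤ Λ := by rw [hb, div_le_iff₀ hr]; exact hb1
  have hb2' : 1 ≤ Λ * b := by
    rw [hb, ← mul_div_assoc, le_div_iff₀ hr, one_mul]; exact hb2
  have ha0 : 0 < a := by
    by_contra h
    push Not at h
    nlinarith
  have hb0 : 0 < b := by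
    by_contra h
    push Not at h
    nlinarith
  have hE : En a z v = √((a * w.re) ^ 2 + (b * w.im) ^ 2) := rfl
  rw [hE]
  constructor
  · have h1 : ‖v‖ ^ 2 ≤ Λ ^ 2 * ((a * w.re) ^ 2 + (b * w.im) ^ 2) := by
      rw [← hw2]
      have e1 : 1 ≤ (Λ * a) ^ 2 := by nlinarith
      have e2 : 1 ≤ (Λ * b) ^ 2 := by nlinarith
      nlinarith [sq_nonneg w.re, sq_nonneg w.im, mul_le_mul_of_nonneg_right e1 (sq_nonneg w.re),
        mul_le_mul_of_nonneg_right e2 (sq_nonneg w.im)]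
    calc ‖v‖ = √(‖v‖ ^ 2) := (Real.sqrt_sq (norm_nonneg v)).symm
      _ ≤ √(Λ ^ 2 * ((a * w.re) ^ 2 + (b * w.im) ^ 2)) := Real.sqrt_le_sqrt h1
      _ = Λ * √((a * w.re) ^ 2 + (b * w.im) ^ 2) := by
        rw [Real.sqrt_mul (by positivity), Real.sqrt_sq hΛ0.le]
  · have h1 : (a * w.re) ^ 2 + (b * w.im) ^ 2 ≤ Λ ^ 2 * ‖v‖ ^ 2 := by
      rw [← hw2]
      have e1 : a ^ 2 ≤ Λ ^ 2 := by nlinarith
      have e2 : b ^ 2 ≤ Λ ^ 2 := by nlinarith
      nlinarith [mul_le_mul_of_nonneg_right e1 (sq_nonneg w.re),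
        mul_le_mul_of_nonneg_right e2 (sq_nonneg w.im)]
    calc √((a * w.re) ^ 2 + (b * w.im) ^ 2) ≤ √(Λ ^ 2 * ‖v‖ ^ 2) := Real.sqrt_le_sqrt h1
      _ = Λ * ‖v‖ := by
        rw [Real.sqrt_mul (by positivity), Real.sqrt_sq hΛ0.le, Real.sqrt_sq (norm_nonneg v)]

theorem sl_pos (D : QD) {p : ℝ} (hp : 0 < p) (hp' : p ≤ D.ℓ) : 0 < sl D p := by
  apply intervalIntegral.intervalIntegral_pos_of_pos_on
  · exact (D.smA.continuous).intervalIntegrable _ _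
  · intro x hx
    exact D.posA x ⟨hx.1.le, hx.2.le.trans hp'⟩
  · exact hp

theorem norm_pol (D : QD) (S : ℝ) (q : ℝ × ℝ) : ‖pol D S q‖ = |S - sl D q.1| := by
  unfold pol
  rw [norm_mul, Complex.norm_exp_ofReal_mul_I, mul_one, Complex.norm_real, Real.norm_eq_abs]

/-- bounds for the sine at the points of the squeezed flat part -/
theorem sin_bounds {D : QD} {S B τ y Λ : ℝ} (hZ : ZData D S B τ y Λ) {r : ℝ} (hr : 0 < r)
    (hr' : r ≤ D.R D.pf) : Real.pi / S * r < Real.pi ∧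
      Real.sin (Real.pi / S * r) ≤ Λ * r ∧ r ≤ Λ * Real.sin (Real.pi / S * r) := by
  have hpi := Real.pi_pos
  have hS := hZ.S_pos
  have hpf : 0 < D.pf := D.e₀_pos.trans D.e₀_lt
  have hpl : D.pf ≤ D.ℓ := by
    have h := D.β_mem 0 ⟨le_rfl, by positivity⟩
    exact h.1.le.trans h.2
  have hR0 : D.R D.pf = S - sl D D.pf := hZ.hS D.pf ⟨le_rfl, hpl⟩
  have hsl := sl_pos D hpf hpl
  have ha : 0 < Real.pi / S := by positivity
  have hlt : D.R D.pf < S := by linarith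
  have hr4 := hZ.r4 D.pf ⟨hpf, hpl⟩
  have hsl' : Real.pi / S * sl D D.pf = Real.pi - Real.pi / S * D.R D.pf := by
    rw [hR0]
    field_simp
    ring
  rw [hsl', Real.sin_pi_sub] at hr4
  have hρ : 0 < D.R D.pf := hr.trans_le hr'
  refine ⟨?_, ?_, ?_⟩
  · have h1 : Real.pi / S * r < Real.pi / S * S := mul_lt_mul_of_pos_left (by linarith) ha
    rwa [div_mul_cancel₀ _ hS.ne'] at h1
  · have h1 := Real.sin_le (mul_nonneg ha.le hr.le)
    exact h1.trans (mul_le_mul_of_nonneg_right hZ.r1 hr.le)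
  · have hcc := strictConcaveOn_sin_Icc.concaveOn
    have h1 : Real.pi / S * D.R D.pf ∈ Icc 0 Real.pi := by
      constructor
      · positivity
      · have h2 : Real.pi / S * D.R D.pf ≤ Real.pi / S * S := mul_le_mul_of_nonneg_left hlt.le ha.le
        rwa [div_mul_cancel₀ _ hS.ne'] at h2
    have h2 := hcc.2 (⟨le_rfl, hpi.le⟩ : (0 : ℝ) ∈ Icc 0 Real.pi) h1
      (by rw [sub_nonneg, div_le_one hρ]; exact hr' : 0 ≤ 1 - r / D.R D.pf)
      (by positivity : 0 ≤ r / D.R D.pf) (by ring)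
    simp only [smul_eq_mul, mul_zero, zero_add, Real.sin_zero] at h2
    rw [show r / D.R D.pf * (Real.pi / S * D.R D.pf) = Real.pi / S * r by field_simp] at h2
    have h3 : 0 < Λ := one_pos.trans_le hZ.Λ_ge
    calc r = r / D.R D.pf * D.R D.pf := by field_simp
      _ ≤ r / D.R D.pf * (Λ * Real.sin (Real.pi / S * D.R D.pf)) :=
        mul_le_mul_of_nonneg_left hr4 (by positivity)
      _ = Λ * (r / D.R D.pf * Real.sin (Real.pi / S * D.R D.pf)) := by ring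
      _ ≤ Λ * Real.sin (Real.pi / S * r) := mul_le_mul_of_nonneg_left h2 h3.le

end L2

open L2 in
theorem zl2_proof (hBETA : Stmt_BETA) (hZE1 : Stmt_ZE1) (hZS : Stmt_ZS) (hZB : Stmt_ZB) :
    Stmt_ZL2 := by
  intro D S B τ y Λ hZ X _ Pr hF F hFF q hq hqf ε hε
  obtain ⟨-, -, -, hβ, hopen, -⟩ := hBETA D
  have hpi := Real.pi_pos
  have hS := hZ.S_pos
  have hΛ := hZ.Λ_ge
  have hΛ0 : 0 < Λ := one_pos.trans_le hΛ
  have ha0 : 0 < Real.pi / S := by positivity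
  obtain ⟨hB1, hB2, -, -, -⟩ := hZB D S B τ y Λ hZ
  obtain ⟨s1, -, s3, s4, s5, -, -, -⟩ := hZS B τ y hZ.B_pos hZ.τ_pos hZ.y_gt
  have hql : q.1 ≤ D.ℓ := hq.2.le.trans (hβ q.2).2
  have hqK : q ∈ Kst D := ⟨hq.1.le, hq.2.le⟩
  have hR : D.R q.1 = S - sl D q.1 := hZ.hS q.1 ⟨hqf.le, hql⟩
  have hRq : 0 < D.R q.1 := D.posR q.1 ⟨hq.1, hql⟩
  -- `R` decreases on the flat part
  have hRle : D.R q.1 ≤ D.R D.pf := by
    have hmono : AntitoneOn D.R (Icc D.pf D.ℓ) := by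
      apply antitoneOn_of_deriv_nonpos (convex_Icc _ _) D.smR.continuous.continuousOn
        (fun x _ => (D.smR.differentiable (by simp)).differentiableAt.differentiableWithinAt)
      intro x hx
      have hx' := interior_subset hx
      rw [D.flat x hx', hZ.κ_eq]
      have := D.posA x ⟨(D.e₀_pos.trans D.e₀_lt).le.trans hx'.1, hx'.2⟩
      linarith
    exact hmono ⟨le_rfl, hqf.le.trans hql⟩ ⟨hqf.le, hql⟩ hqf.le
  set z₀ := pol D S q with hz₀
  set z₁ := Sq B τ y z₀ with hz₁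
  have hz₀O : z₀ ∈ Out B τ := (hB1 q hqK).1
  have hz₀n : ‖z₀‖ = D.R q.1 := by
    rw [hz₀, norm_pol, ← hR, abs_of_pos hRq]
  have hnfl : ¬ (|z₀.im| = fr B τ z₀.re ∧ |z₀.re| ≤ B) := by
    intro h
    exact hq.2.ne ((hB2 q hqK).2 h)
  -- norm of `z₁`
  have hz₁n : ‖z₁‖ ≤ ‖z₀‖ := by
    have h1 := (s5 z₀ hz₀O).2.2.2
    have h2 := s3 z₀
    rw [Complex.norm_def, Complex.norm_def, Complex.normSq_apply, Complex.normSq_apply]
    apply Real.sqrt_le_sqrt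
    rw [hz₁, h2]
    have h3 : (Sq B τ y z₀).im ^ 2 ≤ z₀.im ^ 2 := sq_le_sq.2 h1
    nlinarith
  have hz₁0 : z₁ ≠ 0 := by
    intro h
    have h1 : z₀.re = 0 := by rw [← s3 z₀, ← hz₁, h]; rfl
    have h2 : (Sq B τ y z₀).im = 0 := by rw [← hz₁, h]; rfl
    have h3 := ((s5 z₀ hz₀O).2.2.1).1 h2
    apply hnfl
    refine ⟨h3, ?_⟩
    rw [h1, abs_zero]
    exact hZ.B_pos.le
  have hr1 : 0 < ‖z₁‖ := norm_pos_iff.2 hz₁0
  obtain ⟨b1, b2, b3⟩ := sin_bounds hZ hr1 (hz₁n.trans (hz₀n.le.trans hRle))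
  have hEn := fun v => En_bounds hΛ hz₁0 hZ.r1 hZ.r2 b2 b3 v
  -- constants
  obtain ⟨m, hm, hmu⟩ := Cal.nm_lower D hq.1 hql
  obtain ⟨η, hη, hηm, hηΛ, hc1, hc2⟩ := consts (Λ := Λ) hm hε
  -- strip
  obtain ⟨δ1, hδ1, hd1⟩ := hF.strip q hq.1 hq.2 η hη
  -- pol
  obtain ⟨L, hL, hLn⟩ := pol_deriv D S q hR
  have h2 := hL.isLittleO.def hη
  rw [Metric.eventually_nhds_iff_ball] at h2
  obtain ⟨δ2, hδ2, hd2⟩ := h2
  -- the open strip
  obtain ⟨δ3, hδ3, hd3⟩ := Metric.isOpen_iff.1 hopen q hq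
  -- the squeeze
  have hpc : ContinuousAt (pol D S) q := hL.hasFDerivAt.continuousAt
  have hSq : ∃ δ4 > 0, ∀ x ∈ ball q δ4, ∀ x' ∈ ball q δ4,
      ‖pol D S x - pol D S x'‖ ≤ Λ * ‖Sq B τ y (pol D S x) - Sq B τ y (pol D S x')‖ ∧
      ‖Sq B τ y (pol D S x) - Sq B τ y (pol D S x')‖ ≤ Λ * ‖pol D S x - pol D S x'‖ := by
    rcases lt_or_ge B |z₀.re| with hre | hre
    · have hev : ∀ᶠ x in 𝓝 q, B < |(pol D S x).re| :=
        (Complex.continuous_re.continuousAt.comp hpc).abs.eventually (lt_mem_nhds hre)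
      obtain ⟨δ4, hδ4, hd4⟩ := Metric.eventually_nhds_iff_ball.1 hev
      refine ⟨δ4, hδ4, fun x hx x' hx' => ?_⟩
      rw [s4 _ (Or.inl (hd4 x hx).le), s4 _ (Or.inl (hd4 x' hx').le)]
      have hn := norm_nonneg (pol D S x - pol D S x')
      constructor <;> nlinarith
    · have him : z₀.im ≠ 0 := by
        intro h
        have h1 : fr B τ z₀.re ≤ |z₀.im| := hz₀O
        rw [h, abs_zero] at h1
        apply hnfl
        refine ⟨?_, hre⟩
        rw [h, abs_zero]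
        exact le_antisymm (le_max_left _ _) h1
      have hsame : ∃ δ5 > 0, ∀ x ∈ ball q δ5, ∀ x' ∈ ball q δ5,
          ((0 ≤ (pol D S x).im ∧ 0 ≤ (pol D S x').im) ∨
            ((pol D S x).im ≤ 0 ∧ (pol D S x').im ≤ 0)) := by
        have hcim : ContinuousAt (fun x => (pol D S x).im) q :=
          Complex.continuous_im.continuousAt.comp hpc
        rcases lt_or_gt_of_ne him with h | h
        · obtain ⟨δ5, hδ5, hd5⟩ := Metric.eventually_nhds_iff_ball.1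
            (hcim.eventually (gt_mem_nhds h))
          exact ⟨δ5, hδ5, fun x hx x' hx' => Or.inr ⟨(hd5 x hx).le, (hd5 x' hx').le⟩⟩
        · obtain ⟨δ5, hδ5, hd5⟩ := Metric.eventually_nhds_iff_ball.1
            (hcim.eventually (lt_mem_nhds h))
          exact ⟨δ5, hδ5, fun x hx x' hx' => Or.inl ⟨(hd5 x hx).le, (hd5 x' hx').le⟩⟩
      obtain ⟨δ5, hδ5, hd5⟩ := hsame
      refine ⟨min δ3 δ5, lt_min hδ3 hδ5, fun x hx x' hx' => ?_⟩
      have hxO : ∀ x ∈ ball q (min δ3 δ5), pol D S x ∈ Out B τ := by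
        intro x hx
        have h1 : D.InS x := hd3 (ball_subset_ball (min_le_left _ _) hx)
        exact (hB1 x ⟨h1.1.le, h1.2.le⟩).1
      have h1 := s1 _ (hxO x hx) _ (hxO x' hx') (hd5 x (ball_subset_ball (min_le_right _ _) hx) x'
        (ball_subset_ball (min_le_right _ _) hx'))
      have h2 := hZ.sq
      have hn := norm_nonneg (pol D S x - pol D S x')
      have h3 := h1.trans (mul_le_mul_of_nonneg_right h2 hn)
      obtain ⟨h4, h5⟩ := abs_le.1 h3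
      have h6 : Λ * (1 / Λ) = 1 := by field_simp
      constructor
      · -- `D1 / Λ ≤ D2`
        have h7 : 1 / Λ * ‖pol D S x - pol D S x'‖ ≤
            ‖Sq B τ y (pol D S x) - Sq B τ y (pol D S x')‖ := by linarith
        have h8 := mul_le_mul_of_nonneg_left h7 hΛ0.le
        rw [← mul_assoc, h6, one_mul] at h8
        exact h8
      · have h7 : 2 - 1 / Λ ≤ Λ := by
          have h8 : 0 ≤ (Λ - 1) ^ 2 / Λ := by positivity
          have h9 : (Λ - 1) ^ 2 / Λ = Λ - (2 - 1 / Λ) := by field_simp; ring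
          linarith
        have h8 : ‖Sq B τ y (pol D S x) - Sq B τ y (pol D S x')‖ ≤
            (2 - 1 / Λ) * ‖pol D S x - pol D S x'‖ := by linarith
        exact h8.trans (mul_le_mul_of_nonneg_right h7 hn)
  obtain ⟨δ4, hδ4, hd4⟩ := hSq
  -- the chart of the sphere
  obtain ⟨δ6, hδ6, hd6⟩ := hZE1 (Real.pi / S) z₁ ha0 hz₁0 b1 η hη
  obtain ⟨δ7, hδ7, hd7⟩ := Metric.continuousAt_iff.1 hpc (δ6 / Λ) (by positivity)
  -- assembly
  obtain ⟨r, hr, hopn⟩ := hF.opn q hq.1 hq.2 (min (min δ1 δ2) (min (min δ3 δ4) δ7))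
    (lt_min (lt_min hδ1 hδ2) (lt_min (lt_min hδ3 hδ4) hδ7))
  refine ⟨r, hr, fun x' hx' y' hy' => ?_⟩
  obtain ⟨x, hx, rfl⟩ := hopn hx'
  obtain ⟨x', hx', rfl⟩ := hopn hy'
  have m1 : min (min δ1 δ2) (min (min δ3 δ4) δ7) ≤ δ1 := (min_le_left _ _).trans (min_le_left _ _)
  have m2 : min (min δ1 δ2) (min (min δ3 δ4) δ7) ≤ δ2 := (min_le_left _ _).trans (min_le_right _ _)
  have m3 : min (min δ1 δ2) (min (min δ3 δ4) δ7) ≤ δ3 :=
    (min_le_right _ _).trans ((min_le_left _ _).trans (min_le_left _ _))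
  have m4 : min (min δ1 δ2) (min (min δ3 δ4) δ7) ≤ δ4 :=
    (min_le_right _ _).trans ((min_le_left _ _).trans (min_le_right _ _))
  have m7 : min (min δ1 δ2) (min (min δ3 δ4) δ7) ≤ δ7 :=
    (min_le_right _ _).trans (min_le_right _ _)
  have hK : ∀ x ∈ ball q (min (min δ1 δ2) (min (min δ3 δ4) δ7)), x ∈ Kst D := by
    intro x hx
    have h1 : D.InS x := hd3 (ball_subset_ball m3 hx)
    exact ⟨h1.1.le, h1.2.le⟩
  have hFx : ∀ x ∈ ball q (min (min δ1 δ2) (min (min δ3 δ4) δ7)),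
      F (Pr x) = E (Real.pi / S) (Sq B τ y (pol D S x)) := fun x hx => hFF x (hK x hx)
  have hnear : ∀ x ∈ ball q (min (min δ1 δ2) (min (min δ3 δ4) δ7)),
      Sq B τ y (pol D S x) ∈ ball z₁ δ6 := by
    intro x hx
    have h1 := (hd4 x (ball_subset_ball m4 hx) q (mem_ball_self hδ4)).2
    have h2 := hd7 (ball_subset_ball m7 hx : x ∈ ball q δ7)
    rw [dist_eq_norm] at h2
    rw [mem_ball, dist_eq_norm]
    refine lt_of_le_of_lt h1 ?_
    calc Λ * ‖pol D S x - pol D S q‖ < Λ * (δ6 / Λ) := mul_lt_mul_of_pos_left h2 hΛ0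
      _ = δ6 := by field_simp
  have hstrip := hd1 x x' (ball_subset_ball m1 hx) (ball_subset_ball m1 hx')
  have hpol : |‖pol D S x - pol D S x'‖ - D.nm q.1 (x - x')| ≤ η * ‖x - x'‖ := by
    have h3 := hd2 (x, x') (by
      rw [← ball_prod_same]
      exact ⟨ball_subset_ball m2 hx, ball_subset_ball m2 hx'⟩)
    simp only at h3
    rw [← hLn]
    exact (abs_norm_sub_norm_le _ _).trans h3
  rw [hFx x hx, hFx x' hx']
  obtain ⟨c1, c2⟩ := hd4 x (ball_subset_ball m4 hx) x' (ball_subset_ball m4 hx')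
  have hang := hd6 _ (hnear x hx) _ (hnear x' hx')
  obtain ⟨g1, g2⟩ := hEn (Sq B τ y (pol D S x) - Sq B τ y (pol D S x'))
  exact combine hΛ hm hη hηm hηΛ hc1 hc2 (norm_nonneg (x - x')) hstrip hpol (hmu _) c1 c2 hang
    g1 g2

end Pool.MP8e.Zero
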