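import Pool.Agent.Work.MP_8e9dbb.Z.IfaceZ
import Pool.Agent.Work.MP_8e9dbb.B.Dev

/-!
# MP_8e9dbb_gt, `c0`: block ZL3 (local estimate at the regular points of the floor, helper19)
-/

open MeasureTheory Filter Topology Metric Set
open scoped ContDiff

namespace Pool.MP8e.Zero

namespace L3

theorem sin_chord {a r R : ℝ} (ha : 0 < a) (hr : 0 < r) (hrR : r ≤ R) (hR : a * R ≤ Real.pi) :
    Real.sin (a * R) / R ≤ Real.sin (a * r) / r := by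
  have hR0 : 0 < R := hr.trans_le hrR
  have hc := strictConcaveOn_sin_Icc.concaveOn
  have h1 : a * R ∈ Icc 0 Real.pi := ⟨by positivity, hR⟩
  have h0 : (0:ℝ) ∈ Icc 0 Real.pi := ⟨le_rfl, Real.pi_pos.le⟩
  have h := hc.2 h1 h0 (show 0 ≤ r / R by positivity)
    (show 0 ≤ 1 - r / R by rw [sub_nonneg, div_le_one hR0]; exact hrR) (by ring)
  simp only [smul_eq_mul, Real.sin_zero, mul_zero, add_zero] at h
  rw [show r / R * (a * R) = a * r by field_simp] at h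
  rw [div_le_div_iff₀ hR0 hr]
  have h2 := mul_le_mul_of_nonneg_right h hR0.le
  rw [show r / R * Real.sin (a * R) * R = Real.sin (a * R) * r by field_simp] at h2
  exact h2

/-- the norm `En` is `Λ`-close to the Euclidean norm -/
theorem En_bd {a Λ : ℝ} {w : ℂ} (hw : w ≠ 0) (hΛ : 0 < Λ) (ha0 : 0 ≤ a) (ha : a ≤ Λ)
    (ha' : 1 ≤ Λ * a) (hk0 : 0 ≤ Real.sin (a * ‖w‖) / ‖w‖) (hk : Real.sin (a * ‖w‖) / ‖w‖ ≤ Λ)
    (hk' : 1 ≤ Λ * (Real.sin (a * ‖w‖) / ‖w‖)) (v : ℂ) :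
    ‖v‖ ≤ Λ * En a w v ∧ En a w v ≤ Λ * ‖v‖ := by
  unfold En
  set g : ℂ := v * (starRingEnd ℂ) w / ‖w‖ with hg
  set k : ℝ := Real.sin (a * ‖w‖) / ‖w‖ with hkd
  have hn : ‖g‖ = ‖v‖ := by
    have h0 : ‖w‖ ≠ 0 := norm_ne_zero_iff.mpr hw
    rw [hg, norm_div, norm_mul, RCLike.norm_conj, Complex.norm_real, norm_norm,
      mul_div_cancel_right₀ _ h0]
  have hn2 : ‖v‖ ^ 2 = g.re ^ 2 + g.im ^ 2 := by
    rw [← hn, ← Complex.normSq_eq_norm_sq, Complex.normSq_apply]; ring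
  constructor
  · have h1 : ‖v‖ ^ 2 ≤ Λ ^ 2 * ((a * g.re) ^ 2 + (k * g.im) ^ 2) := by
      rw [hn2]
      have e1 : 1 ≤ (Λ * a) ^ 2 := one_le_pow₀ ha'
      have e2 : 1 ≤ (Λ * k) ^ 2 := one_le_pow₀ hk'
      nlinarith [mul_le_mul_of_nonneg_right e1 (sq_nonneg g.re),
        mul_le_mul_of_nonneg_right e2 (sq_nonneg g.im)]
    calc ‖v‖ = √(‖v‖ ^ 2) := (Real.sqrt_sq (norm_nonneg _)).symm
      _ ≤ √(Λ ^ 2 * ((a * g.re) ^ 2 + (k * g.im) ^ 2)) := Real.sqrt_le_sqrt h1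
      _ = Λ * √((a * g.re) ^ 2 + (k * g.im) ^ 2) := by
        rw [Real.sqrt_mul (by positivity), Real.sqrt_sq hΛ.le]
  · rw [Real.sqrt_le_iff]
    refine ⟨by positivity, ?_⟩
    rw [mul_pow Λ ‖v‖ 2, hn2]
    have e1 : a ^ 2 ≤ Λ ^ 2 := pow_le_pow_left₀ ha0 ha 2
    have e2 : k ^ 2 ≤ Λ ^ 2 := pow_le_pow_left₀ hk0 hk 2
    nlinarith [mul_le_mul_of_nonneg_right e1 (sq_nonneg g.re),
      mul_le_mul_of_nonneg_right e2 (sq_nonneg g.im)]

section data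

variable {D : QD} {S B τ y Λ : ℝ}

theorem sl_sub (p q : ℝ) : sl D q - sl D p = ∫ u in p..q, D.A u := by
  unfold sl
  rw [intervalIntegral.integral_interval_sub_left] <;> exact D.contA.intervalIntegrable _ _

theorem sl_mono {p q : ℝ} (hp : 0 ≤ p) (hpq : p ≤ q) (hq : q ≤ D.ℓ) : sl D p ≤ sl D q := by
  rw [← sub_nonneg, sl_sub]
  exact intervalIntegral.integral_nonneg hpq fun u hu => (D.posA u ⟨hp.trans hu.1, hu.2.trans hq⟩).le

theorem sl_pf_pos (Z : ZData D S B τ y Λ) : 0 < sl D D.pf := by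
  have h0 : 0 ≤ sl D D.pf := by
    have := sl_mono (D := D) le_rfl D.pf_posB.le D.pf_lt_ℓB.le
    simpa [sl] using this
  have h1 := Z.r4 D.pf ⟨D.pf_posB, D.pf_lt_ℓB.le⟩
  have h2 := D.posR D.pf ⟨D.pf_posB, D.pf_lt_ℓB.le⟩
  rcases h0.lt_or_eq with h | h
  · exact h
  · rw [← h] at h1
    simp at h1
    linarith

theorem R_le (Z : ZData D S B τ y Λ) {p : ℝ} (hp : p ∈ Icc D.pf D.ℓ) : D.R p ≤ D.R D.pf := by
  rw [Z.hS p hp, Z.hS D.pf ⟨le_rfl, D.pf_lt_ℓB.le⟩]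
  linarith [sl_mono (D := D) D.pf_posB.le hp.1 hp.2]

theorem Rpf_lt (Z : ZData D S B τ y Λ) : D.R D.pf < S := by
  rw [Z.hS D.pf ⟨le_rfl, D.pf_lt_ℓB.le⟩]
  linarith [sl_pf_pos Z]

theorem a_mul_lt (Z : ZData D S B τ y Λ) {r : ℝ} (hr : r ≤ D.R D.pf) : Real.pi / S * r < Real.pi := by
  have h := Rpf_lt Z
  have hS := Z.S_pos
  rw [div_mul_eq_mul_div, div_lt_iff₀ hS]
  exact mul_lt_mul_of_pos_left (by linarith) Real.pi_pos

/-- all that is needed of the metric of the sphere on the disc of radius `R pf` -/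
theorem En_data (Z : ZData D S B τ y Λ) {w : ℂ} (hw : w ≠ 0) (hwR : ‖w‖ ≤ D.R D.pf) (v : ℂ) :
    ‖v‖ ≤ Λ * En (Real.pi / S) w v ∧ En (Real.pi / S) w v ≤ Λ * ‖v‖ := by
  have hΛ : 0 < Λ := lt_of_lt_of_le one_pos Z.Λ_ge
  have ha : 0 < Real.pi / S := div_pos Real.pi_pos Z.S_pos
  have hn : 0 < ‖w‖ := norm_pos_iff.mpr hw
  have h1 := a_mul_lt Z hwR
  have hR := (a_mul_lt Z (le_refl (D.R D.pf))).le
  have hch := sin_chord ha hn hwR hR
  have hR0 := D.posR D.pf ⟨D.pf_posB, D.pf_lt_ℓB.le⟩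
  have h2 : Real.sin (Real.pi / S * D.R D.pf) = Real.sin (Real.pi / S * sl D D.pf) := by
    rw [Z.hS D.pf ⟨le_rfl, D.pf_lt_ℓB.le⟩, mul_sub, div_mul_cancel₀ _ Z.S_pos.ne',
      Real.sin_pi_sub]
  have h3 := Z.r4 D.pf ⟨D.pf_posB, D.pf_lt_ℓB.le⟩
  rw [← h2] at h3
  have h4 : 1 ≤ Λ * (Real.sin (Real.pi / S * D.R D.pf) / D.R D.pf) := by
    rw [← mul_div_assoc, le_div_iff₀ hR0, one_mul]; exact h3
  have h5 : 1 ≤ Λ * (Real.sin (Real.pi / S * ‖w‖) / ‖w‖) :=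
    h4.trans (mul_le_mul_of_nonneg_left hch hΛ.le)
  have h6 : 0 ≤ Real.sin (Real.pi / S * ‖w‖) / ‖w‖ :=
    div_nonneg (Real.sin_nonneg_of_nonneg_of_le_pi (by positivity) h1.le) hn.le
  have h7 : Real.sin (Real.pi / S * ‖w‖) / ‖w‖ ≤ Λ := by
    rw [div_le_iff₀ hn]
    calc Real.sin (Real.pi / S * ‖w‖) ≤ Real.pi / S * ‖w‖ := Real.sin_le (by positivity)
      _ ≤ Λ * ‖w‖ := mul_le_mul_of_nonneg_right Z.r1 hn.le
  exact En_bd hw hΛ ha.le Z.r1 Z.r2 h6 h7 h5 v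

/-- one sided estimate -/
theorem one_side (Z : ZData D S B τ y Λ) (ZE1 : Stmt_ZE1) (ZS : Stmt_ZS) {z₀ : ℂ}
    (hz : z₀ ∈ Out B τ) (hi : z₀.im ≠ 0) (hw : Sq B τ y z₀ ≠ 0)
    (hwR : ‖Sq B τ y z₀‖ ≤ D.R D.pf) {ε : ℝ} (hε : 0 < ε) : ∃ δ > 0, ∀ z₁ ∈ Out B τ, ∀ z₂ ∈ Out B τ,
    ‖z₁ - z₀‖ < δ → ‖z₂ - z₀‖ < δ →
      InnerProductGeometry.angle (E (Real.pi / S) (Sq B τ y z₁) : E3)
        (E (Real.pi / S) (Sq B τ y z₂) : E3) ≤ (Λ ^ 2 + ε) * ‖z₁ - z₂‖ ∧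
      ‖z₁ - z₂‖ ≤ (Λ ^ 2 + ε) * InnerProductGeometry.angle (E (Real.pi / S) (Sq B τ y z₁) : E3)
        (E (Real.pi / S) (Sq B τ y z₂) : E3) := by
  have hΛ1 := Z.Λ_ge
  have hΛ : 0 < Λ := lt_of_lt_of_le one_pos Z.Λ_ge
  have ha : 0 < Real.pi / S := div_pos Real.pi_pos Z.S_pos
  have hsum : 0 < Λ ^ 2 + ε := by positivity
  set ε₁ : ℝ := ε / (Λ * (Λ ^ 2 + ε)) with hε₁
  have hε₁0 : 0 < ε₁ := by positivity
  obtain ⟨δ₁, hδ₁, h1⟩ := ZE1 (Real.pi / S) (Sq B τ y z₀) ha hw (a_mul_lt Z hwR) ε₁ hε₁0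
  obtain ⟨hS1, -⟩ := ZS B τ y Z.B_pos Z.τ_pos Z.y_gt
  -- ratio
  have hratio : ∀ z ∈ Out B τ, ∀ z' ∈ Out B τ, ((0 ≤ z.im ∧ 0 ≤ z'.im) ∨ (z.im ≤ 0 ∧ z'.im ≤ 0)) →
      ‖Sq B τ y z - Sq B τ y z'‖ ≤ Λ * ‖z - z'‖ ∧ ‖z - z'‖ ≤ Λ * ‖Sq B τ y z - Sq B τ y z'‖ := by
    intro z hz z' hz' hs
    have h2 := hS1 z hz z' hz' hs
    have h3 : |‖Sq B τ y z - Sq B τ y z'‖ - ‖z - z'‖| ≤ (1 - 1 / Λ) * ‖z - z'‖ :=
      h2.trans (mul_le_mul_of_nonneg_right Z.sq (norm_nonneg _))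
    rw [abs_le] at h3
    have h4 : 2 - 1 / Λ ≤ Λ := by
      have : 0 ≤ (Λ - 1) ^ 2 / Λ := by positivity
      have e : (Λ - 1) ^ 2 / Λ = Λ - 2 + 1 / Λ := by field_simp; ring
      linarith
    constructor
    · nlinarith [norm_nonneg (z - z'), h3.2]
    · have h5 : 1 / Λ * ‖z - z'‖ ≤ ‖Sq B τ y z - Sq B τ y z'‖ := by nlinarith [h3.1]
      calc ‖z - z'‖ = Λ * (1 / Λ * ‖z - z'‖) := by field_simp
        _ ≤ _ := mul_le_mul_of_nonneg_left h5 hΛ.le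
  refine ⟨min (δ₁ / Λ) |z₀.im|, lt_min (by positivity) (abs_pos.mpr hi), ?_⟩
  intro z₁ hz₁ z₂ hz₂ hd₁ hd₂
  rw [lt_min_iff] at hd₁ hd₂
  -- same sign of the imaginary parts
  have hsgn : ∀ z : ℂ, ‖z - z₀‖ < |z₀.im| → (0 < z₀.im → 0 ≤ z.im) ∧ (z₀.im < 0 → z.im ≤ 0) := by
    intro z hz'
    have h2 : |z.im - z₀.im| ≤ ‖z - z₀‖ := by
      rw [← Complex.sub_im]; exact Complex.abs_im_le_norm _
    have h3 := h2.trans_lt hz'
    rw [abs_lt] at h3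
    constructor
    · intro h; rw [abs_of_pos h] at h3; linarith [h3.1]
    · intro h; rw [abs_of_neg h] at h3; linarith [h3.2]
  have s1 := hsgn z₁ hd₁.2
  have s2 := hsgn z₂ hd₂.2
  have hss : (0 ≤ z₁.im ∧ 0 ≤ z₂.im) ∨ (z₁.im ≤ 0 ∧ z₂.im ≤ 0) := by
    rcases lt_or_gt_of_ne hi with h | h
    · exact Or.inr ⟨s1.2 h, s2.2 h⟩
    · exact Or.inl ⟨s1.1 h, s2.1 h⟩
  have hs10 : (0 ≤ z₁.im ∧ 0 ≤ z₀.im) ∨ (z₁.im ≤ 0 ∧ z₀.im ≤ 0) := by
    rcases lt_or_gt_of_ne hi with h | h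
    · exact Or.inr ⟨s1.2 h, h.le⟩
    · exact Or.inl ⟨s1.1 h, h.le⟩
  have hs20 : (0 ≤ z₂.im ∧ 0 ≤ z₀.im) ∨ (z₂.im ≤ 0 ∧ z₀.im ≤ 0) := by
    rcases lt_or_gt_of_ne hi with h | h
    · exact Or.inr ⟨s2.2 h, h.le⟩
    · exact Or.inl ⟨s2.1 h, h.le⟩
  have b1 : Sq B τ y z₁ ∈ ball (Sq B τ y z₀) δ₁ := by
    rw [mem_ball, dist_eq_norm]
    refine (hratio z₁ hz₁ z₀ hz hs10).1.trans_lt ?_
    have := hd₁.1
    rw [lt_div_iff₀ hΛ] at this
    linarith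
  have b2 : Sq B τ y z₂ ∈ ball (Sq B τ y z₀) δ₁ := by
    rw [mem_ball, dist_eq_norm]
    refine (hratio z₂ hz₂ z₀ hz hs20).1.trans_lt ?_
    have := hd₂.1
    rw [lt_div_iff₀ hΛ] at this
    linarith
  have h2 := h1 _ b1 _ b2
  obtain ⟨e1, e2⟩ := En_data Z hw hwR (Sq B τ y z₁ - Sq B τ y z₂)
  obtain ⟨r1, r2⟩ := hratio z₁ hz₁ z₂ hz₂ hss
  set α := InnerProductGeometry.angle (E (Real.pi / S) (Sq B τ y z₁) : E3)
        (E (Real.pi / S) (Sq B τ y z₂) : E3) with hα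
  set v := ‖Sq B τ y z₁ - Sq B τ y z₂‖ with hv
  have hv0 : 0 ≤ v := norm_nonneg _
  rw [abs_le] at h2
  have hk : ε₁ * Λ = ε / (Λ ^ 2 + ε) := by rw [hε₁]; field_simp
  have hk2 : ε₁ * Λ * (Λ ^ 2 + ε) = ε := by rw [hk]; field_simp
  have hk3 : 0 < ε₁ * Λ := by positivity
  have hΛ2 : 1 ≤ Λ ^ 2 := one_le_pow₀ hΛ1
  have hk4 : ε₁ * Λ ≤ ε := by nlinarith
  have hk5 : ε₁ * Λ < 1 := by
    rw [hk, div_lt_one hsum]; linarith
  have hd := norm_nonneg (z₁ - z₂)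
  constructor
  · calc α ≤ (Λ + ε₁) * v := by linarith [h2.2]
      _ ≤ (Λ + ε₁) * (Λ * ‖z₁ - z₂‖) := mul_le_mul_of_nonneg_left r1 (by positivity)
      _ = (Λ ^ 2 + ε₁ * Λ) * ‖z₁ - z₂‖ := by ring
      _ ≤ _ := mul_le_mul_of_nonneg_right (by linarith) hd
  · -- ‖z₁ - z₂‖ ≤ Λ v, v ≤ Λ En ≤ Λ (α + ε₁ v)
    have h3 : v ≤ Λ * (α + ε₁ * v) := by
      refine e1.trans (mul_le_mul_of_nonneg_left ?_ hΛ.le)
      linarith [h2.1]
    have h4 : (1 - ε₁ * Λ) * v ≤ Λ * α := by linarith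
    have h5 : (1 - ε₁ * Λ) * ‖z₁ - z₂‖ ≤ Λ ^ 2 * α := by
      calc (1 - ε₁ * Λ) * ‖z₁ - z₂‖ ≤ (1 - ε₁ * Λ) * (Λ * v) :=
            mul_le_mul_of_nonneg_left r2 (by linarith)
        _ = Λ * ((1 - ε₁ * Λ) * v) := by ring
        _ ≤ Λ * (Λ * α) := mul_le_mul_of_nonneg_left h4 hΛ.le
        _ = _ := by ring
    have h6 : (Λ ^ 2 + ε) * (1 - ε₁ * Λ) = Λ ^ 2 := by linarith
    calc ‖z₁ - z₂‖ = ((Λ ^ 2 + ε) * ((1 - ε₁ * Λ) * ‖z₁ - z₂‖)) / Λ ^ 2 := by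
          rw [← mul_assoc, h6]; field_simp
      _ ≤ ((Λ ^ 2 + ε) * (Λ ^ 2 * α)) / Λ ^ 2 := by gcongr
      _ = _ := by field_simp

theorem pol_re (q : ℝ × ℝ) : (pol D S q).re = (S - sl D q.1) * Real.cos q.2 := by
  simp [pol, Complex.exp_ofReal_mul_I_re, Complex.exp_ofReal_mul_I_im]

theorem pol_im (q : ℝ × ℝ) : (pol D S q).im = (S - sl D q.1) * Real.sin q.2 := by
  simp [pol, Complex.exp_ofReal_mul_I_re, Complex.exp_ofReal_mul_I_im]

theorem norm_pol (q : ℝ × ℝ) : ‖pol D S q‖ = |S - sl D q.1| := by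
  rw [pol, norm_mul, Complex.norm_real, Complex.norm_exp_ofReal_mul_I, mul_one, Real.norm_eq_abs]

theorem pol_neg (p θ : ℝ) : pol D S (p, -θ) = (starRingEnd ℂ) (pol D S (p, θ)) := by
  apply Complex.ext
  · rw [Complex.conj_re, pol_re, pol_re]; simp
  · rw [Complex.conj_im, pol_im, pol_im]; simp

/-- the developing map in terms of `pol` -/
noncomputable def Φ (ρ c : ℝ) (u : ℂ) : ℂ :=
  (ρ : ℂ) - (starRingEnd ℂ) u * Complex.exp ((c : ℝ) * Complex.I)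

theorem norm_Φ (ρ c : ℝ) (u u' : ℂ) : ‖Φ ρ c u - Φ ρ c u'‖ = ‖u - u'‖ := by
  have e : Φ ρ c u - Φ ρ c u' = -((starRingEnd ℂ) (u - u') * Complex.exp ((c : ℝ) * Complex.I)) := by
    unfold Φ; rw [map_sub]; ring
  rw [e, norm_neg, norm_mul, Complex.norm_exp_ofReal_mul_I, mul_one, RCLike.norm_conj]

theorem Z_pol (Z : ZData D S B τ y Λ) (c : ℝ) {p θ : ℝ} (hp : p ∈ Icc D.pf D.ℓ) :
    D.Z c p θ = Φ D.ρf c (pol D S (p, θ)) := by
  have hκ : D.κ ≠ 0 := by rw [Z.κ_eq]; norm_num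
  have hR := Z.hS p hp
  have e1 : (starRingEnd ℂ) (pol D S (p, θ)) * Complex.exp ((c : ℝ) * Complex.I) =
      ⟨D.R p * Real.cos (θ - c), -(D.R p * Real.sin (θ - c))⟩ := by
    apply Complex.ext
    · rw [Complex.mul_re, Complex.conj_re, Complex.conj_im, pol_re, pol_im,
        Complex.exp_ofReal_mul_I_re, Complex.exp_ofReal_mul_I_im, Real.cos_sub, hR]
      ring
    · rw [Complex.mul_im, Complex.conj_re, Complex.conj_im, pol_re, pol_im,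
        Complex.exp_ofReal_mul_I_re, Complex.exp_ofReal_mul_I_im, Real.sin_sub, hR]
      ring
  rw [Φ, e1]
  apply Complex.ext
  · rw [D.re_Z_of_ne hκ, ← D.R_eq hp, Z.κ_eq, Complex.sub_re, Complex.ofReal_re]
    rw [show (-1 : ℝ) * (θ - c) = -(θ - c) by ring, Real.cos_neg]
    ring
  · rw [D.im_Z_of_ne hκ, ← D.R_eq hp, Z.κ_eq, Complex.sub_im, Complex.ofReal_im]
    rw [show (-1 : ℝ) * (θ - c) = -(θ - c) by ring, Real.sin_neg]
    ring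

theorem sin_foot (Z : ZData D S B τ y Λ) {θ₀ c₀ : ℝ} (h : D.IsFoot θ₀ c₀) :
    Real.sin θ₀ ≠ 0 ∧ Real.cos θ₀ ≠ 0 := by
  have hpi := Real.pi_pos
  have hθf : D.θf < Real.pi / 2 := by
    rcases D.cls with ⟨_, _, _, h4⟩ | ⟨h1, _, _⟩
    · exact h4
    · rw [Z.κ_eq] at h1; linarith
  obtain ⟨j, h⟩ := h
  constructor
  · intro h0
    rw [Real.sin_eq_zero_iff] at h0
    obtain ⟨n, hn⟩ := h0
    rcases h with ⟨-, h1, h2⟩ | ⟨-, h1, h2⟩ | ⟨h1, -, -⟩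
    · rw [← hn] at h1 h2
      have e1 : (j : ℝ) < n := by nlinarith
      have e2 : (n : ℝ) < j + 1 := by nlinarith
      have e3 : j < n := by exact_mod_cast e1
      have e4 : n < j + 1 := by exact_mod_cast e2
      omega
    · rw [← hn] at h1 h2
      have e1 : (n : ℝ) < j := by nlinarith
      have e2 : (j : ℝ) < n + 1 := by nlinarith
      have e3 : n < j := by exact_mod_cast e1
      have e4 : j < n + 1 := by exact_mod_cast e2
      omega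
    · linarith
  · intro h0
    rw [Real.cos_eq_zero_iff] at h0
    obtain ⟨n, hn⟩ := h0
    rcases h with ⟨-, h1, h2⟩ | ⟨-, h1, h2⟩ | ⟨h1, -, -⟩
    · rw [hn] at h1 h2
      have e1 : (2 * j : ℝ) < 2 * n + 1 := by nlinarith
      have e2 : (2 * n + 1 : ℝ) < 2 * j + 1 := by nlinarith
      have e3 : 2 * j < 2 * n + 1 := by exact_mod_cast e1
      have e4 : 2 * n + 1 < 2 * j + 1 := by exact_mod_cast e2
      omega
    · rw [hn] at h1 h2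
      have e1 : (2 * n + 1 : ℝ) < 2 * j := by nlinarith
      have e2 : (2 * j - 1 : ℝ) < 2 * n + 1 := by nlinarith
      have e3 : 2 * n + 1 < 2 * j := by exact_mod_cast e1
      have e4 : 2 * j - 1 < 2 * n + 1 := by exact_mod_cast e2
      omega
    · linarith

end data

/-- crossing of the axis `Re = 0` by a segment -/
theorem exists_cross {z w : ℂ} (hz : z.re ≤ 0) (hw : 0 ≤ w.re) : ∃ m : ℂ, m.re = 0 ∧
    ‖z - m‖ + ‖m - w‖ = ‖z - w‖ ∧ ∀ (c : ℂ) (r : ℝ), z ∈ ball c r → w ∈ ball c r → m ∈ ball c r := by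
  obtain ⟨t, ht0, ht1, ht⟩ : ∃ t : ℝ, 0 ≤ t ∧ t ≤ 1 ∧ (1 - t) * z.re + t * w.re = 0 := by
    rcases hz.eq_or_lt with h | h
    · exact ⟨0, le_rfl, zero_le_one, by rw [h]; ring⟩
    · have hpos : 0 < w.re - z.re := by linarith
      refine ⟨-z.re / (w.re - z.re), div_nonneg (by linarith) hpos.le, ?_, ?_⟩
      · rw [div_le_one hpos]; linarith
      · field_simp; ring
  set m : ℂ := (1 - t) • z + t • w with hm
  have hseg : m ∈ segment ℝ z w := ⟨1 - t, t, by linarith, ht0, by ring, rfl⟩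
  refine ⟨m, ?_, ?_, ?_⟩
  · rw [hm]; simpa using ht
  · have h := dist_add_dist_of_mem_segment hseg
    rwa [dist_eq_norm, dist_eq_norm, dist_eq_norm] at h
  · intro c r h1 h2
    exact (convex_ball c r).segment_subset h1 h2 hseg

end L3

open L3 in
theorem zl3_proof (hE1 : Stmt_ZE1) (hE2 : Stmt_ZE2) (hE3 : Stmt_ZE3) (hS : Stmt_ZS)
    (hB : Stmt_ZB) : Stmt_ZL3 := by
  intro D S B τ y Λ Z X _ Pr hF F hFh θ₀ c₀ hfoot ε hε
  have hΛ : 0 < Λ := lt_of_lt_of_le one_pos Z.Λ_ge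
  have ha : 0 < Real.pi / S := div_pos Real.pi_pos Z.S_pos
  obtain ⟨hB1, hB2, -, -, -⟩ := hB D S B τ y Λ Z
  have hSall := hS B τ y Z.B_pos Z.τ_pos Z.y_gt
  obtain ⟨hS1, hS2, hS3, hS4, hS5, hS6, hS7, hS8⟩ := hSall
  set a : ℝ := Real.pi / S with hadef
  set x₀ : X := Pr (D.fl θ₀) with hx₀
  set z₀ : ℂ := pol D S (D.fl θ₀) with hz₀
  have hfl : D.fl θ₀ ∈ Kst D := ⟨(D.βh_posB θ₀).le, le_rfl⟩
  have hβ := D.βh_memB θ₀
  have hβI : D.βh θ₀ ∈ Icc D.pf D.ℓ := ⟨hβ.1.le, hβ.2⟩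
  have hz₀O : z₀ ∈ Out B τ := (hB1 _ hfl).1
  have conjO : ∀ u : ℂ, u ∈ Out B τ → (starRingEnd ℂ) u ∈ Out B τ := by
    intro u hu
    simpa [Out] using hu
  obtain ⟨hfl2, -⟩ := (hB2 _ hfl).1 rfl
  obtain ⟨hsin, hcos⟩ := sin_foot Z hfoot
  have hRpos : 0 < D.R (D.βh θ₀) := D.posR _ ⟨D.βh_posB θ₀, hβ.2⟩
  have hRS : S - sl D (D.fl θ₀).1 = D.R (D.βh θ₀) := (Z.hS _ hβI).symm
  have hz₀im : z₀.im ≠ 0 := by
    rw [hz₀, pol_im, hRS]; exact mul_ne_zero hRpos.ne' hsin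
  have hz₀re : z₀.re ≠ 0 := by
    rw [hz₀, pol_re, hRS]; exact mul_ne_zero hRpos.ne' hcos
  have hz₀n : ‖z₀‖ = D.R (D.βh θ₀) := by
    rw [hz₀, norm_pol, hRS, abs_of_pos hRpos]
  have hreB : |z₀.re| < B := by
    have h1 : 0 < fr B τ z₀.re := by rw [← hfl2]; exact abs_pos.mpr hz₀im
    unfold fr at h1
    by_contra h2
    rw [not_lt] at h2
    have h3 : (B - |z₀.re|) * τ ≤ 0 := mul_nonpos_of_nonpos_of_nonneg (by linarith) Z.τ_pos.le
    rw [max_eq_left h3] at h1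
    exact lt_irrefl _ h1
  have hw₀ : Sq B τ y z₀ = (z₀.re : ℂ) := by
    apply Complex.ext
    · rw [hS3, Complex.ofReal_re]
    · rw [((hS5 z₀ hz₀O).2.2.1).2 hfl2, Complex.ofReal_im]
  have hw₀c : Sq B τ y ((starRingEnd ℂ) z₀) = (z₀.re : ℂ) := by
    rw [hS2 z₀ hz₀O, hw₀, Complex.conj_ofReal]
  have hz₀ne : (z₀.re : ℂ) ≠ 0 := by exact_mod_cast hz₀re
  have hreR : |z₀.re| ≤ D.R D.pf :=
    (Complex.abs_re_le_norm z₀).trans (by rw [hz₀n]; exact R_le Z hβI)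
  have hre_n : ‖(z₀.re : ℂ)‖ ≤ D.R D.pf := by
    rw [Complex.norm_real, Real.norm_eq_abs]; exact hreR
  obtain ⟨δA, hδA, hA⟩ := one_side Z hE1 hS hz₀O hz₀im (by rw [hw₀]; exact hz₀ne)
    (by rw [hw₀]; exact hre_n) hε
  obtain ⟨δB, hδB, hB'⟩ := one_side Z hE1 hS (conjO z₀ hz₀O) (by simpa using hz₀im)
    (by rw [hw₀c]; exact hz₀ne) (by rw [hw₀c]; exact hre_n) hε
  -- local structure
  obtain ⟨δs, hδs, hsign⟩ := D.re_Z_sign hfoot
  have hη : 0 < min δs (D.βh θ₀ - D.pf) := lt_min hδs (by linarith [hβ.1])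
  obtain ⟨r₁, hr₁, ζ, ζ0, ζd, ζrep, ζsurj⟩ := hF.floor θ₀ c₀ hfoot _ hη
  have hζx₀ : ζ x₀ = Φ D.ρf c₀ z₀ := by
    rw [show x₀ = Pr (D.βh θ₀, θ₀) from rfl, ζ0, Z_pol Z c₀ hβI]; rfl
  have hζre : (ζ x₀).re = 0 := by
    rw [show x₀ = Pr (D.βh θ₀, θ₀) from rfl, ζ0]; exact D.re_Z_floor hfoot
  have hζd : ∀ x ∈ ball x₀ r₁, ∀ x' ∈ ball x₀ r₁, dist x x' = ‖ζ x - ζ x'‖ := ζd
  have hx₀r : x₀ ∈ ball x₀ r₁ := mem_ball_self hr₁
  have hzcj : -(starRingEnd ℂ) (ζ x₀) = ζ x₀ := by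
    apply Complex.ext
    · rw [Complex.neg_re, Complex.conj_re, hζre, neg_zero]
    · rw [Complex.neg_im, Complex.conj_im, neg_neg]
  let SA : X → Prop := fun x => ∃ u ∈ Out B τ, ‖u - z₀‖ = dist x x₀ ∧ F x = E a (Sq B τ y u) ∧
    ζ x = Φ D.ρf c₀ u
  let SB : X → Prop := fun x => ∃ u ∈ Out B τ, ‖u - (starRingEnd ℂ) z₀‖ = dist x x₀ ∧
    F x = E a (Sq B τ y u) ∧ ζ x = -(starRingEnd ℂ) (Φ D.ρf c₀ ((starRingEnd ℂ) u))
  -- representation on one side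
  have repA : ∀ x ∈ ball x₀ r₁, ∀ p θ, |p - D.βh θ₀| < min δs (D.βh θ₀ - D.pf) →
      |θ - θ₀| < min δs (D.βh θ₀ - D.pf) → p ≤ D.βh θ → x = Pr (p, θ) → ζ x = D.Z c₀ p θ →
      (pol D S (p, θ) ∈ Out B τ ∧ ‖pol D S (p, θ) - z₀‖ = dist x x₀ ∧
        F x = E a (Sq B τ y (pol D S (p, θ))) ∧ ζ x = Φ D.ρf c₀ (pol D S (p, θ))) := by
    intro x hx p θ hp hθ hpβ hxp hζx
    rw [lt_min_iff, abs_lt, abs_lt] at hp
    have hp1 : D.pf < p := by linarith [hp.2.1]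
    have hpI : p ∈ Icc D.pf D.ℓ := ⟨hp1.le, hpβ.trans (D.βh_memB θ).2⟩
    have hK : (p, θ) ∈ Kst D := ⟨(D.pf_posB.trans hp1).le, hpβ⟩
    refine ⟨(hB1 _ hK).1, ?_, ?_, ?_⟩
    · rw [hζd x hx x₀ hx₀r, hζx₀, hζx, Z_pol Z c₀ hpI, norm_Φ]
    · rw [hxp, hFh _ hK]; rfl
    · rw [hζx, Z_pol Z c₀ hpI]
  have repB : ∀ x ∈ ball x₀ r₁, ∀ p θ, |p - D.βh θ₀| < min δs (D.βh θ₀ - D.pf) →
      |θ - θ₀| < min δs (D.βh θ₀ - D.pf) → p ≤ D.βh θ → x = Pr (p, -θ) →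
      ζ x = -(starRingEnd ℂ) (D.Z c₀ p θ) →
      (pol D S (p, -θ) ∈ Out B τ ∧ ‖pol D S (p, -θ) - (starRingEnd ℂ) z₀‖ = dist x x₀ ∧
        F x = E a (Sq B τ y (pol D S (p, -θ))) ∧
        ζ x = -(starRingEnd ℂ) (Φ D.ρf c₀ ((starRingEnd ℂ) (pol D S (p, -θ))))) := by
    intro x hx p θ hp hθ hpβ hxp hζx
    rw [lt_min_iff, abs_lt, abs_lt] at hp
    have hp1 : D.pf < p := by linarith [hp.2.1]
    have hpI : p ∈ Icc D.pf D.ℓ := ⟨hp1.le, hpβ.trans (D.βh_memB θ).2⟩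
    have hK : (p, -θ) ∈ Kst D := ⟨(D.pf_posB.trans hp1).le, by rw [D.βh_negB]; exact hpβ⟩
    refine ⟨(hB1 _ hK).1, ?_, ?_, ?_⟩
    · rw [hζd x hx x₀ hx₀r, ← hzcj, hζx₀, hζx, Z_pol Z c₀ hpI, pol_neg, ← map_sub,
        RCLike.norm_conj, neg_sub_neg, ← map_sub, RCLike.norm_conj, norm_sub_rev, norm_Φ]
    · rw [hxp, hFh _ hK]; rfl
    · rw [hζx, Z_pol Z c₀ hpI, pol_neg, Complex.conj_conj]
  have hI : ∀ x ∈ ball x₀ r₁, (SA x ∧ (ζ x).re ≤ 0) ∨ (SB x ∧ 0 ≤ (ζ x).re) := by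
    intro x hx
    obtain ⟨p, θ, hp, hθ, hpβ, hre, h | h⟩ := ζrep x hx
    · left
      exact ⟨⟨_, repA x hx p θ hp hθ hpβ h.1 h.2⟩, by rw [h.2]; exact hre⟩
    · right
      refine ⟨⟨_, repB x hx p θ hp hθ hpβ h.1 h.2⟩, ?_⟩
      rw [h.2, Complex.neg_re, Complex.conj_re]; linarith
  have hII : ∀ x ∈ ball x₀ r₁, (ζ x).re = 0 → SA x ∧ SB x := by
    intro x hx hx0
    obtain ⟨p, θ, hp, hθ, hpβ, hre, h⟩ := ζrep x hx
    have hZ0 : (D.Z c₀ p θ).re = 0 := by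
      rcases h with h | h
      · rw [← h.2]; exact hx0
      · have := hx0
        rw [h.2, Complex.neg_re, Complex.conj_re] at this
        linarith
    have hpe : p = D.βh θ := ((hsign p θ (lt_min_iff.mp hθ).1 (lt_min_iff.mp hp).1).2).1 hZ0
    have hcj : -(starRingEnd ℂ) (D.Z c₀ p θ) = D.Z c₀ p θ := by
      apply Complex.ext
      · rw [Complex.neg_re, Complex.conj_re, hZ0, neg_zero]
      · rw [Complex.neg_im, Complex.conj_im, neg_neg]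
    have hPr : Pr (p, -θ) = Pr (p, θ) := by rw [hpe]; exact hF.flr θ
    have hx1 : x = Pr (p, θ) := by
      rcases h with h | h
      · exact h.1
      · rw [h.1, hPr]
    have hx2 : ζ x = D.Z c₀ p θ := by
      rcases h with h | h
      · exact h.2
      · rw [h.2, hcj]
    exact ⟨⟨_, repA x hx p θ hp hθ hpβ hx1 hx2⟩,
      ⟨_, repB x hx p θ hp hθ hpβ (by rw [hx1, hPr]) (by rw [hx2, hcj])⟩⟩
  have hSqn : ∀ u ∈ Out B τ, ‖Sq B τ y u‖ ≤ ‖u‖ := by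
    intro u hu
    have h1 := (hS5 u hu).2.2.2
    have h2 := hS3 u
    rw [← Real.sqrt_sq (norm_nonneg (Sq B τ y u)), ← Real.sqrt_sq (norm_nonneg u)]
    apply Real.sqrt_le_sqrt
    rw [← Complex.normSq_eq_norm_sq, ← Complex.normSq_eq_norm_sq, Complex.normSq_apply,
      Complex.normSq_apply, h2]
    have h3 := mul_self_le_mul_self (abs_nonneg _) h1
    rw [abs_mul_abs_self, abs_mul_abs_self] at h3
    linarith
  have hIII : ∀ x ∈ ball x₀ r₁, dist x x₀ < B - |z₀.re| → ∀ x₃ : ℝ, a * |x₃| < Real.pi →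
      F x = E a x₃ → (ζ x).re = 0 := by
    intro x hx hxd x₃ hx₃ hFx
    -- general: for a representation `q`
    have key : ∀ q ∈ Kst D, F x = E a (Sq B τ y (pol D S q)) → |(pol D S q).re| ≤ B →
        q.1 = D.βh q.2 := by
      intro q hq h1 h2
      obtain ⟨o1, o2⟩ := hB1 q hq
      have h3 : a * ‖Sq B τ y (pol D S q)‖ ≤ Real.pi := by
        calc a * ‖Sq B τ y (pol D S q)‖ ≤ a * S :=
              mul_le_mul_of_nonneg_left ((hSqn _ o1).trans o2) ha.le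
          _ = Real.pi := by rw [hadef, div_mul_cancel₀ _ Z.S_pos.ne']
      have h4 : a * ‖(x₃ : ℂ)‖ < Real.pi := by
        rw [Complex.norm_real, Real.norm_eq_abs]; exact hx₃
      have h5 := (hE2 a ha).2.2.1 _ _ h3 h4.le (h1.symm.trans hFx)
      have h6 : Sq B τ y (pol D S q) = (x₃ : ℂ) := by
        rcases h5 with h5 | h5
        · exact h5
        · linarith [h5.2]
      have h7 : (Sq B τ y (pol D S q)).im = 0 := by rw [h6, Complex.ofReal_im]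
      exact (hB2 q hq).2 ⟨((hS5 _ o1).2.2.1).1 h7, h2⟩
    have hreu : ∀ u : ℂ, ‖u - z₀‖ = dist x x₀ → |u.re| ≤ B := by
      intro u hu
      have h1 : |u.re - z₀.re| ≤ ‖u - z₀‖ := by
        rw [← Complex.sub_re]; exact Complex.abs_re_le_norm _
      have h2 := abs_sub_abs_le_abs_sub u.re z₀.re
      linarith
    have hreu' : ∀ u : ℂ, ‖u - (starRingEnd ℂ) z₀‖ = dist x x₀ → |u.re| ≤ B := by
      intro u hu
      have h1 : |u.re - z₀.re| ≤ ‖u - (starRingEnd ℂ) z₀‖ := by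
        rw [← Complex.conj_re z₀, ← Complex.sub_re]; exact Complex.abs_re_le_norm _
      have h2 := abs_sub_abs_le_abs_sub u.re z₀.re
      linarith
    obtain ⟨p, θ, hp, hθ, hpβ, hre, h | h⟩ := ζrep x hx
    · obtain ⟨-, g2, g3, -⟩ := repA x hx p θ hp hθ hpβ h.1 h.2
      have hp' := hp
      rw [lt_min_iff, abs_lt, abs_lt] at hp'
      have hK : (p, θ) ∈ Kst D := ⟨(D.pf_posB.trans (by linarith [hp'.2.1])).le, hpβ⟩
      have h1 := key _ hK g3 (hreu _ g2)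
      rw [h.2]
      exact ((hsign p θ (lt_min_iff.mp hθ).1 (lt_min_iff.mp hp).1).2).2 h1
    · obtain ⟨-, g2, g3, -⟩ := repB x hx p θ hp hθ hpβ h.1 h.2
      have hp' := hp
      rw [lt_min_iff, abs_lt, abs_lt] at hp'
      have hK : (p, -θ) ∈ Kst D :=
        ⟨(D.pf_posB.trans (by linarith [hp'.2.1])).le, by rw [D.βh_negB]; exact hpβ⟩
      have h1 := key _ hK g3 (hreu' _ g2)
      have h1' : p = D.βh θ := by rw [← D.βh_negB]; exact h1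
      rw [h.2, Complex.neg_re, Complex.conj_re,
        ((hsign p θ (lt_min_iff.mp hθ).1 (lt_min_iff.mp hp).1).2).2 h1', neg_zero]
  -- estimates on the two sides
  have estA : ∀ x ∈ ball x₀ r₁, ∀ x' ∈ ball x₀ r₁, dist x x₀ < δA → dist x' x₀ < δA →
      SA x → SA x' → InnerProductGeometry.angle (F x : E3) (F x' : E3) ≤ (Λ ^ 2 + ε) * dist x x' ∧
      dist x x' ≤ (Λ ^ 2 + ε) * InnerProductGeometry.angle (F x : E3) (F x' : E3) := by
    rintro x hx x' hx' hd hd' ⟨u, hu, hu1, hu2, hu3⟩ ⟨u', hu', hu1', hu2', hu3'⟩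
    have h := hA u hu u' hu' (by rw [hu1]; exact hd) (by rw [hu1']; exact hd')
    rw [hζd x hx x' hx', hu3, hu3', norm_Φ, hu2, hu2']
    exact h
  have estB : ∀ x ∈ ball x₀ r₁, ∀ x' ∈ ball x₀ r₁, dist x x₀ < δB → dist x' x₀ < δB →
      SB x → SB x' → InnerProductGeometry.angle (F x : E3) (F x' : E3) ≤ (Λ ^ 2 + ε) * dist x x' ∧
      dist x x' ≤ (Λ ^ 2 + ε) * InnerProductGeometry.angle (F x : E3) (F x' : E3) := by
    rintro x hx x' hx' hd hd' ⟨u, hu, hu1, hu2, hu3⟩ ⟨u', hu', hu1', hu2', hu3'⟩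
    have h := hB' u hu u' hu' (by rw [hu1]; exact hd) (by rw [hu1']; exact hd')
    rw [hζd x hx x' hx', hu3, hu3', neg_sub_neg, ← map_sub, RCLike.norm_conj, norm_Φ,
      ← map_sub, RCLike.norm_conj, norm_sub_rev, hu2, hu2']
    exact h
  -- radius for the crossing points
  set r₀ : ℝ := min (min r₁ (B - |z₀.re|)) (min δA δB) with hr₀
  have hr₀0 : 0 < r₀ := lt_min (lt_min hr₁ (by linarith)) (lt_min hδA hδB)
  have hFx₀ : F x₀ = E a (z₀.re : ℂ) := by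
    rw [hx₀, hFh _ hfl, Fh, ← hz₀, hw₀]
  have hcontS : Continuous (fun t : ℝ => F.symm (E a (t : ℂ))) :=
    F.symm.continuous.comp ((hE2 a ha).1.comp Complex.continuous_ofReal)
  obtain ⟨η₃, hη₃, hη₃'⟩ := Metric.continuous_iff.mp hcontS z₀.re r₀ hr₀0
  have hη4 : 0 < min η₃ (S - |z₀.re|) := lt_min hη₃ (by linarith [Rpf_lt Z])
  obtain ⟨δ₃, hδ₃, h3⟩ := hE3 a z₀.re ha hz₀re
    (by rw [hadef]; exact a_mul_lt Z hreR) _ hη4
  -- continuity of `Sq`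
  obtain ⟨δ₄, hδ₄, h4⟩ := Metric.continuousOn_iff.mp hS8 z₀ hz₀O δ₃ hδ₃
  obtain ⟨δ₅, hδ₅, h5⟩ := Metric.continuousOn_iff.mp hS8 ((starRingEnd ℂ) z₀) (conjO z₀ hz₀O) δ₃ hδ₃
  set r : ℝ := min r₀ (min (min δ₄ δ₅) |z₀.im|) with hr
  have hr0 : 0 < r := lt_min hr₀0 (lt_min (lt_min hδ₄ hδ₅) (abs_pos.mpr hz₀im))
  have hle₀ : r ≤ r₀ := min_le_left _ _
  have hle1 : r₀ ≤ r₁ := (min_le_left _ _).trans (min_le_left _ _)
  have hleB : r₀ ≤ B - |z₀.re| := (min_le_left _ _).trans (min_le_right _ _)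
  have hleδA : r₀ ≤ δA := (min_le_right _ _).trans (min_le_left _ _)
  have hleδB : r₀ ≤ δB := (min_le_right _ _).trans (min_le_right _ _)
  have hle4 : r ≤ δ₄ := ((min_le_right _ _).trans (min_le_left _ _)).trans (min_le_left _ _)
  have hle5 : r ≤ δ₅ := ((min_le_right _ _).trans (min_le_left _ _)).trans (min_le_right _ _)
  have hle6 : r ≤ |z₀.im| := (min_le_right _ _).trans (min_le_right _ _)
  have hK : 0 < Λ ^ 2 + ε := by positivity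
  -- mixed pairs
  have mixed : ∀ x ∈ ball x₀ r, ∀ x' ∈ ball x₀ r, SA x → (ζ x).re ≤ 0 → SB x' →
      0 ≤ (ζ x').re →
      InnerProductGeometry.angle (F x : E3) (F x' : E3) ≤ (Λ ^ 2 + ε) * dist x x' ∧
      dist x x' ≤ (Λ ^ 2 + ε) * InnerProductGeometry.angle (F x : E3) (F x' : E3) := by
    intro x hx x' hx' hSA hre hSB hre'
    have hx1 : x ∈ ball x₀ r₁ := ball_subset_ball (hle₀.trans hle1) hx
    have hx1' : x' ∈ ball x₀ r₁ := ball_subset_ball (hle₀.trans hle1) hx'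
    have hxd : dist x x₀ < r := mem_ball.mp hx
    have hxd' : dist x' x₀ < r := mem_ball.mp hx'
    constructor
    · obtain ⟨m, m1, m2, m3⟩ := exists_cross hre hre'
      have b1 : ζ x ∈ ball (ζ x₀) r := by
        rw [mem_ball, dist_eq_norm, ← hζd x hx1 x₀ hx₀r]; exact hxd
      have b2 : ζ x' ∈ ball (ζ x₀) r := by
        rw [mem_ball, dist_eq_norm, ← hζd x' hx1' x₀ hx₀r]; exact hxd'
      have b3 := m3 _ _ b1 b2
      rw [mem_ball, dist_eq_norm] at b3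
      obtain ⟨w, hw, hwζ⟩ := ζsurj m (by
        have e : D.Z c₀ (D.βh θ₀) θ₀ = ζ x₀ := ζ0.symm
        rw [e]; exact b3.trans_le (hle₀.trans hle1))
      have hw' : w ∈ ball x₀ r₁ := hw
      have hwd : dist w x₀ < r := by
        rw [hζd w hw' x₀ hx₀r, hwζ]; exact b3
      obtain ⟨wA, wB⟩ := hII w hw' (by rw [hwζ]; exact m1)
      have e1 := (estA x hx1 w hw' (hxd.trans_le (hle₀.trans hleδA))
        (hwd.trans_le (hle₀.trans hleδA)) hSA wA).1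
      have e2 := (estB w hw' x' hx1' (hwd.trans_le (hle₀.trans hleδB))
        (hxd'.trans_le (hle₀.trans hleδB)) wB hSB).1
      have e3 : dist x w + dist w x' = dist x x' := by
        rw [hζd x hx1 w hw', hζd w hw' x' hx1', hζd x hx1 x' hx1', hwζ]; exact m2
      have e4 := InnerProductGeometry.angle_le_angle_add_angle (F x : E3) (F w : E3) (F x' : E3)
      calc _ ≤ (Λ ^ 2 + ε) * dist x w + (Λ ^ 2 + ε) * dist w x' := e4.trans (add_le_add e1 e2)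
        _ = (Λ ^ 2 + ε) * (dist x w + dist w x') := by ring
        _ = _ := by rw [e3]
    · -- the crossing point on the sphere
      obtain ⟨x₃, hx₃, hang⟩ : ∃ x₃ : ℝ, |x₃ - z₀.re| < min η₃ (S - |z₀.re|) ∧
          InnerProductGeometry.angle (F x : E3) (F x' : E3) =
          InnerProductGeometry.angle (F x : E3) (E a x₃ : E3) +
          InnerProductGeometry.angle (E a x₃ : E3) (F x' : E3) := by
        obtain ⟨u, hu, hu1, hu2, -⟩ := hSA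
        obtain ⟨u', hu', hu1', hu2', -⟩ := hSB
        have d1 : Sq B τ y u ∈ ball (z₀.re : ℂ) δ₃ := by
          rw [mem_ball, ← hw₀]
          exact h4 u hu (by rw [dist_eq_norm, hu1]; exact hxd.trans_le hle4)
        have d2 : Sq B τ y u' ∈ ball (z₀.re : ℂ) δ₃ := by
          rw [mem_ball, ← hw₀c]
          exact h5 u' hu' (by rw [dist_eq_norm, hu1']; exact hxd'.trans_le hle5)
        have i1 : |u.im - z₀.im| < |z₀.im| := by
          have h1 : |u.im - z₀.im| ≤ ‖u - z₀‖ := by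
            rw [← Complex.sub_im]; exact Complex.abs_im_le_norm _
          rw [hu1] at h1
          linarith
        have i2 : |u'.im + z₀.im| < |z₀.im| := by
          have h1 : |u'.im + z₀.im| ≤ ‖u' - (starRingEnd ℂ) z₀‖ := by
            have e : u'.im + z₀.im = (u' - (starRingEnd ℂ) z₀).im := by
              rw [Complex.sub_im, Complex.conj_im, sub_neg_eq_add]
            rw [e]; exact Complex.abs_im_le_norm _
          rw [hu1'] at h1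
          linarith
        rw [abs_lt] at i1 i2
        rcases lt_or_gt_of_ne hz₀im with hneg | hpos
        · rw [abs_of_neg hneg] at i1 i2
          obtain ⟨x₃, q1, q2⟩ := h3 _ d2 _ d1 ((hS5 u' hu').1 (by linarith [i2.1]))
            ((hS5 u hu).2.1 (by linarith [i1.2]))
          refine ⟨x₃, q1, ?_⟩
          rw [hu2, hu2', InnerProductGeometry.angle_comm, q2,
            InnerProductGeometry.angle_comm (E a (Sq B τ y u') : E3),
            InnerProductGeometry.angle_comm (E a (x₃ : ℂ) : E3) (E a (Sq B τ y u) : E3), add_comm]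
        · rw [abs_of_pos hpos] at i1 i2
          obtain ⟨x₃, q1, q2⟩ := h3 _ d1 _ d2 ((hS5 u hu).1 (by linarith [i1.1]))
            ((hS5 u' hu').2.1 (by linarith [i2.2]))
          refine ⟨x₃, q1, ?_⟩
          rw [hu2, hu2']; exact q2
      rw [lt_min_iff] at hx₃
      set w : X := F.symm (E a x₃) with hw
      have hFw : F w = E a x₃ := by rw [hw]; exact F.apply_symm_apply _
      have hwd : dist w x₀ < r₀ := by
        have h1 := hη₃' x₃ (by rw [Real.dist_eq]; exact hx₃.1)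
        have e : F.symm (E a (z₀.re : ℂ)) = x₀ := by rw [← hFx₀]; exact F.symm_apply_apply _
        rw [e] at h1
        exact h1
      have hw' : w ∈ ball x₀ r₁ := mem_ball.mpr (hwd.trans_le hle1)
      have hx₃π : a * |x₃| < Real.pi := by
        have h1 := abs_sub_abs_le_abs_sub x₃ z₀.re
        have h2 : |x₃| < S := by linarith [hx₃.2]
        rw [hadef, div_mul_eq_mul_div, div_lt_iff₀ Z.S_pos]
        exact mul_lt_mul_of_pos_left h2 Real.pi_pos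
      obtain ⟨wA, wB⟩ := hII w hw' (hIII w hw' (hwd.trans_le hleB) x₃ hx₃π hFw)
      have e1 := (estA x hx1 w hw' (hxd.trans_le (hle₀.trans hleδA))
        (hwd.trans_le hleδA) hSA wA).2
      have e2 := (estB w hw' x' hx1' (hwd.trans_le hleδB)
        (hxd'.trans_le (hle₀.trans hleδB)) wB hSB).2
      rw [hFw] at e1 e2
      calc dist x x' ≤ dist x w + dist w x' := dist_triangle _ _ _
        _ ≤ _ := add_le_add e1 e2
        _ = (Λ ^ 2 + ε) * (InnerProductGeometry.angle (F x : E3) (E a x₃ : E3) +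
          InnerProductGeometry.angle (E a x₃ : E3) (F x' : E3)) := by ring
        _ = _ := by rw [hang]
  refine ⟨r, hr0, ?_⟩
  intro x hx x' hx'
  have hx1 : x ∈ ball x₀ r₁ := ball_subset_ball (hle₀.trans hle1) hx
  have hx1' : x' ∈ ball x₀ r₁ := ball_subset_ball (hle₀.trans hle1) hx'
  have hxd : dist x x₀ < r := mem_ball.mp hx
  have hxd' : dist x' x₀ < r := mem_ball.mp hx'
  rcases hI x hx1 with ⟨h1, h2⟩ | ⟨h1, h2⟩ <;> rcases hI x' hx1' with ⟨h1', h2'⟩ | ⟨h1', h2'⟩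
  · exact estA x hx1 x' hx1' (hxd.trans_le (hle₀.trans hleδA)) (hxd'.trans_le (hle₀.trans hleδA))
      h1 h1'
  · exact mixed x hx x' hx' h1 h2 h1' h2'
  · have h := mixed x' hx' x hx h1' h2' h1 h2
    rw [dist_comm x x', InnerProductGeometry.angle_comm]
    exact h
  · exact estB x hx1 x' hx1' (hxd.trans_le (hle₀.trans hleδB)) (hxd'.trans_le (hle₀.trans hleδB))
      h1 h1'

end Pool.MP8e.Zero
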