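import Pool.Agent.Work.MP_8e9dbb.IfaceB
import Pool.Agent.Work.MP_8e9dbb.A.Calls
import Pool.Agent.Work.MP_8e9dbb.A.Sph1

/-!
# MP_8e9dbb_gt, `c0`: the surfaces of phase R' tend to the round sphere.  Statements of blocks.

`X` is compared with the unit sphere by the explicit map `F̂ = E ∘ Sq ∘ pol`:
* `pol (p, θ) = (S - s p) e^{iθ}`, `s p = ∫₀ᵖ A`, `S` = total length: azimuthal coordinate at the
  virtual south pole `O` (an isometry on the flat disc `p ≥ pf`, `R = S - s`);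
* `Sq` = vertical squeeze, maps the complement of the rhombus `|Y| < (B - |X|) τ` to the whole
  plane, both sides of the rhombus to the real axis; it is the identity for `|X| ≥ B` or `|Y| ≥ y`;
* `E` = exponential map of the sphere at its south pole, scaled by `a = π / S`.
All three are almost isometries when `t → 0`.
-/

open MeasureTheory Filter Topology Metric Set
open scoped ContDiff

namespace Pool.MP8e.Zero

/-! ## ZG: Lipschitz off a finite set -/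

/-- Paper proof: in a compact space with midpoints any two points `x, y` are joined by a shortest
curve `γ : [0, L] → Y`, `dist (γ s) (γ t) = |s - t|` (dyadic midpoints, completeness). `F ∘ γ` is
continuous, and locally `(Λ + ε)`-Lipschitz off the finite set `γ⁻¹ T` (`γ` is injective). -/
def Stmt_ZG : Prop := ∀ (Y Z : Type) [MetricSpace Y] [CompactSpace Y] [MetricSpace Z],
  (∀ x y : Y, ∃ z, dist x z = dist x y / 2 ∧ dist z y = dist x y / 2) →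
  ∀ (F : Y → Z) (T : Set Y) (Λ : ℝ), 0 ≤ Λ → Continuous F → T.Finite →
  (∀ q ∉ T, ∀ ε > 0, ∃ r > 0, ∀ x ∈ ball q r, ∀ y ∈ ball q r,
    dist (F x) (F y) ≤ (Λ + ε) * dist x y) → ∀ x y, dist (F x) (F y) ≤ Λ * dist x y

/-! ## ZE: the sphere chart -/

/-- exponential map at the south pole, scaled by `a` -/
noncomputable def Ev (a : ℝ) (z : ℂ) : E3 :=
  !₂[a * Real.sinc (a * ‖z‖) * z.re, a * Real.sinc (a * ‖z‖) * z.im, -Real.cos (a * ‖z‖)]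

theorem norm_Ev (a : ℝ) (z : ℂ) : ‖Ev a z‖ = 1 := by
  have h1 : a * ‖z‖ * Real.sinc (a * ‖z‖) = Real.sin (a * ‖z‖) := by
    rcases eq_or_ne (a * ‖z‖) 0 with h | h
    · rw [h]; simp
    · rw [Real.sinc_of_ne_zero h, ← mul_div_assoc, mul_div_cancel_left₀ _ h]
  have h2 : ‖z‖ ^ 2 = z.re ^ 2 + z.im ^ 2 := by
    rw [← Complex.normSq_eq_norm_sq, Complex.normSq_apply]; ring
  rw [EuclideanSpace.norm_eq, Real.sqrt_eq_one]
  simp only [Ev, Fin.sum_univ_three, Real.norm_eq_abs, sq_abs]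
  simp
  have h3 := Real.sin_sq_add_cos_sq (a * ‖z‖)
  rw [← h1] at h3
  calc (a * Real.sinc (a * ‖z‖) * z.re) ^ 2 + (a * Real.sinc (a * ‖z‖) * z.im) ^ 2 +
        Real.cos (a * ‖z‖) ^ 2
      = (a * Real.sinc (a * ‖z‖)) ^ 2 * (z.re ^ 2 + z.im ^ 2) + Real.cos (a * ‖z‖) ^ 2 := by ring
    _ = (a * Real.sinc (a * ‖z‖)) ^ 2 * ‖z‖ ^ 2 + Real.cos (a * ‖z‖) ^ 2 := by rw [h2]
    _ = 1 := by linear_combination h3

/-- the chart `ℂ → S²` -/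
noncomputable def E (a : ℝ) (z : ℂ) : S2 := ⟨Ev a z, by simpa using norm_Ev a z⟩

/-- the norm of the metric of the sphere in this chart at `z ≠ 0` -/
noncomputable def En (a : ℝ) (z v : ℂ) : ℝ :=
  √((a * (v * (starRingEnd ℂ) z / ‖z‖).re) ^ 2 +
    (Real.sin (a * ‖z‖) / ‖z‖ * (v * (starRingEnd ℂ) z / ‖z‖).im) ^ 2)

/-- ZE1: infinitesimal distance (use the chord distance and `chord`, `chord_cube` of A/Sph1) -/
def Stmt_ZE1 : Prop := ∀ (a : ℝ) (z : ℂ), 0 < a → z ≠ 0 → a * ‖z‖ < Real.pi → ∀ ε > 0, ∃ δ > 0,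
  ∀ z₁ ∈ ball z δ, ∀ z₂ ∈ ball z δ,
    |InnerProductGeometry.angle (E a z₁ : E3) (E a z₂ : E3) - En a z (z₁ - z₂)| ≤ ε * ‖z₁ - z₂‖

/-- ZE2: the chart is a continuous bijection of the disc of radius `π/a` (with its boundary
collapsed) onto the sphere -/
def Stmt_ZE2 : Prop := ∀ a : ℝ, 0 < a → Continuous (E a) ∧
  (∀ s : S2, ∃ z : ℂ, a * ‖z‖ ≤ Real.pi ∧ E a z = s) ∧
  (∀ z z' : ℂ, a * ‖z‖ ≤ Real.pi → a * ‖z'‖ ≤ Real.pi → E a z = E a z' →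
    z = z' ∨ (a * ‖z‖ = Real.pi ∧ a * ‖z'‖ = Real.pi)) ∧
  (∀ z z' : ℂ, a * ‖z‖ = Real.pi → a * ‖z'‖ = Real.pi → E a z = E a z')

/-- ZE3: the shortest arc between points on different sides of the real axis crosses it. -/
def Stmt_ZE3 : Prop := ∀ (a x₀ : ℝ), 0 < a → x₀ ≠ 0 → a * |x₀| < Real.pi → ∀ η > 0, ∃ δ > 0,
  ∀ z₁ ∈ ball (x₀ : ℂ) δ, ∀ z₂ ∈ ball (x₀ : ℂ) δ, 0 ≤ z₁.im → z₂.im ≤ 0 →
    ∃ x₃ : ℝ, |x₃ - x₀| < η ∧ InnerProductGeometry.angle (E a z₁ : E3) (E a z₂ : E3) =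
      InnerProductGeometry.angle (E a z₁ : E3) (E a x₃ : E3) +
      InnerProductGeometry.angle (E a x₃ : E3) (E a z₂ : E3)

/-! ## ZS: the squeeze -/

/-- half height of the rhombus over `X` -/
noncomputable def fr (B τ X : ℝ) : ℝ := max 0 ((B - |X|) * τ)

/-- squeezed ordinate, for `Y ≥ fr` -/
noncomputable def sq1 (B τ y X Y : ℝ) : ℝ := Y - fr B τ X * max 0 (y - Y) / (y - fr B τ X)

/-- the squeeze -/
noncomputable def Sq (B τ y : ℝ) (z : ℂ) : ℂ :=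
  if 0 ≤ z.im then ⟨z.re, sq1 B τ y z.re z.im⟩ else ⟨z.re, -sq1 B τ y z.re (-z.im)⟩

/-- the closed complement of the rhombus -/
def Out (B τ : ℝ) : Set ℂ := {z | fr B τ z.re ≤ |z.im|}

/-- ZS. `e = Bτ/(y - Bτ) + (1 + Bτ/(y - Bτ)) τ`. For (1): the perturbation
`φ(f, Y) = f (y - Y)₊/(y - f)` is Lipschitz on the convex set `0 ≤ f ≤ Bτ`, `Y ≥ f`, with constant
`Bτ/(y-Bτ)` in `Y` and `1 + Bτ/(y-Bτ)` in `f`, and `fr` is `τ`-Lipschitz. -/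
def Stmt_ZS : Prop := ∀ (B τ y : ℝ), 0 < B → 0 < τ → B * τ < y →
  (∀ z ∈ Out B τ, ∀ z' ∈ Out B τ, ((0 ≤ z.im ∧ 0 ≤ z'.im) ∨ (z.im ≤ 0 ∧ z'.im ≤ 0)) →
    |‖Sq B τ y z - Sq B τ y z'‖ - ‖z - z'‖| ≤
      (B * τ / (y - B * τ) + (1 + B * τ / (y - B * τ)) * τ) * ‖z - z'‖) ∧
  (∀ z ∈ Out B τ, Sq B τ y ((starRingEnd ℂ) z) = (starRingEnd ℂ) (Sq B τ y z)) ∧
  (∀ z, (Sq B τ y z).re = z.re) ∧ (∀ z, (B ≤ |z.re| ∨ y ≤ |z.im|) → Sq B τ y z = z) ∧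
  (∀ z ∈ Out B τ, (0 ≤ z.im → 0 ≤ (Sq B τ y z).im) ∧ (z.im ≤ 0 → (Sq B τ y z).im ≤ 0) ∧
    ((Sq B τ y z).im = 0 ↔ |z.im| = fr B τ z.re) ∧ |(Sq B τ y z).im| ≤ |z.im|) ∧
  (∀ w : ℂ, ∃ z ∈ Out B τ, Sq B τ y z = w) ∧
  (∀ z ∈ Out B τ, ∀ z' ∈ Out B τ, Sq B τ y z = Sq B τ y z' →
    z = z' ∨ (z' = (starRingEnd ℂ) z ∧ |z.im| = fr B τ z.re)) ∧
  ContinuousOn (Sq B τ y) (Out B τ)

/-! ## the data -/

/-- arc length from the pole -/
noncomputable def sl (D : QD) (p : ℝ) : ℝ := ∫ u in (0:ℝ)..p, D.A u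

/-- azimuthal coordinate at the virtual south pole -/
noncomputable def pol (D : QD) (S : ℝ) (q : ℝ × ℝ) : ℂ :=
  ((S - sl D q.1 : ℝ) : ℂ) * Complex.exp ((q.2 : ℝ) * Complex.I)

/-- The comparison data: `S` total length, rhombus `B`, `τ`, height `y` of the squeeze, `Λ` the
constant. -/
structure ZData (D : QD) (S B τ y Λ : ℝ) : Prop where
  κ_eq : D.κ = -1
  S_pos : 0 < S
  B_pos : 0 < B
  τ_pos : 0 < τ
  hB : B = D.R (D.β 0)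
  hτ : τ = Real.cos D.θf / Real.sin D.θf
  y_gt : B * τ < y
  y_lt : B ^ 2 + y ^ 2 < D.R D.pf ^ 2
  hS : ∀ p ∈ Icc D.pf D.ℓ, D.R p = S - sl D p
  Λ_ge : 1 ≤ Λ
  r1 : Real.pi / S ≤ Λ
  r2 : 1 ≤ Λ * (Real.pi / S)
  r3 : ∀ p ∈ Ioc 0 D.ℓ, Real.sin (Real.pi / S * sl D p) ≤ Λ * D.R p
  r4 : ∀ p ∈ Ioc 0 D.ℓ, D.R p ≤ Λ * Real.sin (Real.pi / S * sl D p)
  sq : B * τ / (y - B * τ) + (1 + B * τ / (y - B * τ)) * τ ≤ 1 - 1 / Λ

/-- the comparison map in coordinates -/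
noncomputable def Fh (D : QD) (S B τ y : ℝ) (q : ℝ × ℝ) : S2 :=
  E (Real.pi / S) (Sq B τ y (pol D S q))

/-- the closed strip -/
def Kst (D : QD) : Set (ℝ × ℝ) := {q | 0 ≤ q.1 ∧ q.1 ≤ D.βh q.2}

/-- ZB: `pol` maps the closed strip onto the part of the closed disc of radius `S` outside the
rhombus, the floor to its boundary; `F̂` is continuous on the closed strip, onto, and has the same
fibres as `Pr`. Hypotheses ZE2, ZS. -/
def Stmt_ZB : Prop := ∀ (D : QD) (S B τ y Λ : ℝ), ZData D S B τ y Λ →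
  (∀ q ∈ Kst D, pol D S q ∈ Out B τ ∧ ‖pol D S q‖ ≤ S) ∧
  (∀ q ∈ Kst D, (q.1 = D.βh q.2 ↔
    |(pol D S q).im| = fr B τ (pol D S q).re ∧ |(pol D S q).re| ≤ B)) ∧
  ContinuousOn (Fh D S B τ y) (Kst D) ∧ (∀ s : S2, ∃ q ∈ Kst D, Fh D S B τ y q = s) ∧
  ∀ (X : Type) [MetricSpace X] (Pr : ℝ × ℝ → X), Facts D X Pr → ∀ q ∈ Kst D, ∀ q' ∈ Kst D,
    (Fh D S B τ y q = Fh D S B τ y q' ↔ Pr q = Pr q')

/-- ZH: hence a homeomorphism (as in A/Homeo.lean; general quotient argument). -/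
def Stmt_ZH : Prop := ∀ (D : QD) (X Y : Type) [MetricSpace X] [MetricSpace Y] (Pr : ℝ × ℝ → X),
  Facts D X Pr → ∀ H : ℝ × ℝ → Y, ContinuousOn H (Kst D) → (∀ s : Y, ∃ q ∈ Kst D, H q = s) →
  (∀ q ∈ Kst D, ∀ q' ∈ Kst D, (H q = H q' ↔ Pr q = Pr q')) →
  ∃ F : X ≃ₜ Y, ∀ q ∈ Kst D, F (Pr q) = H q

/-- two sided local estimate at a point of `X` -/
def LocEst {X : Type} [MetricSpace X] (F : X → S2) (Λ : ℝ) (x₀ : X) : Prop := ∀ ε > 0, ∃ r > 0, ∀ x ∈ ball x₀ r, ∀ y ∈ ball x₀ r,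
  InnerProductGeometry.angle (F x : E3) (F y : E3) ≤ (Λ ^ 2 + ε) * dist x y ∧
  dist x y ≤ (Λ ^ 2 + ε) * InnerProductGeometry.angle (F x : E3) (F y : E3)

/-- ZL1: local estimate at the points of the strip where `R p > √(B² + y²)` or `p < pf`
(there `Sq = id` near `pol q`). -/
def Stmt_ZL1 : Prop := ∀ (D : QD) (S B τ y Λ : ℝ), ZData D S B τ y Λ →
  ∀ (X : Type) [MetricSpace X] (Pr : ℝ × ℝ → X), Facts D X Pr → ∀ F : X ≃ₜ S2,
  (∀ q ∈ Kst D, F (Pr q) = Fh D S B τ y q) → ∀ q : ℝ × ℝ, D.InS q → q.1 ≤ D.pf →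
  LocEst F Λ (Pr q)

/-- ZL2: local estimate at the points of the strip in the flat part. -/
def Stmt_ZL2 : Prop := ∀ (D : QD) (S B τ y Λ : ℝ), ZData D S B τ y Λ →
  ∀ (X : Type) [MetricSpace X] (Pr : ℝ × ℝ → X), Facts D X Pr → ∀ F : X ≃ₜ S2,
  (∀ q ∈ Kst D, F (Pr q) = Fh D S B τ y q) → ∀ q : ℝ × ℝ, D.InS q → D.pf < q.1 →
  LocEst F Λ (Pr q)

/-- ZL3: local estimate at the regular points of the floor. -/
def Stmt_ZL3 : Prop := ∀ (D : QD) (S B τ y Λ : ℝ), ZData D S B τ y Λ →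
  ∀ (X : Type) [MetricSpace X] (Pr : ℝ × ℝ → X), Facts D X Pr → ∀ F : X ≃ₜ S2,
  (∀ q ∈ Kst D, F (Pr q) = Fh D S B τ y q) → ∀ θ₀ c₀, D.IsFoot θ₀ c₀ →
  LocEst F Λ (Pr (D.fl θ₀))

/-- ZA: assembly (ZG in both directions; the finite set is the set of the special points, resp.
its image). -/
def Stmt_ZA : Prop := ∀ (D : QD) (S B τ y Λ : ℝ), ZData D S B τ y Λ →
  ∀ (h : ConeSphere) (Pr : ℝ × ℝ → h.X), Facts D h.X Pr → ∀ g : ConeSphere, IsRound g →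
  LipClose g h (2 * Real.log Λ)

end Pool.MP8e.Zero
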