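import Pool.Agent.Work.MP_8e9dbb.Z.IfaceZ

/-!
# MP_8e9dbb_gt, block ZS: the planar squeeze (helper41)
-/

open MeasureTheory Filter Topology Metric Set
open scoped ContDiff

namespace Pool.MP8e.Zero

namespace ZS

/-- the perturbation -/
noncomputable def gg (y f Y : ℝ) : ℝ := f * max 0 (y - Y) / (y - f)

theorem fr_nonneg (B τ X : ℝ) : 0 ≤ fr B τ X := le_max_left _ _

theorem fr_le {B τ : ℝ} (hB : 0 < B) (hτ : 0 < τ) (X : ℝ) : fr B τ X ≤ B * τ := by
  unfold fr
  refine max_le (by positivity) ?_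
  nlinarith [abs_nonneg X]

theorem fr_lip {τ : ℝ} (B : ℝ) (hτ : 0 < τ) (X X' : ℝ) :
    |fr B τ X - fr B τ X'| ≤ τ * |X - X'| := by
  unfold fr
  have h1 : |max 0 ((B - |X|) * τ) - max 0 ((B - |X'|) * τ)| ≤
      |(B - |X|) * τ - (B - |X'|) * τ| := by
    have := abs_max_sub_max_le_max (0 : ℝ) ((B - |X|) * τ) 0 ((B - |X'|) * τ)
    simpa using this
  refine h1.trans ?_
  have h2 : (B - |X|) * τ - (B - |X'|) * τ = τ * (|X'| - |X|) := by ring
  rw [h2, abs_mul, abs_of_pos hτ]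
  refine mul_le_mul_of_nonneg_left ?_ hτ.le
  rw [abs_sub_comm X X']
  exact abs_abs_sub_abs_le X' X

theorem gg_Y {M y f : ℝ} (hf0 : 0 ≤ f) (hfM : f ≤ M) (hM : M < y) (Y Y' : ℝ) :
    |gg y f Y - gg y f Y'| ≤ M / (y - M) * |Y - Y'| := by
  have hyf : 0 < y - f := by linarith
  have hyM : 0 < y - M := by linarith
  have h1 : gg y f Y - gg y f Y' = f / (y - f) * (max 0 (y - Y) - max 0 (y - Y')) := by
    unfold gg
    field_simp
  rw [h1, abs_mul, abs_of_nonneg (div_nonneg hf0 hyf.le)]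
  have h2 : |max 0 (y - Y) - max 0 (y - Y')| ≤ |Y - Y'| := by
    have := abs_max_sub_max_le_max (0 : ℝ) (y - Y) 0 (y - Y')
    have h3 : |y - Y - (y - Y')| = |Y - Y'| := by
      rw [abs_sub_comm Y Y']
      congr 1
      ring
    rw [h3] at this
    simpa using this
  have h4 : f / (y - f) ≤ M / (y - M) := by
    rw [div_le_div_iff₀ hyf hyM]
    nlinarith
  exact mul_le_mul h4 h2 (abs_nonneg _) (div_nonneg (hf0.trans hfM) hyM.le)

theorem gg_f {M y f f' Y : ℝ} (hf0 : 0 ≤ f) (hff : f ≤ f') (hfM : f' ≤ M) (hM : M < y)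
    (hY : f' ≤ Y) : |gg y f Y - gg y f' Y| ≤ (1 + M / (y - M)) * (f' - f) := by
  have hyf : 0 < y - f := by linarith
  have hyf' : 0 < y - f' := by linarith
  have hyM : 0 < y - M := by linarith
  have hy : 0 < y := by linarith
  have h1 : gg y f Y - gg y f' Y =
      -(y / (y - f) * (max 0 (y - Y) / (y - f')) * (f' - f)) := by
    unfold gg
    field_simp
    ring
  have h0 : 0 ≤ max 0 (y - Y) := le_max_left _ _
  have h2 : max 0 (y - Y) / (y - f') ≤ 1 := by
    rw [div_le_one hyf']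
    exact max_le hyf'.le (by linarith)
  have h3 : 0 ≤ max 0 (y - Y) / (y - f') := div_nonneg h0 hyf'.le
  have h4 : y / (y - f) ≤ 1 + M / (y - M) := by
    have h5 : 1 + M / (y - M) = y / (y - M) := by
      field_simp
      ring
    rw [h5]
    exact div_le_div_of_nonneg_left hy.le hyM (by linarith)
  have h6 : 0 ≤ y / (y - f) := div_nonneg hy.le hyf.le
  rw [h1, abs_neg, abs_of_nonneg (mul_nonneg (mul_nonneg h6 h3) (by linarith))]
  refine mul_le_mul_of_nonneg_right ?_ (by linarith)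
  calc y / (y - f) * (max 0 (y - Y) / (y - f')) ≤ y / (y - f) * 1 :=
        mul_le_mul_of_nonneg_left h2 h6
    _ = y / (y - f) := mul_one _
    _ ≤ _ := h4

theorem gg_f' {M y f f' Y : ℝ} (hf0 : 0 ≤ f) (hf0' : 0 ≤ f') (hfM : f ≤ M) (hfM' : f' ≤ M)
    (hM : M < y) (hY : f ≤ Y) (hY' : f' ≤ Y) :
    |gg y f Y - gg y f' Y| ≤ (1 + M / (y - M)) * |f - f'| := by
  rcases le_total f f' with h | h
  · have := gg_f hf0 h hfM' hM hY'
    rw [abs_sub_comm f f', abs_of_nonneg (sub_nonneg.2 h)]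
    exact this
  · have := gg_f hf0' h hfM hM hY
    rw [abs_sub_comm, abs_of_nonneg (sub_nonneg.2 h)]
    exact this

theorem gg_lip {M y f f' Y Y' : ℝ} (hf0 : 0 ≤ f) (hf0' : 0 ≤ f') (hfM : f ≤ M) (hfM' : f' ≤ M)
    (hM : M < y) (hY : f ≤ Y) (hY' : f' ≤ Y') :
    |gg y f Y - gg y f' Y'| ≤ M / (y - M) * |Y - Y'| + (1 + M / (y - M)) * |f - f'| := by
  by_cases h : f' ≤ Y
  · have h1 := gg_f' hf0 hf0' hfM hfM' hM hY h
    have h2 := gg_Y hf0' hfM' hM Y Y'
    have h3 := abs_sub_le (gg y f Y) (gg y f' Y) (gg y f' Y')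
    linarith
  · push Not at h
    have h1 := gg_f' hf0 hf0' hfM hfM' hM (Y := Y') (by linarith) hY'
    have h2 := gg_Y hf0 hfM hM Y Y'
    have h3 := abs_sub_le (gg y f Y) (gg y f Y') (gg y f' Y')
    linarith

section

variable {B τ y : ℝ}

theorem sq1_eq (X Y : ℝ) : sq1 B τ y X Y = Y - gg y (fr B τ X) Y := rfl

theorem sq1_mid (hB : 0 < B) (hτ : 0 < τ) (hy : B * τ < y) {X Y : ℝ} (hY : Y ≤ y) :
    sq1 B τ y X Y = y * (Y - fr B τ X) / (y - fr B τ X) := by
  have h1 := fr_le hB hτ X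
  have h2 : 0 < y - fr B τ X := by linarith
  unfold sq1
  rw [max_eq_right (by linarith : (0 : ℝ) ≤ y - Y)]
  field_simp
  ring

theorem sq1_top {X Y : ℝ} (hY : y ≤ Y) : sq1 B τ y X Y = Y := by
  unfold sq1
  rw [max_eq_left (by linarith : y - Y ≤ 0)]
  simp

theorem sq1_out {X Y : ℝ} (hX : fr B τ X = 0) : sq1 B τ y X Y = Y := by
  unfold sq1
  rw [hX]
  simp

theorem sq1_le (hB : 0 < B) (hτ : 0 < τ) (hy : B * τ < y) (X Y : ℝ) : sq1 B τ y X Y ≤ Y := by
  have h1 := fr_le hB hτ X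
  have h2 : 0 < y - fr B τ X := by linarith
  have h3 : 0 ≤ fr B τ X * max 0 (y - Y) / (y - fr B τ X) :=
    div_nonneg (mul_nonneg (fr_nonneg _ _ _) (le_max_left _ _)) h2.le
  unfold sq1
  linarith

theorem sq1_nonneg (hB : 0 < B) (hτ : 0 < τ) (hy : B * τ < y) {X Y : ℝ} (hY : fr B τ X ≤ Y) :
    0 ≤ sq1 B τ y X Y := by
  have h1 := fr_le hB hτ X
  have h2 : 0 < y - fr B τ X := by linarith
  have h0 := fr_nonneg B τ X
  rcases le_total Y y with h | h
  · rw [sq1_mid hB hτ hy h]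
    exact div_nonneg (mul_nonneg (by linarith) (by linarith)) h2.le
  · rw [sq1_top h]
    linarith

theorem sq1_eq_zero (hB : 0 < B) (hτ : 0 < τ) (hy : B * τ < y) {X Y : ℝ} :
    sq1 B τ y X Y = 0 ↔ Y = fr B τ X := by
  have h1 := fr_le hB hτ X
  have h2 : 0 < y - fr B τ X := by linarith
  have h0 := fr_nonneg B τ X
  have hy0 : 0 < y := by linarith
  rcases le_total Y y with h | h
  · rw [sq1_mid hB hτ hy h, div_eq_zero_iff, mul_eq_zero]
    constructor
    · rintro ((h3 | h3) | h3)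
      · exact absurd h3 hy0.ne'
      · linarith
      · exact absurd h3 h2.ne'
    · intro h3
      left; right; linarith
  · rw [sq1_top h]
    constructor
    · intro h3; linarith
    · intro h3; linarith

theorem sq1_inj (hB : 0 < B) (hτ : 0 < τ) (hy : B * τ < y) {X Y Y' : ℝ}
    (h : sq1 B τ y X Y = sq1 B τ y X Y') : Y = Y' := by
  have h1 := fr_le hB hτ X
  have h2 : 0 < y - fr B τ X := by linarith
  have h0 := fr_nonneg B τ X
  have hy0 : 0 < y := by linarith
  rcases le_total Y y with h3 | h3 <;> rcases le_total Y' y with h4 | h4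
  · rw [sq1_mid hB hτ hy h3, sq1_mid hB hτ hy h4, div_left_inj' h2.ne'] at h
    have := mul_left_cancel₀ hy0.ne' h
    linarith
  · rw [sq1_mid hB hτ hy h3, sq1_top h4, div_eq_iff h2.ne'] at h
    nlinarith
  · rw [sq1_top h3, sq1_mid hB hτ hy h4, eq_div_iff h2.ne'] at h
    nlinarith
  · rwa [sq1_top h3, sq1_top h4] at h

theorem Sq_re (z : ℂ) : (Sq B τ y z).re = z.re := by
  unfold Sq
  split_ifs <;> rfl

theorem Sq_im_up {z : ℂ} (h : 0 ≤ z.im) : (Sq B τ y z).im = sq1 B τ y z.re z.im := by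
  unfold Sq
  rw [if_pos h]

theorem Sq_im_down (_hB : 0 < B) (_hτ : 0 < τ) {z : ℂ} (hz : z ∈ Out B τ) (h : z.im ≤ 0) :
    (Sq B τ y z).im = -sq1 B τ y z.re (-z.im) := by
  rcases h.lt_or_eq with h1 | h1
  · unfold Sq
    rw [if_neg (not_le.2 h1)]
  · have h2 : fr B τ z.re = 0 := by
      have h3 : fr B τ z.re ≤ |z.im| := hz
      rw [h1, abs_zero] at h3
      exact le_antisymm h3 (fr_nonneg _ _ _)
    rw [Sq_im_up h1.ge, sq1_out h2, sq1_out h2, neg_neg]

theorem conj_Out {z : ℂ} (hz : z ∈ Out B τ) : (starRingEnd ℂ) z ∈ Out B τ := by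
  change fr B τ ((starRingEnd ℂ) z).re ≤ |((starRingEnd ℂ) z).im|
  rw [Complex.conj_re, Complex.conj_im, abs_neg]
  exact hz

theorem Sq_conj (hB : 0 < B) (hτ : 0 < τ) {z : ℂ} (hz : z ∈ Out B τ) :
    Sq B τ y ((starRingEnd ℂ) z) = (starRingEnd ℂ) (Sq B τ y z) := by
  apply Complex.ext
  · rw [Sq_re, Complex.conj_re, Complex.conj_re, Sq_re]
  · rw [Complex.conj_im]
    rcases le_total 0 z.im with h | h
    · rw [Sq_im_up h, Sq_im_down hB hτ (conj_Out hz) (by rw [Complex.conj_im]; linarith),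
        Complex.conj_re, Complex.conj_im, neg_neg]
    · rw [Sq_im_down hB hτ hz h, Sq_im_up (by rw [Complex.conj_im]; linarith),
        Complex.conj_re, Complex.conj_im, neg_neg]

theorem est_up (hB : 0 < B) (hτ : 0 < τ) (hy : B * τ < y) {z z' : ℂ} (hz : z ∈ Out B τ)
    (hz' : z' ∈ Out B τ) (h : 0 ≤ z.im) (h' : 0 ≤ z'.im) :
    |‖Sq B τ y z - Sq B τ y z'‖ - ‖z - z'‖| ≤
      (B * τ / (y - B * τ) + (1 + B * τ / (y - B * τ)) * τ) * ‖z - z'‖ := by
  have hzf : fr B τ z.re ≤ z.im := by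
    have : fr B τ z.re ≤ |z.im| := hz
    rwa [abs_of_nonneg h] at this
  have hzf' : fr B τ z'.re ≤ z'.im := by
    have : fr B τ z'.re ≤ |z'.im| := hz'
    rwa [abs_of_nonneg h'] at this
  have h1 : Sq B τ y z - Sq B τ y z' = (z - z') -
      ((gg y (fr B τ z.re) z.im - gg y (fr B τ z'.re) z'.im : ℝ) : ℂ) * Complex.I := by
    apply Complex.ext
    · simp [Sq_re]
    · simp only [Complex.sub_im, Sq_im_up h, Sq_im_up h', sq1_eq, Complex.mul_im,
        Complex.ofReal_re, Complex.ofReal_im, Complex.I_re, Complex.I_im]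
      ring
  have h2 : |‖Sq B τ y z - Sq B τ y z'‖ - ‖z - z'‖| ≤
      |gg y (fr B τ z.re) z.im - gg y (fr B τ z'.re) z'.im| := by
    refine (abs_norm_sub_norm_le _ _).trans ?_
    rw [h1]
    have h3 : z - z' - ((gg y (fr B τ z.re) z.im - gg y (fr B τ z'.re) z'.im : ℝ) : ℂ) *
        Complex.I - (z - z') =
        -(((gg y (fr B τ z.re) z.im - gg y (fr B τ z'.re) z'.im : ℝ) : ℂ) * Complex.I) := by ring
    rw [h3, norm_neg, norm_mul, Complex.norm_I, mul_one, Complex.norm_real, Real.norm_eq_abs]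
  refine h2.trans ((gg_lip (fr_nonneg _ _ _) (fr_nonneg _ _ _) (fr_le hB hτ _) (fr_le hB hτ _) hy
    hzf hzf').trans ?_)
  have hK : 0 ≤ B * τ / (y - B * τ) := div_nonneg (by positivity) (by linarith)
  have h4 : |z.im - z'.im| ≤ ‖z - z'‖ := by
    rw [← Complex.sub_im]
    exact Complex.abs_im_le_norm _
  have h5 : |fr B τ z.re - fr B τ z'.re| ≤ τ * ‖z - z'‖ := by
    refine (fr_lip B hτ _ _).trans (mul_le_mul_of_nonneg_left ?_ hτ.le)
    rw [← Complex.sub_re]
    exact Complex.abs_re_le_norm _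
  have h6 := mul_le_mul_of_nonneg_left h4 hK
  have h7 := mul_le_mul_of_nonneg_left h5 (by linarith : 0 ≤ 1 + B * τ / (y - B * τ))
  calc _ ≤ B * τ / (y - B * τ) * ‖z - z'‖ + (1 + B * τ / (y - B * τ)) * (τ * ‖z - z'‖) :=
        add_le_add h6 h7
    _ = _ := by ring

theorem est (hB : 0 < B) (hτ : 0 < τ) (hy : B * τ < y) {z z' : ℂ} (hz : z ∈ Out B τ)
    (hz' : z' ∈ Out B τ) (h : (0 ≤ z.im ∧ 0 ≤ z'.im) ∨ (z.im ≤ 0 ∧ z'.im ≤ 0)) :
    |‖Sq B τ y z - Sq B τ y z'‖ - ‖z - z'‖| ≤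
      (B * τ / (y - B * τ) + (1 + B * τ / (y - B * τ)) * τ) * ‖z - z'‖ := by
  rcases h with ⟨h, h'⟩ | ⟨h, h'⟩
  · exact est_up hB hτ hy hz hz' h h'
  · have h1 := est_up hB hτ hy (conj_Out hz) (conj_Out hz') (by rw [Complex.conj_im]; linarith)
      (by rw [Complex.conj_im]; linarith)
    rw [Sq_conj hB hτ hz, Sq_conj hB hτ hz', ← map_sub, ← map_sub, Complex.norm_conj,
      Complex.norm_conj] at h1
    exact h1

theorem cont_half (hB : 0 < B) (hτ : 0 < τ) (hy : B * τ < y) {s : Set ℂ} (hs : s ⊆ Out B τ)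
    (h : ∀ z ∈ s, ∀ z' ∈ s, (0 ≤ z.im ∧ 0 ≤ z'.im) ∨ (z.im ≤ 0 ∧ z'.im ≤ 0)) :
    ContinuousOn (Sq B τ y) s := by
  have hK : 0 ≤ B * τ / (y - B * τ) := div_nonneg (by positivity) (by linarith)
  set e := B * τ / (y - B * τ) + (1 + B * τ / (y - B * τ)) * τ with he
  have he0 : 0 ≤ e := by positivity
  have hL : LipschitzOnWith (Real.toNNReal (1 + e)) (Sq B τ y) s := by
    refine LipschitzOnWith.of_dist_le_mul fun z hz z' hz' => ?_
    rw [Real.coe_toNNReal _ (by linarith), dist_eq_norm, dist_eq_norm]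
    have h1 := est hB hτ hy (hs hz) (hs hz') (h z hz z' hz')
    have h2 := (abs_le.1 h1).2
    rw [← he] at h2
    linarith
  exact hL.continuousOn

theorem isClosed_Out (B τ : ℝ) : IsClosed (Out B τ) := by
  have h1 : Continuous fun z : ℂ => fr B τ z.re := by
    unfold fr
    fun_prop
  exact isClosed_le h1 (continuous_abs.comp Complex.continuous_im)

end

end ZS

open ZS

theorem zs_proof : Stmt_ZS := by
  intro B τ y hB hτ hy
  have hy0 : 0 < y := lt_trans (by positivity) hy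
  refine ⟨fun z hz z' hz' h => est hB hτ hy hz hz' h, fun z hz => Sq_conj hB hτ hz,
    fun z => Sq_re z, ?_, ?_, ?_, ?_, ?_⟩
  · intro z hz
    apply Complex.ext
    · exact Sq_re z
    · have key : ∀ Y : ℝ, (B ≤ |z.re| ∨ y ≤ Y) → sq1 B τ y z.re Y = Y := by
        intro Y hY
        rcases hY with h | h
        · refine sq1_out ?_
          unfold fr
          refine max_eq_left ?_
          nlinarith
        · exact sq1_top h
      unfold Sq
      split_ifs with h
      · refine key _ ?_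
        rwa [abs_of_nonneg h] at hz
      · push Not at h
        change -sq1 B τ y z.re (-z.im) = z.im
        rw [key (-z.im) ?_, neg_neg]
        rwa [abs_of_neg h] at hz
  · intro z hz
    have hz' : fr B τ z.re ≤ |z.im| := hz
    have key : ∀ Y : ℝ, fr B τ z.re ≤ Y → 0 ≤ sq1 B τ y z.re Y ∧
        (sq1 B τ y z.re Y = 0 ↔ Y = fr B τ z.re) ∧ sq1 B τ y z.re Y ≤ Y := fun Y hY =>
      ⟨sq1_nonneg hB hτ hy hY, sq1_eq_zero hB hτ hy, sq1_le hB hτ hy _ _⟩
    rcases le_total 0 z.im with h | h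
    · rw [abs_of_nonneg h] at hz' ⊢
      obtain ⟨k1, k2, k3⟩ := key _ hz'
      rw [Sq_im_up h]
      refine ⟨fun _ => k1, fun h0 => ?_, k2, by rw [abs_of_nonneg k1]; exact k3⟩
      have : z.im = 0 := le_antisymm h0 h
      rw [this] at k3 ⊢
      exact k3
    · rw [abs_of_nonpos h] at hz' ⊢
      obtain ⟨k1, k2, k3⟩ := key _ hz'
      rw [Sq_im_down hB hτ hz h]
      refine ⟨fun h0 => ?_, fun _ => by linarith, by rw [neg_eq_zero]; exact k2, by
        rw [abs_neg, abs_of_nonneg k1]; exact k3⟩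
      have : z.im = 0 := le_antisymm h h0
      rw [this, neg_zero] at k3 ⊢
      linarith
  · intro w
    have key : ∀ w : ℂ, 0 ≤ w.im → ∃ z ∈ Out B τ, Sq B τ y z = w := by
      intro w hw
      have h1 := fr_le hB hτ w.re
      have h0 := fr_nonneg B τ w.re
      have h2 : 0 < y - fr B τ w.re := by linarith
      rcases le_total w.im y with h | h
      · have h3 : 0 ≤ w.im * (y - fr B τ w.re) / y := div_nonneg (mul_nonneg hw h2.le) hy0.le
        have h3' : w.im * (y - fr B τ w.re) / y ≤ y - fr B τ w.re := by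
          rw [div_le_iff₀ hy0]
          nlinarith
        refine ⟨⟨w.re, fr B τ w.re + w.im * (y - fr B τ w.re) / y⟩, ?_, ?_⟩
        · change fr B τ w.re ≤ |fr B τ w.re + w.im * (y - fr B τ w.re) / y|
          rw [abs_of_nonneg (by linarith)]
          linarith
        · apply Complex.ext
          · exact Sq_re _
          · rw [Sq_im_up (by change 0 ≤ fr B τ w.re + w.im * (y - fr B τ w.re) / y; linarith)]
            change sq1 B τ y w.re (fr B τ w.re + w.im * (y - fr B τ w.re) / y) = w.im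
            rw [sq1_mid hB hτ hy (by linarith)]
            field_simp
            ring
      · refine ⟨w, ?_, ?_⟩
        · change fr B τ w.re ≤ |w.im|
          rw [abs_of_nonneg hw]
          linarith
        · apply Complex.ext
          · exact Sq_re _
          · rw [Sq_im_up hw, sq1_top h]
    rcases le_total 0 w.im with h | h
    · exact key w h
    · obtain ⟨z, hz, hzw⟩ := key ((starRingEnd ℂ) w) (by rw [Complex.conj_im]; linarith)
      refine ⟨(starRingEnd ℂ) z, conj_Out hz, ?_⟩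
      rw [Sq_conj hB hτ hz, hzw, Complex.conj_conj]
  · intro z hz z' hz' h
    have hre : z.re = z'.re := by
      have := congrArg Complex.re h
      rwa [Sq_re, Sq_re] at this
    have him := congrArg Complex.im h
    have mixed : ∀ a b : ℂ, a ∈ Out B τ → b ∈ Out B τ → a.re = b.re →
        (Sq B τ y a).im = (Sq B τ y b).im → 0 ≤ a.im → b.im ≤ 0 →
        a.im = fr B τ a.re ∧ b.im = -fr B τ a.re := by
      intro a b ha hb hab hi h1 h2
      rw [Sq_im_up h1, Sq_im_down hB hτ hb h2] at hi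
      have ha' : fr B τ a.re ≤ a.im := by
        have : fr B τ a.re ≤ |a.im| := ha
        rwa [abs_of_nonneg h1] at this
      have hb' : fr B τ b.re ≤ -b.im := by
        have : fr B τ b.re ≤ |b.im| := hb
        rwa [abs_of_nonpos h2] at this
      have k1 := sq1_nonneg hB hτ hy ha'
      have k2 := sq1_nonneg hB hτ hy hb'
      have k3 : sq1 B τ y a.re a.im = 0 := by linarith
      have k4 : sq1 B τ y b.re (-b.im) = 0 := by linarith
      refine ⟨(sq1_eq_zero hB hτ hy).1 k3, ?_⟩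
      have k5 := (sq1_eq_zero hB hτ hy).1 k4
      rw [hab]
      linarith
    rcases le_total 0 z.im with h1 | h1 <;> rcases le_total 0 z'.im with h2 | h2
    · left
      rw [Sq_im_up h1, Sq_im_up h2, ← hre] at him
      exact Complex.ext hre (sq1_inj hB hτ hy him)
    · right
      obtain ⟨m1, m2⟩ := mixed z z' hz hz' hre him h1 h2
      refine ⟨Complex.ext (by rw [Complex.conj_re, hre]) (by rw [Complex.conj_im, m1, m2]), ?_⟩
      rw [abs_of_nonneg h1]
      exact m1
    · right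
      obtain ⟨m1, m2⟩ := mixed z' z hz' hz hre.symm him.symm h2 h1
      rw [← hre] at m1 m2
      refine ⟨Complex.ext (by rw [Complex.conj_re, hre])
        (by rw [Complex.conj_im, m1, m2, neg_neg]), ?_⟩
      rw [abs_of_nonpos h1, m2, neg_neg]
    · left
      rw [Sq_im_down hB hτ hz h1, Sq_im_down hB hτ hz' h2, ← hre, neg_inj] at him
      exact Complex.ext hre (neg_injective (sq1_inj hB hτ hy him))
  · have hU : Out B τ = (Out B τ ∩ {z | 0 ≤ z.im}) ∪ (Out B τ ∩ {z | z.im ≤ 0}) := by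
      ext z
      constructor
      · intro hz
        rcases le_total 0 z.im with h | h
        · exact Or.inl ⟨hz, h⟩
        · exact Or.inr ⟨hz, h⟩
      · rintro (h | h)
        · exact h.1
        · exact h.1
    have c1 : ContinuousOn (Sq B τ y) (Out B τ ∩ {z | 0 ≤ z.im}) :=
      cont_half hB hτ hy inter_subset_left fun z hz z' hz' => Or.inl ⟨hz.2, hz'.2⟩
    have c2 : ContinuousOn (Sq B τ y) (Out B τ ∩ {z | z.im ≤ 0}) :=
      cont_half hB hτ hy inter_subset_left fun z hz z' hz' => Or.inr ⟨hz.2, hz'.2⟩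
    have k1 : IsClosed (Out B τ ∩ {z : ℂ | 0 ≤ z.im}) :=
      (isClosed_Out B τ).inter (isClosed_le continuous_const Complex.continuous_im)
    have k2 : IsClosed (Out B τ ∩ {z : ℂ | z.im ≤ 0}) :=
      (isClosed_Out B τ).inter (isClosed_le Complex.continuous_im continuous_const)
    rw [hU]
    exact c1.union_of_isClosed c2 k1 k2

end Pool.MP8e.Zero
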